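import Pool.Agent.MP42.X.Lng
import Pool.Agent.MP42.V.ATab

/-!
# The reduction theorem with leaning facets
-/

set_option autoImplicit false
set_option linter.unusedSectionVars false

namespace Pool.Agent.MP42X

open Pool.Agent.Helper55.UNF Pool.Agent.Helper55.UNF.GridSolid Pool.Agent.MP42G
open Pool.Agent.MP42H

variable {P : GridSolid}

/-- **The reduction theorem with leaning facets.** -/
theorem JXL.hasEdgeUnfolding {k : ℕ} (C : JXL P k) (hne : Nonempty P.Facet) (hT : C.Tree C.tr)
    (hC : C.Conn) (h5 : 0 < 5 * k) : (P.refine (5 * k) h5).HasEdgeUnfolding := by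
  have hcon : C.atab.Con := C.toJX0.con hT hC
  by_cases hL : ∃ f, C.L f
  · obtain ⟨f, hf⟩ := hL
    exact C.atab.unfolding_of_lng C.lng hne C.covL hcon (C.ex_lane hf) h5
  · refine C.atab.hasEdgeUnfolding hne ?_ hcon h5
    intro s hs x hx w
    obtain ⟨t, ⟨z, h1, h2⟩, h3⟩ := C.covL s hs (fun h => hL ⟨_, h⟩) x hx w
    exact ⟨t, ⟨z, fun y hy => (h1 y hy).1, h2⟩, h3⟩

/-- A certificate of `P.refine r` gives an edge unfolding of `P.refine (r * (5 * k))`. -/
theorem unfolding_of_JXL {P : GridSolid} (hP : P.IsOrthogonalPolyhedron) {r k : ℕ} (hr : 0 < r)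
    (C : JXL (P.refine r hr) k) (hT : C.Tree C.tr) (hC : C.Conn)
    (hK : 0 < r * (5 * k)) : (P.refine (r * (5 * k)) hK).HasEdgeUnfolding := by
  have hk : 0 < 5 * k := by have := C.kpos; omega
  have h1 := C.hasEdgeUnfolding (connected_refine hP hr).nonempty hT hC hk
  rw [refine_refine] at h1
  exact h1

end Pool.Agent.MP42X
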