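import Pool.Agent.MP42.X.Shake

/-!
# Reduction theorem with arbitrary label pairs: the handshake, second part
-/

set_option autoImplicit false
set_option linter.unusedSectionVars false

namespace Pool.Agent.MP42X

open Pool.Agent.Helper55.UNF Pool.Agent.Helper55.UNF.GridSolid Pool.Agent.MP42G
open Pool.Agent.MP42H
open Pool.Agent.MP42G.JCert (acS acS_int acS_end acS_acS acS_ne rL_stE)

variable {P : GridSolid}

namespace JX0

variable {k : ℕ} (C : JX0 P k)

lemma tr_cyc {r s : P.FSt} (h : C.Rim r) (hs : pE.SameCycle r s) : C.tr s ↔ C.tr r := by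
  obtain ⟨n, hn⟩ := hs.exists_nat_pow_eq
  rw [← hn]
  clear hn hs
  induction n with
  | zero => exact Iff.rfl
  | succ n ih =>
    rw [pow_succ', Equiv.Perm.mul_apply]
    exact (C.tr_E _ (Rows.Rim.pow C.toRows h n)).trans ih

lemma ng_cyc {r s : P.FSt} (h : C.Rim r) (hs : pE.SameCycle r s) : C.ng s = C.ng r := by
  obtain ⟨n, hn⟩ := hs.exists_nat_pow_eq
  rw [← hn]
  clear hn hs
  induction n with
  | zero => rfl
  | succ n ih =>
    rw [pow_succ', Equiv.Perm.mul_apply]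
    exact (C.ng_E _ (Rows.Rim.pow C.toRows h n)).trans ih

lemma z1_cyc {r s : P.FSt} (h : C.Rim r) (hs : pE.SameCycle r s) : C.z1 s = C.z1 r := by
  obtain ⟨n, hn⟩ := hs.exists_nat_pow_eq
  rw [← hn]
  clear hn hs
  induction n with
  | zero => rfl
  | succ n ih =>
    rw [pow_succ', Equiv.Perm.mul_apply]
    exact (C.z1_E _ (Rows.Rim.pow C.toRows h n)).trans ih

lemma z2_cyc {r s : P.FSt} (h : C.Rim r) (hs : pE.SameCycle r s) : C.z2 s = C.z2 r := by
  obtain ⟨n, hn⟩ := hs.exists_nat_pow_eq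
  rw [← hn]
  clear hn hs
  induction n with
  | zero => rfl
  | succ n ih =>
    rw [pow_succ', Equiv.Perm.mul_apply]
    exact (C.z2_E _ (Rows.Rim.pow C.toRows h n)).trans ih

/-- the two feet of a tree rim are in different facets -/
lemma fa_fb {r : P.FSt} (h : C.Rim r) (ht : C.tr r) (h1 : C.fa r) : ¬ C.fb r := by
  have := C.arc r h ht h1 0 (by omega)
  simpa using this

open Classical in
/-- the facet of the foot of strand 1 on the rim of `r` -/
noncomputable def fA (r : P.FSt) : P.FSt :=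
  if h : C.Rim r ∧ C.tr r then (C.fa_ex r h.1 (C.ac_tr r h.1 h.2)).choose else r

open Classical in
/-- the facet of the foot of strand 2 on the rim of `r` -/
noncomputable def fB (r : P.FSt) : P.FSt :=
  if h : C.Rim r ∧ C.tr r then (C.fb_ex r h.1 h.2).choose else r

lemma fA_spec {r : P.FSt} (h : C.Rim r) (ht : C.tr r) : pE.SameCycle r (C.fA r) ∧
    C.fa (C.fA r) ∧ ∀ a, pE.SameCycle r a → C.fa a → a = C.fA r := by
  unfold fA
  rw [dif_pos ⟨h, ht⟩]
  have h1 := (C.fa_ex r h (C.ac_tr r h ht)).choose_spec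
  exact ⟨h1.1.1, h1.1.2, fun a ha hf => h1.2 a ⟨ha, hf⟩⟩

lemma fB_spec {r : P.FSt} (h : C.Rim r) (ht : C.tr r) : pE.SameCycle r (C.fB r) ∧
    C.fb (C.fB r) ∧ ∀ a, pE.SameCycle r a → C.fb a → a = C.fB r := by
  unfold fB
  rw [dif_pos ⟨h, ht⟩]
  have h1 := (C.fb_ex r h ht).choose_spec
  exact ⟨h1.1.1, h1.1.2, fun a ha hf => h1.2 a ⟨ha, hf⟩⟩

/-- the flag of a foot of the rim state `r`, in row `y` -/
noncomputable def ft (k : ℕ) (r : P.FSt) (y : ℕ) : P.FSt × ℕ × ℕ := ((pN.symm r).rL, k - 1, y)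

/-- the flag of the foot of strand 1 -/
noncomputable def f1 (r : P.FSt) : P.FSt × ℕ × ℕ := ft k r (C.yy (C.z1 r) (C.ng r))

/-- the flag of the foot of strand 2 -/
noncomputable def f2 (r : P.FSt) : P.FSt × ℕ × ℕ := ft k r (C.yy (C.z2 r) (C.ng r))

open Classical in
/-- the partner of a flag -/
noncomputable def pt (q : P.FSt × ℕ × ℕ) : P.FSt × ℕ × ℕ :=
  if q.2.1 + 1 < k ∨ C.rw q.1.stE.facet = 0 then acS k q.1 q.2.1 q.2.2
  else if C.tr q.1.stE.rR then
    (if C.fa q.1.stE.rR then C.f1 (C.fA (Rows.far q.1.stE.rR))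
     else C.f2 (C.fB (Rows.far q.1.stE.rR)))
  else if q.2.2 + 1 = k then ft k (pE.symm q.1.stE.rR) 0
  else ft k q.1.stE.rR.stE (k - 1)

/-- valid flags -/
def Fl (q : P.FSt × ℕ × ℕ) : Prop :=
  q.2.1 < k ∧ q.2.2 < k ∧ C.rw q.1.facet = 0 ∧ C.usS q.1 q.2.1 q.2.2 = true

/-- the flag of a foot -/
lemma rim_rR {r : P.FSt} : (pN.symm r).rL.stE.rR = r := by
  have h : (pN.symm r).stN = r := pN_symm_stN r
  show (pN.symm r).stN = r
  exact h

lemma rim_facet {r : P.FSt} : (pN.symm r).rL.stE.facet = r.facet := by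
  have h : (pN.symm r).rL.stE.rR.facet = r.facet := by rw [rim_rR]
  exact h

lemma ft_not {r : P.FSt} (h : C.Rim r) (y : ℕ) :
    ¬ ((ft k r y).2.1 + 1 < k ∨ C.rw (ft k r y).1.stE.facet = 0) := by
  have hk := C.hk
  unfold ft
  simp only
  rw [rim_facet]
  rintro (h1 | h1)
  · omega
  · exact Rows.Rim.ne0 C.toRows h h1

lemma pt_a {r : P.FSt} (h : C.Rim r) (ht : C.tr r) (ha : C.fa r) (y : ℕ) :
    C.pt (ft k r y) = C.f1 (C.fA (Rows.far r)) := by
  have h0 := C.ft_not h y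
  unfold pt
  rw [if_neg h0]
  unfold ft
  simp only
  rw [rim_rR, if_pos ht, if_pos ha]

lemma pt_b {r : P.FSt} (h : C.Rim r) (ht : C.tr r) (ha : C.fb r) (y : ℕ) :
    C.pt (ft k r y) = C.f2 (C.fB (Rows.far r)) := by
  have h0 := C.ft_not h y
  have h1 : ¬ C.fa r := fun h1 => C.fa_fb h ht h1 ha
  unfold pt
  rw [if_neg h0]
  unfold ft
  simp only
  rw [rim_rR, if_pos ht, if_neg h1]

lemma pt_nc {r : P.FSt} (h : C.Rim r) (ht : ¬ C.tr r) :
    C.pt (ft k r (k - 1)) = ft k (pE.symm r) 0 := by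
  have hk := C.hk
  have h0 := C.ft_not h (k - 1)
  unfold pt
  rw [if_neg h0]
  unfold ft
  simp only
  rw [rim_rR, if_neg ht, if_pos (by omega)]

lemma pt_s {r : P.FSt} (h : C.Rim r) (ht : ¬ C.tr r) :
    C.pt (ft k r 0) = ft k r.stE (k - 1) := by
  have hk := C.hk
  have hm := C.hm
  have h0 := C.ft_not h 0
  unfold pt
  rw [if_neg h0]
  unfold ft
  simp only
  rw [rim_rR, if_neg ht, if_neg (by omega)]

/-- the flags over which there is a foot -/
lemma Fl.foot {q : P.FSt × ℕ × ℕ} (hq : C.Fl q) (h : ¬ (q.2.1 + 1 < k ∨ C.rw q.1.stE.facet = 0)) :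
    ∃ r, C.Rim r ∧ ((q = C.f1 r ∧ C.tr r ∧ C.fa r) ∨ (q = C.f2 r ∧ C.tr r ∧ C.fb r) ∨
      (q = ft k r (k - 1) ∧ ¬ C.tr r ∧ C.fa r) ∨
      (q = ft k r 0 ∧ ¬ C.tr r ∧ C.fa r.stE)) := by
  obtain ⟨s, x, y⟩ := q
  obtain ⟨hx, hy, h0, hu⟩ := hq
  simp only at hx hy h0 hu h
  push Not at h
  obtain ⟨h1, h2⟩ := h
  have hx' : x = k - 1 := by omega
  subst hx'
  obtain ⟨h3, h4, -⟩ := Rows.Rim.of_side C.toRows h0 h2
  refine ⟨s.stE.rR, h3, ?_⟩
  have e : ∀ z : ℕ, ft k s.stE.rR z = (s, k - 1, z) := fun z => by unfold ft; rw [h4]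
  rw [← h4] at hu
  have h5 := (C.foot_iff h3 hy).1 hu
  rcases h5 with ⟨h5, h6, h7⟩ | ⟨h5, h6, h7⟩ | ⟨h5, h6, h7⟩ | ⟨h5, h6, h7⟩
  · exact Or.inl ⟨by unfold f1; rw [e, h7], h5, h6⟩
  · exact Or.inr (Or.inl ⟨by unfold f2; rw [e, h7], h5, h6⟩)
  · exact Or.inr (Or.inr (Or.inl ⟨by rw [e, show y = k - 1 by omega], h5, h6⟩))
  · exact Or.inr (Or.inr (Or.inr ⟨by rw [e, h7], h5, h6⟩))

lemma Fl.a {r : P.FSt} (h : C.Rim r) (ht : C.tr r) (h1 : C.fa r) : C.Fl (C.f1 r) := by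
  have hk := C.hk
  have hy := C.yy_lt (C.z1 r) (C.ng r)
  refine ⟨by show k - 1 < k; omega, hy, ?_, ?_⟩
  · exact C.toRows.rw_symm h
  · exact (C.foot_iff h hy).2 (Or.inl ⟨ht, h1, rfl⟩)

lemma Fl.b {r : P.FSt} (h : C.Rim r) (ht : C.tr r) (h1 : C.fb r) : C.Fl (C.f2 r) := by
  have hk := C.hk
  have hy := C.yy_lt (C.z2 r) (C.ng r)
  refine ⟨by show k - 1 < k; omega, hy, ?_, ?_⟩
  · exact C.toRows.rw_symm h
  · exact (C.foot_iff h hy).2 (Or.inr (Or.inl ⟨ht, h1, rfl⟩))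

lemma Fl.n {r : P.FSt} (h : C.Rim r) (ht : ¬ C.tr r) (h1 : C.fa r) : C.Fl (ft k r (k - 1)) := by
  have hk := C.hk
  refine ⟨by show k - 1 < k; omega, by show k - 1 < k; omega, ?_, ?_⟩
  · exact C.toRows.rw_symm h
  · exact (C.foot_iff h (y := k - 1) (by omega)).2 (Or.inr (Or.inr (Or.inl ⟨ht, h1, by omega⟩)))

lemma Fl.s {r : P.FSt} (h : C.Rim r) (h1 : ¬ C.tr r) (h2 : C.fa r.stE) :
    C.Fl (ft k r 0) := by
  have hk := C.hk
  refine ⟨by show k - 1 < k; omega, by show 0 < k; omega, ?_, ?_⟩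
  · exact C.toRows.rw_symm h
  · exact (C.foot_iff h (y := 0) (by omega)).2 (Or.inr (Or.inr (Or.inr ⟨h1, h2, rfl⟩)))

/-- the value at a flag -/
def vq (ψ χ : P.Facet → ℕ → ℕ → Prop) (q : P.FSt × ℕ × ℕ) : Prop := C.vlS ψ χ q.1 q.2.1 q.2.2

variable {ψ χ : P.Facet → ℕ → ℕ → Prop}

/-- the value of a foot of a tree rim -/
lemma vq_f {r : P.FSt} (h : C.Rim r) (ht : C.tr r) {z : Bool}
    (h1 : (C.fa r ∧ C.z1 r = z) ∨ (C.fb r ∧ C.z2 r = z)) :
    C.vq ψ χ (ft k r (C.yy z (C.ng r))) ↔ C.vf ψ χ z r := by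
  have hk := C.hk
  have hl := C.fcol_lt (C.ng r)
  cases z with
  | true =>
    unfold vf
    rw [if_pos rfl]
    show C.vlS ψ χ (pN.symm r).rL (k - 1) (C.yy true (C.ng r)) ↔ _
    have e : C.yy true (C.ng r) = C.m := by unfold yy; simp
    rw [e]
    apply C.foot_vo
    rw [C.ro r h _ (by omega)]
    simp [ht, h1]
  | false =>
    unfold vf
    rw [if_neg (by decide)]
    show C.vlS ψ χ (pN.symm r).rL (k - 1) (C.yy false (C.ng r)) ↔ _
    have e : C.yy false (C.ng r) = k - 1 - fcol k (C.ng r) := by unfold yy; simp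
    rw [e]
    have e2 : k - 1 - (k - 1 - fcol k (C.ng r)) = fcol k (C.ng r) := by omega
    have h2 := C.rn r h (fcol k (C.ng r)) hl
    rw [if_pos ht, if_pos ⟨h1, rfl⟩] at h2
    have := C.foot_vn (ψ := ψ) (χ := χ) (pN.symm r) (y := k - 1 - fcol k (C.ng r)) (by omega)
      (by rw [e2, h2]; unfold flet; split_ifs <;> decide)
    rw [e2] at this
    exact this

lemma vq_1 {r : P.FSt} (h : C.Rim r) (ht : C.tr r) (h1 : C.fa r) :
    C.vq ψ χ (C.f1 r) ↔ C.vf ψ χ (C.z1 r) r :=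
  C.vq_f h ht (Or.inl ⟨h1, rfl⟩)

lemma vq_2 {r : P.FSt} (h : C.Rim r) (ht : C.tr r) (h1 : C.fb r) :
    C.vq ψ χ (C.f2 r) ↔ C.vf ψ χ (C.z2 r) r :=
  C.vq_f h ht (Or.inr ⟨h1, rfl⟩)

lemma vq_n {r : P.FSt} (h : C.Rim r) (ht : ¬ C.tr r) (h1 : C.fa r) :
    C.vq ψ χ (ft k r (k - 1)) ↔ C.vn χ (pN.symm r) 0 := by
  have hk := C.hk
  have h2 := C.rn r h 0 (by omega)
  rw [if_neg ht, if_pos ⟨h1, rfl⟩] at h2
  have e : k - 1 - (k - 1) = 0 := by omega
  have := C.foot_vn (ψ := ψ) (χ := χ) (pN.symm r) (y := k - 1) (by omega)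
    (by rw [e, h2]; decide)
  rw [e] at this
  exact this

lemma vq_s {r : P.FSt} (h : C.Rim r) (h1 : ¬ C.tr r) (h3 : C.fa r.stE) :
    C.vq ψ χ (ft k r 0) ↔ C.vn χ (pN.symm r) (k - 1) := by
  have hk := C.hk
  have hm := C.hm
  have h2 := C.rn r h (k - 1) (by omega)
  rw [if_neg h1, if_neg (by intro h; omega), if_pos ⟨h3, by omega⟩] at h2
  have := C.foot_vn (ψ := ψ) (χ := χ) (pN.symm r) (y := 0) (by omega)
    (by rw [Nat.sub_zero, h2]; decide)
  rw [Nat.sub_zero] at this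
  exact this

/-- the values are known on the feet -/
structure Val (ψ χ : P.Facet → ℕ → ℕ → Prop) : Prop where
  /-- strand 1 -/
  s1 : ∀ r, C.Rim r → C.tr r → C.fa r → ∀ a, pE.SameCycle (Rows.far r) a → C.fa a →
    (C.vf ψ χ (C.z1 r) r ↔ C.vf ψ χ (C.z1 a) a)
  /-- strand 2 -/
  s2 : ∀ r, C.Rim r → C.tr r → C.fb r → ∀ a, pE.SameCycle (Rows.far r) a → C.fb a →
    (C.vf ψ χ (C.z2 r) r ↔ C.vf ψ χ (C.z2 a) a)
  c : ∀ r, C.Rim r → ¬ C.tr r → C.fa r.stE →
    (C.vn χ (pN.symm r.stE) 0 ↔ C.vn χ (pN.symm r) (k - 1))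

/-- the two rims of a band have different rows -/
lemma far_ne {r s : P.FSt} (h : C.Rim r) (hs : pE.SameCycle (Rows.far r) s) :
    ¬ pE.SameCycle r s := by
  intro h1
  have hrow : ∀ {a b : P.FSt}, C.Rim a → pE.SameCycle a b → C.rw b.facet = C.rw a.facet := by
    intro a b ha hab
    obtain ⟨n, hn⟩ := hab.exists_nat_pow_eq
    rw [← hn]
    clear hn hab
    induction n with
    | zero => rfl
    | succ n ih =>
      rw [pow_succ', Equiv.Perm.mul_apply]
      exact (C.E _ (Rows.Rim.V C.toRows (Rows.Rim.pow C.toRows ha n))).trans ih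
  have e1 := hrow h h1
  have e2 := hrow (Rows.Rim.far C.toRows h) hs
  have e3 : C.rw (Rows.far r).facet ≠ C.rw r.facet := by
    rcases h with ⟨h, h'⟩ | ⟨h, h'⟩
    · have := C.up h (by omega) 4 (by omega)
      unfold Rows.far
      rw [FSt.facet_r2, this.2]
      omega
    · have := C.down h 4 (by omega)
      unfold Rows.far
      rw [FSt.facet_r2]
      omega
  omega

/-- the flags of two rim states are different -/
lemma ft_inj {r s : P.FSt} {y z : ℕ} (h : ft k r y = ft k s z) : r = s := by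
  have h2 : pN.symm r = pN.symm s := by
    have := congrArg FSt.rR (congrArg Prod.fst h)
    rwa [show (ft k r y).1.rR = pN.symm r from FSt.rL_rR _,
      show (ft k s z).1.rR = pN.symm s from FSt.rL_rR _] at this
  exact pN.symm.injective h2

/-- basic facts on the partner -/
lemma pt_spec {q : P.FSt × ℕ × ℕ} (hq : C.Fl q) :
    C.Fl (C.pt q) ∧ C.pt (C.pt q) = q ∧ C.pt q ≠ q ∧
    (C.Inv ψ χ → C.Val ψ χ → (C.vq ψ χ q ↔ C.vq ψ χ (C.pt q))) := by
  have hk := C.hk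
  have hm := C.hm
  by_cases h : q.2.1 + 1 < k ∨ C.rw q.1.stE.facet = 0
  · have e : C.pt q = acS k q.1 q.2.1 q.2.2 := by unfold pt; rw [if_pos h]
    obtain ⟨s, x, y⟩ := q
    obtain ⟨hx, hy, h0, hu⟩ := hq
    simp only at hx hy h0 hu h e
    have h1 : x + 1 = k → C.rw s.stE.facet = 0 := by
      intro h2
      rcases h with h | h
      · omega
      · exact h
    have h2 := C.acS_spec (ψ := ψ) (χ := χ) hx hy h0 h1 hu
    obtain ⟨g1, g2, g3, -, g5, g6⟩ := h2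
    rw [e]
    refine ⟨⟨g1, g2, g3, g5⟩, ?_, acS_ne, fun I _ => g6 I⟩
    have h3 := acS_acS (s := s) hx hy
    have hcond : (acS k s x y).2.1 + 1 < k ∨ C.rw (acS k s x y).1.stE.facet = 0 := by
      by_cases hxk : x + 1 < k
      · rw [acS_int hxk]; left; show k - 2 - x + 1 < k; omega
      · rw [acS_end hxk]
        right
        show C.rw s.stE.r2.stE.facet = 0
        rw [FSt.stE_inv]
        exact h0
    unfold pt
    rw [if_pos hcond, h3]
  · obtain ⟨r, hr, h⟩ := hq.foot C h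
    have hf := Rows.Rim.far C.toRows hr
    rcases h with ⟨rfl, ht, ha⟩ | ⟨rfl, ht, hb⟩ | ⟨rfl, ht, ha⟩ | ⟨rfl, ht, ha⟩
    · -- foot 1 of a tree rim
      have htf := (C.tr_far r hr).2 ht
      obtain ⟨a1, a2, a3⟩ := C.fA_spec hf htf
      have hra : C.Rim (C.fA (Rows.far r)) := Rows.Rim.cyc C.toRows hf a1
      have hta : C.tr (C.fA (Rows.far r)) := (C.tr_cyc hf a1).2 htf
      have e1 : C.pt (C.f1 r) = C.f1 (C.fA (Rows.far r)) := C.pt_a hr ht ha _
      have e2 : C.pt (C.f1 (C.fA (Rows.far r))) = C.f1 (C.fA (Rows.far (C.fA (Rows.far r)))) :=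
        C.pt_a hra hta a2 _
      rw [e1, e2]
      have hfa2 : C.fA (Rows.far (C.fA (Rows.far r))) = r := by
        have h1 := C.far_cyc hf a1
        rw [far_far] at h1
        have h2 : C.Rim (Rows.far (C.fA (Rows.far r))) := Rows.Rim.far C.toRows hra
        exact ((C.fA_spec h2 ((C.tr_far _ hra).2 hta)).2.2 r h1.symm ha).symm
      refine ⟨Fl.a C hra hta a2, by rw [hfa2], ?_, fun I V => ?_⟩
      · intro h1
        have h3 := ft_inj h1
        rw [h3] at a1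
        exact C.far_ne hr a1 (Equiv.Perm.SameCycle.refl _ _)
      · rw [C.vq_1 hr ht ha, C.vq_1 hra hta a2]
        exact V.s1 r hr ht ha _ a1 a2
    · -- foot 2 of a tree rim
      have htf := (C.tr_far r hr).2 ht
      obtain ⟨b1, b2, b3⟩ := C.fB_spec hf htf
      have hrb : C.Rim (C.fB (Rows.far r)) := Rows.Rim.cyc C.toRows hf b1
      have htb : C.tr (C.fB (Rows.far r)) := (C.tr_cyc hf b1).2 htf
      have e1 : C.pt (C.f2 r) = C.f2 (C.fB (Rows.far r)) := C.pt_b hr ht hb _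
      have e2 : C.pt (C.f2 (C.fB (Rows.far r))) = C.f2 (C.fB (Rows.far (C.fB (Rows.far r)))) :=
        C.pt_b hrb htb b2 _
      rw [e1, e2]
      have hfb2 : C.fB (Rows.far (C.fB (Rows.far r))) = r := by
        have h1 := C.far_cyc hf b1
        rw [far_far] at h1
        have h2 : C.Rim (Rows.far (C.fB (Rows.far r))) := Rows.Rim.far C.toRows hrb
        exact ((C.fB_spec h2 ((C.tr_far _ hrb).2 htb)).2.2 r h1.symm hb).symm
      refine ⟨Fl.b C hrb htb b2, by rw [hfb2], ?_, fun I V => ?_⟩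
      · intro h1
        have h3 := ft_inj h1
        rw [h3] at b1
        exact C.far_ne hr b1 (Equiv.Perm.SameCycle.refl _ _)
      · rw [C.vq_2 hr ht hb, C.vq_2 hrb htb b2]
        exact V.s2 r hr ht hb _ b1 b2
    · -- a foot `n` of a cut rim
      have hw := Rows.Rim.W C.toRows hr
      have he := pE_symm_stE r
      have htw : ¬ C.tr (pE.symm r) := by
        intro h1
        apply ht
        have := (C.tr_E _ hw).2 h1
        rwa [he] at this
      rw [C.pt_nc hr ht, C.pt_s hw htw, he]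
      refine ⟨Fl.s C hw htw (by rw [he]; exact ha), rfl, ?_, fun I V => ?_⟩
      · intro h1
        have := congrArg (fun q : P.FSt × ℕ × ℕ => q.2.2) h1
        simp only [ft] at this
        omega
      · have := V.c _ hw htw (by rw [he]; exact ha)
        rw [he] at this
        rw [C.vq_n hr ht ha, C.vq_s hw htw (by rw [he]; exact ha)]
        exact this
    · -- a foot `s` of a cut rim
      have hre := Rows.Rim.E C.toRows hr
      have hte : ¬ C.tr r.stE := fun h1 => ht ((C.tr_E _ hr).1 h1)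
      have he : pE.symm r.stE = r := pE.symm_apply_apply r
      rw [C.pt_s hr ht, C.pt_nc hre hte, he]
      refine ⟨Fl.n C hre hte ha, rfl, ?_, fun I V => ?_⟩
      · intro h1
        have := congrArg (fun q : P.FSt × ℕ × ℕ => q.2.2) h1
        simp only [ft] at this
        omega
      · rw [C.vq_s hr ht ha, C.vq_n hre hte ha]
        exact (V.c r hr ht ha).symm

/-- **Handshake.**  The two feet of a tree rim have the same value. -/
lemma shake {ψ χ : P.Facet → ℕ → ℕ → Prop} (I : C.Inv ψ χ) (V : C.Val ψ χ) (hT : C.Tree C.tr)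
    {a b : P.FSt} (hra : C.Rim a) (hta : C.tr a) (hab : pE.SameCycle a b) (ha : C.fa a)
    (hb : C.fb b) : C.vf ψ χ (C.z1 a) a ↔ C.vf ψ χ (C.z2 b) b := by
  classical
  have hk := C.hk
  have hm := C.hm
  have hrb := Rows.Rim.cyc C.toRows hra hab
  have htb := (C.tr_cyc hra hab).2 hta
  obtain ⟨S, hS, hS2, hS3⟩ : ∃ S : P.Facet → Prop, C.QJ S ∧
      (∀ r, C.Rim r → C.tr r → ¬ pE.SameCycle a r → ¬ pE.SameCycle (Rows.far a) r →
      (S (Rows.jf r) ↔ S (Rows.jf (Rows.far r)))) ∧ (S (Rows.jf a) ∧ ¬ S (Rows.jf (Rows.far a))) := by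
    obtain ⟨S, h1, h2, h3⟩ := hT.sep a hra hta
    by_cases h4 : S (Rows.jf a)
    · exact ⟨S, h1, h2, h4, fun h5 => h3 ⟨fun _ => h5, fun _ => h4⟩⟩
    · refine ⟨fun f => ¬ S f, fun s g1 g2 => not_congr (h1 s g1 g2),
        fun r g1 g2 g3 g4 => not_congr (h2 r g1 g2 g3 g4), h4, ?_⟩
      intro h5
      exact h3 ⟨fun h => absurd h h4, fun h => absurd h h5⟩
  have hfa := Rows.Rim.far C.toRows hra
  have hSb : S (Rows.jf b) := (Rows.QJ.jf C.toRows hS hra hab).2 hS3.1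
  let F : Finset (P.FSt × ℕ × ℕ) := ((Finset.univ : Finset P.FSt) ×ˢ
    (Finset.range k ×ˢ Finset.range k)).filter (fun q => C.Fl q ∧ S q.1.facet)
  have hF : ∀ q, q ∈ F ↔ C.Fl q ∧ S q.1.facet := by
    intro q
    simp only [F, Finset.mem_filter, Finset.mem_product, Finset.mem_univ, Finset.mem_range,
      true_and]
    constructor
    · exact fun h => h.2
    · exact fun h => ⟨⟨h.1.1, h.1.2.1⟩, h⟩
  have hqa := Fl.a C hra hta ha
  have hqb := Fl.b C hrb htb hb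
  have hne : C.f1 a ≠ C.f2 b := by
    intro h
    have h2 := ft_inj h
    rw [← h2] at hb
    exact C.fa_fb hra hta ha hb
  -- the partner of a flag of `F` that is not one of the two feet is in `F`
  have hpS : ∀ q ∈ F, q ≠ C.f1 a → q ≠ C.f2 b → C.pt q ∈ F := by
    intro q hq n1 n2
    obtain ⟨hq1, hq2⟩ := (hF q).1 hq
    refine (hF _).2 ⟨(C.pt_spec (ψ := ψ) (χ := χ) hq1).1, ?_⟩
    by_cases h : q.2.1 + 1 < k ∨ C.rw q.1.stE.facet = 0
    · have e : C.pt q = acS k q.1 q.2.1 q.2.2 := by unfold pt; rw [if_pos h]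
      rw [e]
      have h1 : q.2.1 + 1 = k → C.rw q.1.stE.facet = 0 := by
        intro h2
        rcases h with h | h
        · omega
        · exact h
      exact ((C.acS_spec (ψ := ψ) (χ := χ) hq1.1 hq1.2.1 hq1.2.2.1 h1 hq1.2.2.2).2.2.2.1 S hS).2
        hq2
    · obtain ⟨r, hr, h⟩ := hq1.foot C h
      have hf := Rows.Rim.far C.toRows hr
      have hqr : S (Rows.jf r) := by
        rcases h with ⟨rfl, _⟩ | ⟨rfl, _⟩ | ⟨rfl, _⟩ | ⟨rfl, _⟩ <;> exact hq2
      have h5 : ¬ pE.SameCycle (Rows.far a) r := by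
        intro h6
        exact hS3.2 ((Rows.QJ.jf C.toRows hS hfa h6).1 hqr)
      rcases h with ⟨rfl, ht, h1⟩ | ⟨rfl, ht, h1⟩ | ⟨rfl, ht, h1⟩ | ⟨rfl, ht, h1⟩
      · have e1 : C.pt (C.f1 r) = C.f1 (C.fA (Rows.far r)) := C.pt_a hr ht h1 _
        rw [e1]
        have h4 : ¬ pE.SameCycle a r := by
          intro h6
          apply n1
          rw [(C.fA_spec hra hta).2.2 r h6 h1,
            ← (C.fA_spec hra hta).2.2 a (Equiv.Perm.SameCycle.refl _ _) ha]
        have h7 := (hS2 r hr ht h4 h5).1 hqr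
        exact (Rows.QJ.jf C.toRows hS hf (C.fA_spec hf ((C.tr_far r hr).2 ht)).1).2 h7
      · have e1 : C.pt (C.f2 r) = C.f2 (C.fB (Rows.far r)) := C.pt_b hr ht h1 _
        rw [e1]
        have h4 : ¬ pE.SameCycle a r := by
          intro h6
          apply n2
          have h8 := C.fB_spec hra hta
          rw [h8.2.2 r h6 h1, ← h8.2.2 b hab hb]
        have h7 := (hS2 r hr ht h4 h5).1 hqr
        exact (Rows.QJ.jf C.toRows hS hf (C.fB_spec hf ((C.tr_far r hr).2 ht)).1).2 h7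
      · rw [C.pt_nc hr ht]
        have hw := Rows.Rim.W C.toRows hr
        have := Rows.QJ.jf_E C.toRows hS hw
        rw [pE_symm_stE] at this
        exact this.1 hqr
      · rw [C.pt_s hr ht]
        exact (Rows.QJ.jf_E C.toRows hS hr).2 hqr
  -- the partners of the two feet are not in `F`
  have hpa : C.pt (C.f1 a) ∉ F := by
    intro h
    have e1 : C.pt (C.f1 a) = C.f1 (C.fA (Rows.far a)) := C.pt_a hra hta ha _
    rw [e1] at h
    have h1 : S (Rows.jf (C.fA (Rows.far a))) := ((hF _).1 h).2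
    exact hS3.2 ((Rows.QJ.jf C.toRows hS hfa (C.fA_spec hfa ((C.tr_far a hra).2 hta)).1).1 h1)
  have hpb : C.pt (C.f2 b) ∉ F := by
    intro h
    have e1 : C.pt (C.f2 b) = C.f2 (C.fB (Rows.far b)) := C.pt_b hrb htb hb _
    rw [e1] at h
    have hfb := Rows.Rim.far C.toRows hrb
    have htfb := (C.tr_far b hrb).2 htb
    have h1 : S (Rows.jf (C.fB (Rows.far b))) := ((hF _).1 h).2
    have h2 : pE.SameCycle (Rows.far a) (C.fB (Rows.far b)) :=
      (C.far_cyc hra hab).trans (C.fB_spec hfb htfb).1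
    exact hS3.2 ((Rows.QJ.jf C.toRows hS hfa h2).1 h1)
  have key := two_involutions F (C.vq ψ χ) (fun q => C.mtS q.1 q.2.1 q.2.2) C.pt
    ((hF _).2 ⟨hqa, hS3.1⟩) ((hF _).2 ⟨hqb, hSb⟩) hne
    (fun q hq => by
      obtain ⟨hq1, hq2⟩ := (hF q).1 hq
      have := C.mtS_spec (ψ := ψ) (χ := χ) hq1.1 hq1.2.1 hq1.2.2.1 hq1.2.2.2
      refine (hF _).2 ⟨⟨this.1, this.2.1, ?_, this.2.2.2.1⟩, ?_⟩
      · rw [this.2.2.1]; exact hq1.2.2.1
      · rw [this.2.2.1]; exact hq2)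
    (fun q hq => by
      obtain ⟨hq1, hq2⟩ := (hF q).1 hq
      exact (C.mtS_spec (ψ := ψ) (χ := χ) hq1.1 hq1.2.1 hq1.2.2.1 hq1.2.2.2).2.2.2.2.1)
    (fun q hq => by
      obtain ⟨hq1, hq2⟩ := (hF q).1 hq
      exact (C.mtS_spec (ψ := ψ) (χ := χ) hq1.1 hq1.2.1 hq1.2.2.1 hq1.2.2.2).2.2.2.2.2.1)
    (fun q hq => by
      obtain ⟨hq1, hq2⟩ := (hF q).1 hq
      exact (C.mtS_spec (ψ := ψ) (χ := χ) hq1.1 hq1.2.1 hq1.2.2.1 hq1.2.2.2).2.2.2.2.2.2 I)
    (fun q hq n1 n2 => by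
      have h1 := hpS q hq n1 n2
      obtain ⟨hq1, hq2⟩ := (hF q).1 hq
      have h2 := (C.pt_spec (ψ := ψ) (χ := χ) hq1).2.1
      refine ⟨h1, ?_, ?_⟩
      · intro h3
        rw [h3] at h2
        rw [← h2] at hq
        exact hpa hq
      · intro h3
        rw [h3] at h2
        rw [← h2] at hq
        exact hpb hq)
    (fun q hq _ _ => (C.pt_spec (ψ := ψ) (χ := χ) ((hF q).1 hq).1).2.1)
    (fun q hq _ _ => (C.pt_spec (ψ := ψ) (χ := χ) ((hF q).1 hq).1).2.2.1)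
    (fun q hq _ _ => (C.pt_spec (ψ := ψ) (χ := χ) ((hF q).1 hq).1).2.2.2 I V)
  rw [C.vq_1 hra hta ha, C.vq_2 hrb htb hb] at key
  exact key

/-- **H5a**: the rims are closed up. -/
theorem closed {ψ χ : P.Facet → ℕ → ℕ → Prop} (I : C.Inv ψ χ) (V : C.Val ψ χ)
    (hT : C.Tree C.tr) : C.Closed ψ χ where
  tree := fun _ _ h1 h2 h3 h4 h5 => C.shake I V hT h1 h2 h3 h4 h5
  cut := V.c

end JX0

end Pool.Agent.MP42X
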