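import Pool.Agent.MP42.X.Val2
import Pool.Agent.MP42.X.Shake2

/-!
# Connectivity of the state table of a certificate: the last step
-/

set_option autoImplicit false
set_option linter.unusedSectionVars false

namespace Pool.Agent.MP42X

open Pool.Agent.Helper55.UNF Pool.Agent.MP42G Pool.Agent.MP42H
open Pool.Agent.Helper55.UNF.GridSolid hiding len

variable {P : GridSolid}

namespace JX0

variable {k : ℕ} {C : JX0 P k}

/-- the predicates on the junctions given by predicates on the states -/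
def ψJ (C : JX0 P k) (ψ : P.FSt → ℕ → ℕ → Prop) (f : P.Facet) (x y : ℕ) : Prop := ψ (C.can f) x y

lemma act_can {f : P.Facet} (h : C.rw f = 0) : Act C.canF (C.can f) := by
  left
  rw [C.can_facet, canF_J h]

lemma act_can2 {f : P.Facet} (h : C.rw f = 0) : Act C.canF (C.can f).r2 := by
  right
  rw [FSt.facet_r2, FSt.r2_r2, C.can_facet, canF_J h]

lemma PR_can {f : P.Facet} (h : C.rw f = 0) (x y : ℕ) : C.PR (C.can f) x y = C.pr f x y := by
  rw [PR_J (by rw [C.can_facet]; exact h) (by rw [C.can_facet]), C.can_facet]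

lemma LA_can {f : P.Facet} (h : C.rw f = 0) (x y : ℕ) : C.LA (C.can f) x y = C.la f x y := by
  rw [LA_J (by rw [C.can_facet]; exact h) (by rw [C.can_facet]), C.can_facet]

lemma PR_can2 {f : P.Facet} (h : C.rw f = 0) (x y : ℕ) :
    C.PR (C.can f).r2 x y = C.pr f (k - x) (k - 1 - y) := by
  rw [PR_J2 (by rw [FSt.facet_r2, C.can_facet]; exact h)
    (by rw [FSt.facet_r2, C.can_facet, FSt.r2_r2]), FSt.facet_r2, C.can_facet]

/-- the relations in the junctions -/
theorem inv_of {ψ χ : P.FSt → ℕ → ℕ → Prop} (hR : ARel k C.canF C.PR C.LA ψ χ) :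
    C.Inv (C.ψJ ψ) (C.ψJ χ) where
  cell := fun f h0 => by
    have h1 := hR.cell (C.can f) (act_can h0)
    have e1 : C.PR (C.can f) = C.pr f := by funext x y; exact PR_can h0 x y
    have e2 : C.LA (C.can f) = C.la f := by funext x y; exact LA_can h0 x y
    rw [e1, e2] at h1
    exact h1
  gN := fun f g hf hg e x hx hl => by
    have h1 := hR.gN (C.can f) (act_can hf) (by rw [e]; exact act_can hg) x hx
      (by rw [LA_can hf]; exact hl)
    rw [e] at h1
    exact h1
  gE := fun f g hf hg e y hy hl => by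
    have h1 := hR.gE (C.can f) (act_can hf) (by rw [e]; exact act_can hg) y hy
      (by rw [PR_can hf]; exact hl)
    rw [e] at h1
    exact h1
  gEr := fun f g hf hg e y hy hl => by
    have h1 := hR.gE (C.can f) (act_can hf) (by rw [e]; exact act_can2 hg) y hy
      (by rw [PR_can hf]; exact hl)
    rw [e, hR.rotV _ (act_can hg) 0 y (Nat.zero_le _) hy, Nat.sub_zero] at h1
    exact h1
  gWr := fun f g hf hg e y hy hl => by
    have h1 := hR.gE (C.can f).r2 (act_can2 hf) (by rw [e]; exact act_can hg) (k - 1 - y)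
      (by omega) (by
        rw [PR_can2 hf, Nat.sub_self, show k - 1 - (k - 1 - y) = y by omega]; exact hl)
    rw [e, hR.rotV _ (act_can hf) k _ le_rfl (by omega), Nat.sub_self,
      show k - 1 - (k - 1 - y) = y by omega] at h1
    exact h1

/-! ## Values of the feet -/

lemma ConstJ.lane {ψ χ : P.Facet → ℕ → ℕ → Prop} {Q : P.Facet → Prop} (h : C.ConstJ ψ χ Q)
    {t : P.FSt} (h0 : C.rw t.facet = 0) {x : ℕ} (hx : x < k) (h1 : wn k C.can C.la t x ≠ Ln.z) :
    C.vn χ t x ↔ Q t.facet := by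
  unfold wn at h1
  unfold vn
  by_cases h2 : C.can t.facet = t
  · rw [if_pos h2] at h1 ⊢
    exact h.hor _ x k h0 hx le_rfl h1
  · rw [if_neg h2] at h1 ⊢
    by_cases h3 : C.can t.facet = t.r2
    · rw [if_pos h3] at h1
      exact h.hor _ (k - 1 - x) 0 h0 (by omega) (Nat.zero_le _) h1
    · rw [if_neg h3] at h1
      exact absurd rfl h1

lemma ConstJ.turned {ψ χ : P.Facet → ℕ → ℕ → Prop} {Q : P.Facet → Prop} (h : C.ConstJ ψ χ Q)
    {t : P.FSt} (h0 : C.rw t.facet = 0) (h1 : wo k C.can C.pr t C.m = true) :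
    C.vo ψ t ↔ Q t.facet := by
  have hk := C.hk
  unfold wo at h1
  unfold vo
  by_cases h2 : C.can t.facet = t.rL
  · rw [if_pos h2] at h1 ⊢
    exact h.ver _ k C.m h0 le_rfl (by omega) h1
  · rw [if_neg h2] at h1 ⊢
    by_cases h3 : C.can t.facet = t.rR
    · rw [if_pos h3, show k - 1 - C.m = C.m by omega] at h1
      exact h.ver _ 0 C.m h0 (Nat.zero_le _) (by omega) h1
    · rw [if_neg h3] at h1
      exact absurd h1 (by decide)

lemma wn_foot {r : P.FSt} (hr : C.Rim r) (ht : C.tr r) (hf : C.Foot false r) :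
    wn k C.can C.la (pN.symm r) (fcol k (C.ng r)) ≠ Ln.z := by
  rw [C.rn r hr _ (fcol_lt' C _), if_pos ht, if_pos ⟨hf, rfl⟩]
  exact flet_ne _

lemma wo_foot {r : P.FSt} (hr : C.Rim r) (ht : C.tr r) (hf : C.Foot true r) :
    wo k C.can C.pr (pN.symm r) C.m = true := by
  classical
  rw [C.ro r hr _ (m_lt C)]
  exact decide_eq_true_iff.2 ⟨ht, hf, rfl⟩

lemma ConstJ.foot {ψ χ : P.Facet → ℕ → ℕ → Prop} {Q : P.Facet → Prop} (h : C.ConstJ ψ χ Q)
    {r : P.FSt} (hr : C.Rim r) (ht : C.tr r) {z : Bool} (hf : C.Foot z r) :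
    C.vf ψ χ z r ↔ Q (Rows.jf r) := by
  unfold vf
  cases z
  · rw [if_neg (by decide)]
    exact h.lane (J0 hr) (fcol_lt' C _) (wn_foot hr ht hf)
  · rw [if_pos rfl]
    exact h.turned (J0 hr) (wo_foot hr ht hf)

lemma wn_c {r : P.FSt} (hr : C.Rim r) (ht : ¬ C.tr r) (hf : C.fa r) :
    wn k C.can C.la (pN.symm r) 0 ≠ Ln.z := by
  rw [C.rn r hr 0 (kpos C), if_neg ht, if_pos ⟨hf, rfl⟩]
  decide

lemma wn_c' {r : P.FSt} (hr : C.Rim r) (ht : ¬ C.tr r) (hf : C.fa r.stE) :
    wn k C.can C.la (pN.symm r) (k - 1) ≠ Ln.z := by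
  have hk := C.hk
  have hm := C.hm
  rw [C.rn r hr (k - 1) (by omega), if_neg ht, if_neg (by omega), if_pos ⟨hf, by omega⟩]
  decide

/-! ## State form -/

lemma vn_iff {ψ χ : P.FSt → ℕ → ℕ → Prop} (hR : ARel k C.canF C.PR C.LA ψ χ) {t : P.FSt}
    (h0 : C.rw t.facet = 0) {x : ℕ} (hx : x < k) (hw : wn k C.can C.la t x ≠ Ln.z) :
    C.vn (C.ψJ χ) t x ↔ χ t x k := by
  unfold wn at hw
  unfold vn ψJ
  by_cases h2 : C.can t.facet = t
  · rw [if_pos h2, h2]
  · rw [if_neg h2] at hw ⊢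
    by_cases h3 : C.can t.facet = t.r2
    · rw [h3, hR.rotH t (Or.inr (by rw [canF_J h0]; exact h3)) _ _ (by omega) (Nat.zero_le _),
        Nat.sub_zero, show k - 1 - (k - 1 - x) = x by omega]
    · rw [if_neg h3] at hw
      exact absurd rfl hw

lemma vo_iff {ψ χ : P.FSt → ℕ → ℕ → Prop} (hR : ARel k C.canF C.PR C.LA ψ χ) {t : P.FSt}
    (h0 : C.rw t.facet = 0) (hw : wo k C.can C.pr t C.m = true) :
    C.vo (C.ψJ ψ) t ↔ ψ t.rL k C.m := by
  have hk := C.hk
  unfold wo at hw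
  unfold vo ψJ
  by_cases h2 : C.can t.facet = t.rL
  · rw [if_pos h2, h2]
  · rw [if_neg h2] at hw ⊢
    by_cases h3 : C.can t.facet = t.rR
    · have h4 : t.rL.r2 = t.rR := FSt.rL_r2 t
      rw [h3, ← h4, hR.rotV t.rL (Or.inr (by
        rw [FSt.facet_rL, canF_J h0, h4]; exact h3)) 0 C.m (Nat.zero_le _) (by omega),
        Nat.sub_zero, show k - 1 - C.m = C.m by omega]
    · rw [if_neg h3] at hw
      exact absurd hw (by decide)

/-- the value of a foot in both forms -/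
lemma vf_vg {ψ χ : P.FSt → ℕ → ℕ → Prop} (hR : ARel k C.canF C.PR C.LA ψ χ) {r : P.FSt}
    (hr : C.Rim r) (ht : C.tr r) {z : Bool} (hf : C.Foot z r) :
    C.vf (C.ψJ ψ) (C.ψJ χ) z r ↔ C.vg ψ χ z r := by
  unfold vf vg
  cases z
  · rw [if_neg (by decide), if_neg (by decide)]
    exact vn_iff hR (J0 hr) (fcol_lt' C _) (wn_foot hr ht hf)
  · rw [if_pos rfl, if_pos rfl]
    exact vo_iff hR (J0 hr) (wo_foot hr ht hf)

/-- the values of the feet and of the core -/
theorem val_of {ψ χ : P.FSt → ℕ → ℕ → Prop} (hR : ARel k C.canF C.PR C.LA ψ χ) :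
    C.Val (C.ψJ ψ) (C.ψJ χ) where
  s1 := fun r hr ht hf a hs ha => by
    have hr' := Rim.far hr
    have ht' := (C.tr_far r hr).2 ht
    rw [vf_vg hR hr ht (Or.inl ⟨hf, rfl⟩),
      vf_vg hR (Rim.same hr' hs) ((tr_same hr' hs).2 ht') (Or.inl ⟨ha, rfl⟩)]
    exact core_1 hR hr ht hf hs ha
  s2 := fun r hr ht hf a hs ha => by
    have hr' := Rim.far hr
    have ht' := (C.tr_far r hr).2 ht
    rw [vf_vg hR hr ht (Or.inr ⟨hf, rfl⟩),
      vf_vg hR (Rim.same hr' hs) ((tr_same hr' hs).2 ht') (Or.inr ⟨ha, rfl⟩)]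
    exact core_2 hR hr ht hf hs ha
  c := fun r hr ht hf => by
    have hk := C.hk
    have ht' : ¬ C.tr r.stE := fun h => ht ((C.tr_E r hr).1 h)
    rw [vn_iff hR (J0 (Rim.stE hr)) (kpos C) (wn_c (Rim.stE hr) ht' hf),
      vn_iff hR (J0 hr) (by omega) (wn_c' hr ht hf)]
    exact core_c hR hr ht hf

/-- **The curve of a certificate is connected.** -/
theorem con (C : JX0 P k) (hT : C.Tree C.tr) (hC : C.Conn) : C.atab.Con := by
  intro ψ χ hR
  have hR : ARel k C.canF C.PR C.LA ψ χ := hR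
  have V := val_of hR
  have I := inv_of hR
  obtain ⟨Q, hQ⟩ := hC _ _ I (C.closed I V hT)
  have hband : ∀ r, C.Rim r → C.tr r → (Q (Rows.jf r) ↔ Q (Rows.jf (Rows.far r))) := by
    intro r hr ht
    have ha := aa_spec (C := C) hr (act_of hr ht)
    have hra := Rim.same hr ha.1
    have hta := (tr_same hr ha.1).2 ht
    have hrf := Rim.far hra
    have htf := (C.tr_far _ hra).2 hta
    have hb := aa_spec (C := C) hrf (act_of hrf htf)
    have h1 : Q (Rows.jf r) ↔ Q (Rows.jf (C.aa r)) :=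
      (Rows.QJ.jf C.toRows hQ.adj hr ha.1).symm
    have h2 : Q (Rows.jf (Rows.far (C.aa r))) ↔ Q (Rows.jf (C.aa (Rows.far (C.aa r)))) :=
      (Rows.QJ.jf C.toRows hQ.adj hrf hb.1).symm
    have h3 : Q (Rows.jf (Rows.far r)) ↔ Q (Rows.jf (Rows.far (C.aa r))) :=
      (Rows.QJ.jf C.toRows hQ.adj (Rim.far hr) (Rim.far_same hr ha.1)).symm
    have h4 := V.s1 (C.aa r) hra hta ha.2 _ hb.1 hb.2
    rw [hQ.foot hra hta (Or.inl ⟨ha.2, rfl⟩),
      hQ.foot (Rim.same hrf hb.1) ((tr_same hrf hb.1).2 htf) (Or.inl ⟨hb.2, rfl⟩)] at h4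
    rw [h1, h3, h2, h4]
  have hcon := hT.conn Q hQ.adj hband
  by_cases hex : ∃ f₀, C.rw f₀ = 0
  · obtain ⟨f₀, hf₀⟩ := hex
    -- the values of the feet
    have hfeet : ∀ ρ c, C.FV ψ χ ρ c → (c ↔ Q f₀) := by
      rintro ρ c ⟨h1, ⟨h2, ⟨h3, h4⟩ | ⟨h3, h4⟩⟩ | ⟨h2, h3, h4⟩⟩
      · rw [h4, ← vf_vg hR h1 h2 (Or.inl ⟨h3, rfl⟩), hQ.foot h1 h2 (Or.inl ⟨h3, rfl⟩)]
        exact hcon _ _ (J0 h1) hf₀
      · rw [h4, ← vf_vg hR h1 h2 (Or.inr ⟨h3, rfl⟩), hQ.foot h1 h2 (Or.inr ⟨h3, rfl⟩)]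
        exact hcon _ _ (J0 h1) hf₀
      · rw [h4, ← vn_iff hR (J0 h1) (kpos C) (wn_c h1 h2 h3),
          hQ.lane (J0 h1) (kpos C) (wn_c h1 h2 h3)]
        exact hcon _ _ (J0 h1) hf₀
    refine ⟨Q f₀, fun s hs x y hx hy hp => ?_, fun s hs x y hx hy hp => ?_⟩
    · have hs : Act C.canF s := hs
      have hp : C.PR s x y = true := hp
      by_cases h0 : C.rw s.facet = 0
      · rcases (act_J h0).1 hs with h1 | h1
        · have h2 := hQ.ver s.facet x y h0 hx hy (by rw [← PR_J h0 h1]; exact hp)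
          unfold ψJ at h2
          rw [h1] at h2
          rw [h2]
          exact hcon _ _ h0 hf₀
        · have h2 := hQ.ver s.facet (k - x) (k - 1 - y) h0 (by omega) (by omega)
            (by rw [← PR_J2 h0 h1]; exact hp)
          unfold ψJ at h2
          rw [h1, hR.rotV s hs _ _ (by omega) (by omega), show k - (k - x) = x by omega,
            show k - 1 - (k - 1 - y) = y by omega] at h2
          rw [h2]
          exact hcon _ _ h0 hf₀
      · obtain ⟨ρ, c, h3, h4⟩ := core_all hR h0 hs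
        exact (h4.1 x y hx hy hp).trans (hfeet ρ c h3)
    · have hs : Act C.canF s := hs
      have hp : C.LA s x y ≠ Ln.z := hp
      by_cases h0 : C.rw s.facet = 0
      · rcases (act_J h0).1 hs with h1 | h1
        · have h2 := hQ.hor s.facet x y h0 hx hy (by rw [← LA_J h0 h1]; exact hp)
          unfold ψJ at h2
          rw [h1] at h2
          rw [h2]
          exact hcon _ _ h0 hf₀
        · have h2 := hQ.hor s.facet (k - 1 - x) (k - y) h0 (by omega) (by omega)
            (by rw [← LA_J2 h0 h1]; exact hp)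
          unfold ψJ at h2
          rw [h1, hR.rotH s hs _ _ (by omega) (by omega), show k - (k - y) = y by omega,
            show k - 1 - (k - 1 - x) = x by omega] at h2
          rw [h2]
          exact hcon _ _ h0 hf₀
      · obtain ⟨ρ, c, h3, h4⟩ := core_all hR h0 hs
        exact (h4.2 x y hx hy hp).trans (hfeet ρ c h3)
  · -- all facets belong to the core: there is no facet
    have hno : ∀ s : P.FSt, False := by
      intro s
      by_cases h0 : C.rw s.facet = 0
      · exact hex ⟨_, h0⟩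
      · obtain ⟨r, hr, -, -⟩ := ex_up (C := C) h0
        exact hex ⟨_, J0 hr.lo_rho.rim⟩
    exact ⟨True, fun s => (hno s).elim, fun s => (hno s).elim⟩

end JX0

end Pool.Agent.MP42X
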