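import Pool.Agent.MP42.X.Cov
import Pool.Agent.MP42.X.ConJ
import Pool.Agent.MP42.H.Sup
import Pool.Agent.MP42.H.RowsR
import Pool.Agent.MP42.H.TreeEx
import Pool.Agent.MP42.H.Refine

/-!
# Junction certificates with leaning facets
-/

set_option autoImplicit false
set_option linter.unusedSectionVars false

namespace Pool.Agent.MP42X

open Pool.Agent.Helper55.UNF Pool.Agent.MP42G Pool.Agent.MP42H
open Pool.Agent.Helper55.UNF.GridSolid hiding len

variable {P : GridSolid}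

/-- Supports as in `H/Sup.lean`, with an abstract predicate `Ac` instead of the frames. -/
inductive SupA (k : ℕ) (Ac : P.FSt → Prop) (pr : P.FSt → ℕ → ℕ → Bool)
    (la : P.FSt → ℕ → ℕ → Ln) (L : P.Facet → Prop) (Pl : ℕ → P.FSt → ℕ → Prop)
    (K : Bool → P.FSt → Prop) (E : Bool) (n : ℕ) : P.FSt → ℕ → Prop
  | reg (g : P.FSt) (y0 : ℕ) (hy : y0 < k)
      (h1 : ∀ y : ℕ, y ≤ n → Ac ((pN ^ y) g) ∧ ¬ L ((pN ^ y) g).facet)
      (h2 : pr g (sln k E) y0 = true)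
      (h3 : ∀ j, y0 < j → j < k → pr g (sln k E) j = false)
      (h4 : ∀ y : ℕ, 0 < y → y ≤ n → ∀ j < k, pr ((pN ^ y) g) (sln k E) j = false)
      (h5 : ∀ y : ℕ, 0 < y → y ≤ n → K E ((pN ^ y) g)) :
      SupA k Ac pr la L Pl K E n g y0
  | lng (g : P.FSt) (y0 : ℕ) (hy : y0 < k) (h1 : Ac g)
      (h2 : Pl n g y0) (h3 : L ((pN ^ n) g).facet) (h4 : ∀ x ≤ k, pr g x y0 = true)
      (h5 : ∀ x < k, la g x y0 = Ln.z ∧ la g x (y0 + 1) = Ln.z)
      (h6 : ∀ y : ℕ, y ≤ n → nbr E ((pN ^ y) g) = (pN ^ y) (nbr E g))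
      (h7 : SupA k Ac pr la L Pl K E n (nbr E g) y0) : SupA k Ac pr la L Pl K E n g y0

lemma SupA.toSup {k : ℕ} {Ac : P.FSt → Prop} {can : P.Facet → P.FSt}
    {pr pr' : P.FSt → ℕ → ℕ → Bool} {la la' : P.FSt → ℕ → ℕ → Ln} {L : P.Facet → Prop}
    {Pl : ℕ → P.FSt → ℕ → Prop} {K : Bool → P.FSt → Prop} {E : Bool} {n : ℕ} {g : P.FSt} {y0 : ℕ}
    (h : ∀ s, Ac s → Act can s ∧ (∀ x y, pr' s x y = pr s x y) ∧ ∀ x y, la' s x y = la s x y)
    (H : SupA k Ac pr la L Pl K E n g y0) : Sup k can pr' la' L Pl K E n g y0 := by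
  induction H with
  | reg g y0 hy h1 h2 h3 h4 h5 =>
    have e0 := h g (h1 0 (Nat.zero_le _)).1
    refine Sup.reg g y0 hy (fun y hy => ⟨(h _ (h1 y hy).1).1, (h1 y hy).2⟩) ?_ ?_ ?_ h5
    · rw [e0.2.1]; exact h2
    · intro j hj hj'
      rw [e0.2.1]; exact h3 j hj hj'
    · intro y hy hy' j hj
      rw [(h _ (h1 y hy').1).2.1]
      exact h4 y hy hy' j hj
  | lng g y0 hy h1 h2 h3 h4 h5 h6 _ ih =>
    have e0 := h g h1
    refine Sup.lng g y0 hy e0.1 h2 h3 ?_ ?_ h6 ih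
    · intro x hx
      rw [e0.2.1]; exact h4 x hx
    · intro x hx
      rw [e0.2.2, e0.2.2]
      exact h5 x hx

open Classical in
/-- strands in the frame of a state -/
noncomputable def prS (k : ℕ) (can : P.Facet → P.FSt) (pr : P.Facet → ℕ → ℕ → Bool) (s : P.FSt)
    (x y : ℕ) : Bool :=
  if can s.facet = s then pr s.facet x y else pr s.facet (k - x) (k - 1 - y)

open Classical in
/-- lanes in the frame of a state -/
noncomputable def laS (k : ℕ) (can : P.Facet → P.FSt) (la : P.Facet → ℕ → ℕ → Ln) (s : P.FSt)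
    (x y : ℕ) : Ln :=
  if can s.facet = s then la s.facet x y else la s.facet (k - 1 - x) (k - y)

/-- A junction certificate with leaning facets. -/
structure JXL (P : GridSolid) (k : ℕ) extends JX0 P k where
  /-- leaning facets -/
  L : P.Facet → Prop
  /-- places of the leaning facets -/
  Pl : ℕ → P.FSt → ℕ → Prop
  /-- directions of the side columns -/
  K : Bool → P.FSt → Prop
  L_rw : ∀ f, L f → rw f = 0
  L_pr : ∀ f, L f → ∀ x y, x ≤ k → y < k → pr f x y = false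
  L_la : ∀ f, L f → ∀ x y, x < k → y ≤ k → la f x y = Ln.z
  uniq : ∀ n g y n' g' y', Pl n g y → Pl n' g' y' → L ((pN ^ n) g).facet →
    ((pN ^ n) g).facet = ((pN ^ n') g').facet → n = n' ∧ g = g' ∧ y = y'
  nc : ∀ E s, K E s → ¬ K (!E) s.r2
  sup : ∀ f, L f → ∃ (g : P.FSt) (y0 n : ℕ) (E : Bool), ((pN ^ n) g).facet = f ∧
    SupA k (fun s => rw s.facet = 0 ∧ Act can s) (prS k can pr) (laS k can la) L Pl K E n g y0
  /-- coverage of the regular facets -/
  cov : ∀ f, rw f = 0 → ¬ L f → ∀ x < k, ∀ w : Bool, ∃ z : ℤ,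
    (∀ y ∈ Set.uIcc 0 z, y ≠ z → ∃ g, rw g = 0 ∧ ¬ L g ∧ (pN ^ y) (can f) = can g) ∧
    ((∃ g, rw g = 0 ∧ (pN ^ z) (can f) = can g ∧ ∃ y < k, pr g (if w then x else x + 1) y = true) ∨
     (0 < z ∧ toRows.Rim ((pN ^ z) (can f)) ∧ Lit tr ng z1 z2 fa fb ((pN ^ z) (can f))) ∨
     (z < 0 ∧ toRows.Rim ((pN ^ z) (can f)).r2 ∧ Lit tr ng z1 z2 fa fb ((pN ^ z) (can f)).r2))
  /-- if there are leaning facets, then there is a lane -/
  lane : ∀ f, L f → ∃ g x y, rw g = 0 ∧ x < k ∧ y ≤ k ∧ la g x y ≠ Ln.z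

namespace JXL

variable {k : ℕ} (C : JXL P k)

lemma PR_S {s : P.FSt} (h : C.rw s.facet = 0) (x y : ℕ) :
    C.PR s x y = prS k C.can C.pr s x y := by
  unfold JX0.PR prS
  rw [if_pos h]

lemma LA_S {s : P.FSt} (h : C.rw s.facet = 0) (x y : ℕ) :
    C.LA s x y = laS k C.can C.la s x y := by
  unfold JX0.LA laS
  rw [if_pos h]

/-- blocked edges -/
def BL (s : P.FSt) : Prop := C.L s.facet ∨ C.L s.stN.facet

lemma LA_L {s : P.FSt} (h : C.L s.facet) {x y : ℕ} (hx : x < k) (hy : y ≤ k) :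
    C.LA s x y = Ln.z := by
  rw [C.LA_S (C.L_rw _ h)]
  unfold laS
  split_ifs
  · exact C.L_la _ h _ _ hx hy
  · exact C.L_la _ h _ _ (by omega) (by omega)

lemma PR_L {s : P.FSt} (h : C.L s.facet) {x y : ℕ} (hx : x ≤ k) (hy : y < k) :
    C.PR s x y = false := by
  rw [C.PR_S (C.L_rw _ h)]
  unfold prS
  split_ifs
  · exact C.L_pr _ h _ _ hx hy
  · exact C.L_pr _ h _ _ (by omega) (by omega)

lemma NV_L {s : P.FSt} (h : C.L s.facet) {x : ℕ} (hx : x < k) : C.NV s x = Ln.z := by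
  unfold JX0.NV
  split_ifs
  · exact C.LA_L h hx le_rfl
  · rfl

instance blk : C.toJX0.Blk C.BL where
  rot := fun s => by
    unfold BL
    rw [FSt.facet_r2, FSt.stN_inv, FSt.facet_r2]
    exact or_comm
  core := fun s h h' hb => by
    rcases hb with hb | hb
    · exact h (C.L_rw _ hb)
    · exact h' (C.L_rw _ hb)
  lane := fun s x hx h hb => by
    rcases hb with hb | hb
    · exact h (C.NV_L hb hx)
    · apply h
      rw [C.toJX0.allN s x hx]
      exact C.NV_L (by rw [FSt.facet_r2]; exact hb) (by omega)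

lemma chL {s t : P.FSt} (hL : ¬ C.L s.facet) (h : ChB C.canF C.BL s t) :
    ChL C.canF C.L s t := by
  obtain ⟨z, h1, h2, h3⟩ := h
  refine ⟨z, fun y hy => ⟨h1 y hy, ?_⟩, h3⟩
  by_cases hy0 : y = 0
  · rw [hy0]; exact hL
  rw [Set.mem_uIcc] at hy
  rcases lt_or_gt_of_ne hy0 with h4 | h4
  · intro h5
    exact h2 y (by omega) (by omega) (Or.inl h5)
  · intro h5
    apply h2 (y - 1) (by omega) (by omega)
    right
    have e : ((pN ^ (y - 1)) s).stN = (pN ^ y) s := by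
      show pN ((pN ^ (y - 1)) s) = _
      rw [← Equiv.Perm.mul_apply, ← zpow_one_add]
      congr 2
      omega
    rw [e]
    exact h5

lemma covAt {f : P.Facet} (h : C.rw f = 0) (hL : ¬ C.L f) : C.toJX0.CovAt C.BL f := by
  intro x hx w
  obtain ⟨z, h1, h2⟩ := C.cov f h hL x hx w
  have key : ∀ y ∈ Set.uIcc 0 z, y ≠ z → ¬ C.L ((pN ^ y) (C.can f)).facet := by
    intro y hy hyz
    obtain ⟨g, -, hg, h3⟩ := h1 y hy hyz
    rw [h3, C.can_facet]
    exact hg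
  have kz : ¬ C.L ((pN ^ z) (C.can f)).facet := by
    rcases h2 with ⟨g, hg, h3, y, hy, h4⟩ | ⟨-, h3, -⟩ | ⟨-, h3, -⟩
    · intro h5
      rw [h3, C.can_facet] at h5
      rw [C.L_pr g h5 _ _ (by split_ifs <;> omega) hy] at h4
      exact absurd h4 (by decide)
    · intro h5
      exact Rows.Rim.ne0 C.toRows h3 (C.L_rw _ h5)
    · intro h5
      rw [← FSt.facet_r2] at h5
      exact Rows.Rim.ne0 C.toRows h3 (C.L_rw _ h5)
  have kall : ∀ y ∈ Set.uIcc 0 z, ¬ C.L ((pN ^ y) (C.can f)).facet := by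
    intro y hy
    by_cases hyz : y = z
    · rw [hyz]; exact kz
    · exact key y hy hyz
  refine ⟨z, ?_, ?_, h2⟩
  · intro y hy hyz
    obtain ⟨g, h3, -, h4⟩ := h1 y hy hyz
    exact ⟨g, h3, h4⟩
  · rintro y h3 h4 (h5 | h5)
    · exact kall y (by rw [Set.mem_uIcc]; omega) h5
    · apply kall (y + 1) (by rw [Set.mem_uIcc]; omega)
      have e : (pN ^ (y + 1)) (C.can f) = ((pN ^ y) (C.can f)).stN := by
        rw [add_comm, zpow_one_add, Equiv.Perm.mul_apply]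
        rfl
      rw [e]
      exact h5

/-- coverage of the regular facets -/
theorem covL : C.atab.CovL C.L := by
  intro s hs hL x hx w
  obtain ⟨t, h1, h2⟩ := C.toJX0.covB (B := C.BL) hs (fun h => C.covAt h hL) x hx w
  exact ⟨t, C.chL hL h1, h2⟩

/-- the leaning facets of the table -/
theorem lng : C.atab.Lng C.L C.Pl C.K where
  no_pr := fun _ _ hL _ _ hx hy => C.PR_L hL hx hy
  no_la := fun _ _ hL _ _ hx hy => C.LA_L hL hx hy
  uniq := C.uniq
  nc := C.nc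
  sup := fun f hf => by
    obtain ⟨g, y0, n, E, h1, h2⟩ := C.sup f hf
    refine ⟨g, y0, n, E, h1, h2.toSup ?_⟩
    rintro s ⟨h3, h4⟩
    exact ⟨(JX0.act_J h3).2 h4, fun x y => C.PR_S h3 x y, fun x y => C.LA_S h3 x y⟩

/-- there is a lane -/
theorem ex_lane {f : P.Facet} (hf : C.L f) : ∃ s x y, Act C.atab.can s ∧ x < k ∧ y ≤ k ∧
    C.atab.la s x y ≠ Ln.z := by
  obtain ⟨g, x, y, h1, h2, h3, h4⟩ := C.lane f hf
  have h5 : C.rw (C.can g).facet = 0 := by rw [C.can_facet]; exact h1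
  refine ⟨C.can g, x, y, (JX0.act_J h5).2 (Or.inl (by rw [C.can_facet])), h2, h3, ?_⟩
  show C.LA (C.can g) x y ≠ Ln.z
  rw [JX0.LA_J h5 (by rw [C.can_facet]), C.can_facet]
  exact h4

end JXL

end Pool.Agent.MP42X
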