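import Pool.Agent.MP42.X.Cov3

/-!
# Coverage: rims and all lines
-/

set_option autoImplicit false
set_option linter.unusedSectionVars false

namespace Pool.Agent.MP42X

open Pool.Agent.Helper55.UNF Pool.Agent.MP42G Pool.Agent.MP42H
open Pool.Agent.Helper55.UNF.GridSolid hiding len

variable {P : GridSolid}

namespace JX0

variable {k : ℕ} {C : JX0 P k} {r s t : P.FSt} {x : ℕ} {w : Bool}
variable {B : P.FSt → Prop} [hB : C.Blk B]

/-! ## Lit facets of the rims -/

lemma dst_far {R : Rows P} {r s : P.FSt} (b : Bool) (h : Lo R r) (hs : pE.SameCycle r s) :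
    dst (dir b) (Rows.far s) (Rows.far r) = dst (dir b) r s := by
  have hs' := h.same hs
  have hs2 : (dir b).SameCycle r s := sc_dir.2 hs
  apply dst_eq
  · rw [len_dir, hs'.len_far, ← len_same hs]
    have := dst_lt hs2
    rwa [len_dir] at this
  · rw [lo_dir_pow_far hs']
    congr 1
    have := pow_cancel' (dir b) (dst (dir b) r s) r
    rwa [dst_spec hs2] at this

lemma lit_row1 (h : Lo C.toRows r) (ht : C.tr r) (hz : C.z2 r = true)
    (hl : Lit C.tr C.ng C.z1 C.z2 C.fa C.fb r) : C.nn r < C.tt r := by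
  obtain ⟨h1, h2⟩ := (hl ht).2 hz
  obtain ⟨b1, b2, b3, b4, b5, b6, b7⟩ := bounds h ht
  have hb := bb_spec (C := C) h.rim ht
  have hac := act_of h.rim ht
  have ha := aa_spec (C := C) h.rim hac
  have hL : len (dir (C.ng r)) (C.bb r) = len pE r := by
    rw [len_dir]; exact (len_same hb.1).symm
  have sa : (dir (C.ng r)).SameCycle r (C.aa r) := sc_dir.2 ha.1
  have sb : (dir (C.ng r)).SameCycle r (C.bb r) := sc_dir.2 hb.1
  have e1 : srch (dir (C.ng r)).symm C.fa r = dst (dir (C.ng r)) (C.aa r) r :=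
    srch_bwd sa ha.2 (fun z hz hf => aa_uniq h.rim hac (sc_dir.1 hz) hf)
  have e2 : srch (dir (C.ng r)).symm C.fb r = dst (dir (C.ng r)) (C.bb r) r :=
    srch_bwd sb hb.2 (fun z hz hf => bb_uniq h.rim ht (sc_dir.1 hz) hf)
  have e3 : srch (dir (C.ng r)) C.fb r = dst (dir (C.ng r)) r (C.bb r) :=
    srch_fwd sb hb.2 (fun z hz hf => bb_uniq h.rim ht (sc_dir.1 hz) hf)
  have e4 := dst_cd sb.symm (sb.symm.trans sa)
  have e5 := dst_cd (Equiv.Perm.SameCycle.refl (dir (C.ng r)) (C.bb r)) sb.symm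
  rw [dst_self, hL] at e5
  rw [hL] at e4
  rw [e1, e2, e4] at h1
  rw [e3, e5] at h2
  have e6 : dst (dir (C.ng r)) (C.bb r) r = C.pp r := rfl
  have e7 : dst (dir (C.ng r)) (C.bb r) (C.aa r) = C.al r := rfl
  rw [e6, e7] at h1
  rw [e6] at h2
  have e8 : C.nn r = cd (len pE r) (C.pp r) (C.al r) := by
    unfold nn; rw [h.rho, if_pos h.2]
  have e9 : C.tt r = C.ep r - C.al r := by
    unfold tt; rw [h.rho, if_pos h.2]
  have e10 := ep_eq h ht
  rw [e8, e9]
  unfold cd at *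
  split_ifs at * <;> omega

lemma lit5 {R : P.FSt} (hlo : Lo C.toRows R) (ht : C.tr R) (hz : C.z2 R = true)
    (hl : Lit C.tr C.ng C.z1 C.z2 C.fa C.fb (Rows.far R)) :
    cd (len pE R) (C.pp R) (C.ta R) ≤ cd (len pE R) (C.al' R) (C.ta R) := by
  have hr := hlo.far_rim
  have htr := far_tr hlo ht
  have hzr : C.z2 (Rows.far R) = true := by rw [C.z2_far _ hlo.rim]; exact hz
  have hn : C.ng (Rows.far R) = C.ng R := C.ng_far _ hlo.rim
  obtain ⟨h1, h2⟩ := (hl htr).2 hzr
  rw [hn] at h1 h2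
  obtain ⟨b1, b2, b3, b4, b5, b6, b7⟩ := bounds hlo ht
  have hac := act_of hr htr
  have hb := bb_spec (C := C) hr htr
  have ha := aa_spec (C := C) hr hac
  have sa : (dir (C.ng R)).SameCycle (Rows.far R) (C.aa (Rows.far R)) := sc_dir.2 ha.1
  have sb : (dir (C.ng R)).SameCycle (Rows.far R) (C.bb (Rows.far R)) := sc_dir.2 hb.1
  have e1 : srch (dir (C.ng R)).symm C.fa (Rows.far R) =
      dst (dir (C.ng R)) (C.aa (Rows.far R)) (Rows.far R) :=
    srch_bwd sa ha.2 (fun z hz hf => aa_uniq hr hac (sc_dir.1 hz) hf)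
  have e2 : srch (dir (C.ng R)).symm C.fb (Rows.far R) =
      dst (dir (C.ng R)) (C.bb (Rows.far R)) (Rows.far R) :=
    srch_bwd sb hb.2 (fun z hz hf => bb_uniq hr htr (sc_dir.1 hz) hf)
  have e3 : srch (dir (C.ng R)) C.fb (Rows.far R) =
      dst (dir (C.ng R)) (Rows.far R) (C.bb (Rows.far R)) :=
    srch_fwd sb hb.2 (fun z hz hf => bb_uniq hr htr (sc_dir.1 hz) hf)
  have hX : Rows.far (Rows.far (C.aa (Rows.far R))) = C.aa (Rows.far R) :=
    Rim.far_far (Rim.same hr ha.1)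
  have hY : Rows.far (Rows.far (C.bb (Rows.far R))) = C.bb (Rows.far R) :=
    Rim.far_far (Rim.same hr hb.1)
  have sX : pE.SameCycle R (Rows.far (C.aa (Rows.far R))) := by
    have := Rim.far_same hr ha.1
    rwa [hlo.far_far] at this
  have sY : pE.SameCycle R (Rows.far (C.bb (Rows.far R))) := by
    have := Rim.far_same hr hb.1
    rwa [hlo.far_far] at this
  have d1 : dst (dir (C.ng R)) (C.aa (Rows.far R)) (Rows.far R) =
      dst (dir (C.ng R)) R (Rows.far (C.aa (Rows.far R))) := by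
    have := dst_far (C.ng R) hlo sX
    rwa [hX] at this
  have d2 : dst (dir (C.ng R)) (C.bb (Rows.far R)) (Rows.far R) =
      dst (dir (C.ng R)) R (Rows.far (C.bb (Rows.far R))) := by
    have := dst_far (C.ng R) hlo sY
    rwa [hY] at this
  have d3 : dst (dir (C.ng R)) (Rows.far R) (C.bb (Rows.far R)) =
      dst (dir (C.ng R)) (Rows.far (C.bb (Rows.far R))) R := by
    have := dst_far (C.ng R) (hlo.same sY) sY.symm
    rwa [hY] at this
  have hbR := bb_spec (C := C) hlo.rim ht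
  have hL : len (dir (C.ng R)) (C.bb R) = len pE R := by
    rw [len_dir]; exact (len_same hbR.1).symm
  have s1 : (dir (C.ng R)).SameCycle (C.bb R) R := sc_dir.2 hbR.1.symm
  have s2 : (dir (C.ng R)).SameCycle (C.bb R) (Rows.far (C.aa (Rows.far R))) :=
    sc_dir.2 (hbR.1.symm.trans sX)
  have s3 : (dir (C.ng R)).SameCycle (C.bb R) (Rows.far (C.bb (Rows.far R))) :=
    sc_dir.2 (hbR.1.symm.trans sY)
  have c1 := dst_cd s2 s1
  have c2 := dst_cd s3 s1
  have c3 := dst_cd s1 s3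
  have hy : dst (dir (C.ng R)) (C.bb R) (Rows.far (C.bb (Rows.far R))) < len pE R := by
    rw [← hL]; exact dst_lt s3
  have e8 : C.ta R =
      if dst (dir (C.ng R)) (C.bb R) (Rows.far (C.bb (Rows.far R))) + 1 = len pE R then 0
      else dst (dir (C.ng R)) (C.bb R) (Rows.far (C.bb (Rows.far R))) + 1 := by
    unfold ta
    rw [dst_step s3, hL]
  have e6 : dst (dir (C.ng R)) (C.bb R) R = C.pp R := rfl
  have e7 : dst (dir (C.ng R)) (C.bb R) (Rows.far (C.aa (Rows.far R))) = C.al' R := rfl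
  rw [hL, e6, e7] at c1
  rw [hL, e6] at c2 c3
  rw [e1, e2, d1, d2, c1, c2] at h1
  rw [e3, d3, c3] at h2
  clear c1 c2 c3 d1 d2 d3 e1 e2 e3
  generalize dst (dir (C.ng R)) (C.bb R) (Rows.far (C.bb (Rows.far R))) = y at *
  generalize C.ta R = t at *
  generalize C.al' R = a' at *
  generalize C.pp R = p at *
  generalize len pE R = L at *
  clear hX hY sX sY hbR hL ha hb hac htr hr hl e6 e7 s1 s2 s3 sa sb hzr hn
  unfold cd at *
  split_ifs at * <;> omega

lemma lit_row5 (h : CU C.toRows r) (h5 : C.rw r.facet = 5) (ht : C.tr (rho C.toRows r))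
    (hz : C.z2 (rho C.toRows r) = true) (hl : Lit C.tr C.ng C.z1 C.z2 C.fa C.fb r.r2) :
    C.nn r ≤ C.tt r := by
  have h1 := lit5 h.lo_rho ht hz (by rw [far_rho5 h h5]; exact hl)
  unfold nn tt
  rw [if_neg (by omega), if_neg (by omega), if_neg (by omega), if_neg (by omega), if_pos h5]
  exact h1

/-- lit facets have north up or down -/
lemma YY_of_lit (h : CU C.toRows r) (ht : C.tr (rho C.toRows r))
    (hz1 : C.z1 (rho C.toRows r) = false)
    (h2 : C.z2 (rho C.toRows r) = true → C.nn r ≤ C.tt r) : C.YY r := by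
  rw [YY_iff h ht]
  cases hz : C.z2 (rho C.toRows r)
  · split_ifs
    · exact hz1
    · rfl
  · rw [if_pos (h2 hz)]
    exact hz1

/-- lit facets of the rims -/
lemma covLit {ρ : P.FSt} (h : C.Rim ρ) (hl : Lit C.tr C.ng C.z1 C.z2 C.fa C.fb ρ) :
    Act C.canF ρ ∧ ∀ x < k, ∀ w, C.atab.RchB B ρ x w := by
  rcases rim_core h with h1 | ⟨r, hr, h5, rfl⟩
  · have e := h1.rho
    by_cases ht : C.tr ρ
    · have hY : C.YY ρ := YY_of_lit h1.CU (by rw [e]; exact ht) (by rw [e]; exact (hl ht).1)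
        (fun hz => (lit_row1 h1 ht (by rw [e] at hz; exact hz) hl).le)
      exact ⟨(act_r h1.CU).2 hY, covY h1.CU (by rw [e]; exact ht) hY⟩
    · exact ⟨act_C h1.CU (by rw [e]; exact ht), covC h1.CU (by rw [e]; exact ht)⟩
  · rw [act_r2_iff']
    by_cases ht : C.tr (rho C.toRows r)
    · have hz1 : C.z1 (rho C.toRows r) = false := by
        have := (hl ((tr5 hr h5).2 ht)).1
        rwa [← far_rho5 hr h5, C.z1_far _ hr.lo_rho.rim] at this
      have hY : C.YY r := YY_of_lit hr ht hz1 (fun hz => lit_row5 hr h5 ht hz hl)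
      refine ⟨(act_r hr).2 hY, Rch_all_rot ?_⟩
      rw [FSt.r2_r2]
      exact covY hr ht hY
    · refine ⟨act_C hr ht, Rch_all_rot ?_⟩
      rw [FSt.r2_r2]
      exact covC hr ht

/-! ## All lines -/

/-- the lines of the facet `f` are covered, the edges with `B` are not crossed -/
def CovAt (C : JX0 P k) (B : P.FSt → Prop) (f : P.Facet) : Prop :=
  ∀ x < k, ∀ w : Bool, ∃ z : ℤ,
    (∀ y ∈ Set.uIcc 0 z, y ≠ z → ∃ g, C.rw g = 0 ∧ (pN ^ y) (C.can f) = C.can g) ∧
    (∀ y : ℤ, min 0 z ≤ y → y < max 0 z → ¬ B ((pN ^ y) (C.can f))) ∧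
    ((∃ g, C.rw g = 0 ∧ (pN ^ z) (C.can f) = C.can g ∧
        ∃ y < k, C.pr g (if w then x else x + 1) y = true) ∨
     (0 < z ∧ C.Rim ((pN ^ z) (C.can f)) ∧
        Lit C.tr C.ng C.z1 C.z2 C.fa C.fb ((pN ^ z) (C.can f))) ∨
     (z < 0 ∧ C.Rim ((pN ^ z) (C.can f)).r2 ∧
        Lit C.tr C.ng C.z1 C.z2 C.fa C.fb ((pN ^ z) (C.can f)).r2))

lemma covJ {f : P.Facet} (_h : C.rw f = 0) (hc : C.CovAt B f) {x : ℕ} (hx : x < k) (w : Bool) :
    C.atab.RchB B (C.can f) x w := by
  have hJ : ∀ g, C.rw g = 0 → Act C.canF (C.can g) := by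
    intro g hg
    exact Or.inl (by rw [C.can_facet, canF_J hg])
  obtain ⟨z, h1, hb, h2⟩ := hc x hx w
  have key : Act C.canF ((pN ^ z) (C.can f)) → ChB C.canF B (C.can f) ((pN ^ z) (C.can f)) := by
    intro h3
    refine ⟨z, fun y hy => ?_, hb, rfl⟩
    by_cases hyz : y = z
    · rw [hyz]; exact h3
    · obtain ⟨g, hg, h4⟩ := h1 y hy hyz
      rw [h4]
      exact hJ g hg
  rcases h2 with ⟨g, hg, h3, y, hy, h4⟩ | ⟨-, h3, h4⟩ | ⟨-, h3, h4⟩
  · have h5 := key (by rw [h3]; exact hJ g hg)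
    rw [h3] at h5
    refine Rch_cat h5 (Rch_port (hJ g hg) hy ?_)
    rw [PR_J (by rw [C.can_facet]; exact hg) (by rw [C.can_facet]), C.can_facet]
    exact h4
  · obtain ⟨h5, h6⟩ := covLit (B := B) h3 h4
    exact Rch_cat (key h5) (h6 x hx w)
  · obtain ⟨h5, h6⟩ := covLit (B := B) h3 h4
    exact Rch_cat (key ((act_r2_iff' _ _).1 h5)) (Rch_all_rot h6 x hx w)

/-- **Coverage.** -/
theorem covB (C : JX0 P k) [hB : C.Blk B] (hs : Act C.canF s)
    (hJ : C.rw s.facet = 0 → C.CovAt B s.facet) : ∀ x < k, ∀ w, C.atab.RchB B s x w := by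
  intro x hx w
  have hs' : Act C.canF s := hs
  by_cases h0 : C.rw s.facet = 0
  · rcases (act_J h0).1 hs' with h1 | h1
    · have := covJ h0 (hJ h0) hx w
      rwa [h1] at this
    · have := covJ h0 (hJ h0) (x := k - 1 - x) (by omega) (!w)
      rw [h1] at this
      exact Rch_rot' hx this
  · obtain ⟨r, hr, -, h2⟩ := ex_up (C := C) h0
    have hY : C.YY r → ∀ x < k, ∀ w, C.atab.RchB B r x w := by
      intro h3
      by_cases ht : C.tr (rho C.toRows r)
      · exact covY hr ht h3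
      · exact covC hr ht
    have hX : ¬ C.YY r → ∀ x < k, ∀ w, C.atab.RchB B r.rL x w := by
      intro h3
      have ht : C.tr (rho C.toRows r) := by
        by_contra h4
        exact h3 (fun h5 => absurd h5 h4)
      have hz : C.z2 (rho C.toRows r) = true := by
        by_contra h4
        rw [Bool.not_eq_true] at h4
        apply h3
        rw [YY_iff hr ht]
        split_ifs
        · exact z1_of_z2 hr.lo_rho.rim h4
        · exact h4
      exact covX hr ht hz ((notYY_iff hr ht hz).1 h3)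
    rcases h2 with h2 | h2 | h2 | h2
    · subst h2
      exact hY ((act_r hr).1 hs') x hx w
    · subst h2
      exact Rch_all_rot (by rw [FSt.r2_r2]; exact hY ((act_r2 hr).1 hs')) x hx w
    · subst h2
      exact hX ((act_rL hr).1 hs') x hx w
    · subst h2
      exact Rch_all_rot (by rw [FSt.rR_r2]; exact hX ((act_rR hr).1 hs')) x hx w

end JX0

/-- **Coverage.** -/
theorem JX.cov' {k : ℕ} (C : JX P k) : C.atab.Cov := by
  intro s hs x hx w
  refine (C.toJX0.covB (B := fun _ => False) hs (fun h => ?_) x hx w).rch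
  intro x hx w
  obtain ⟨z, h1, h2⟩ := C.cov s.facet h x hx w
  exact ⟨z, h1, fun _ _ _ h => h, h2⟩

end Pool.Agent.MP42X
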