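import Pool.Agent.MP42.X.ConJ
import Pool.Agent.MP42.X.Cov
import Pool.Agent.MP42.H.RowsR
import Pool.Agent.MP42.H.TreeEx
import Pool.Agent.MP42.H.Refine

/-!
# The reduction theorem with arbitrary label pairs
-/

set_option autoImplicit false
set_option linter.unusedSectionVars false

namespace Pool.Agent.MP42X

open Pool.Agent.Helper55.UNF Pool.Agent.Helper55.UNF.GridSolid Pool.Agent.MP42G
open Pool.Agent.MP42H

variable {P : GridSolid}

/-- **The reduction theorem for the label pairs `(+,+)`, `(+,0)`, `(0,0)`, `(-,-)`, `(-,0)` and cut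
bands**, in any combination. -/
theorem JX.hasEdgeUnfolding {k : ℕ} (C : JX P k) (hne : Nonempty P.Facet) (hT : C.Tree C.tr)
    (hC : C.Conn) (h5 : 0 < 5 * k) : (P.refine (5 * k) h5).HasEdgeUnfolding :=
  C.atab.hasEdgeUnfolding hne C.cov' (C.con hT hC) h5

/-- A junction certificate of `P.refine r` gives an edge unfolding of `P.refine (r * (5 * k))`. -/
theorem unfolding_of_cert {P : GridSolid} (hP : P.IsOrthogonalPolyhedron) {r k : ℕ} (hr : 0 < r)
    (C : JX (P.refine r hr) k) (hT : C.Tree C.tr) (hC : C.Conn)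
    (hK : 0 < r * (5 * k)) : (P.refine (r * (5 * k)) hK).HasEdgeUnfolding := by
  have hk : 0 < 5 * k := by have := C.kpos; omega
  have h1 := C.hasEdgeUnfolding (connected_refine hP hr).nonempty hT hC hk
  rw [refine_refine] at h1
  exact h1

end Pool.Agent.MP42X
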