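import Pool.Agent.MP42.H.Num

/-!
# Reduction theorem with arbitrary label pairs and cut bands: definitions

As in `H/Defs.lean` a band has five rows of core facets (`rw = 1, .., 5`), the theorem fills them,
and a junction certificate `JX0 P k` gives the tables on the facets that are not core.

The curve crosses a *tree* band with two strands, 1 and 2.  The label of a strand is `+` (lane `n`
in column `0` in the frame of the rim state, north into the band), `-` (lane `s` in the last
column), or `0` (strand with east pointing north or south, i.e. a frame turned by a right angle,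
over the middle).  `ng r`: the labels of the band that are not `0` are `-`; `z1 r`, `z2 r`: the
label of strand 1, 2 is `0`.  So the types are `(+,+)`, `(+,0)`, `(0,0)`, `(-,-)`, `(-,0)` (strand
1 is the one with the label that is not `0`).  A band with labels `(+,-)` is not made a core band:
its facets are facets with `rw = 0`.

`fa` is the facet of the foot of strand 1 and `fb` is the facet of the foot of strand 2.  The runs
go to the east (`pE`), or to the west (`pE.symm`) if `ng`; from `a` to `b` there are at least three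
steps.

Light: `(+,+)`, `(-,-)`: all facets of the rim are lit; `(+,0)`, `(-,0)`: the facets from `a` to
`b - 3` in the direction of the runs; `(0,0)`: no facet; rims of cut bands: all facets.
-/

set_option autoImplicit false
set_option linter.unusedSectionVars false

namespace Pool.Agent.MP42X

open Pool.Agent.Helper55.UNF Pool.Agent.Helper55.UNF.GridSolid Pool.Agent.MP42G
open Pool.Agent.MP42H

variable {P : GridSolid}

/-- the direction of the runs -/
noncomputable def dir (b : Bool) : Equiv.Perm P.FSt := if b then pE.symm else pE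

/-- lit facets of the rims -/
def Lit (tr : P.FSt → Prop) (ng z1 z2 : P.FSt → Bool) (fa fb : P.FSt → Prop) (r : P.FSt) : Prop :=
  tr r → z1 r = false ∧ (z2 r = true →
    srch (dir (ng r)).symm fa r < srch (dir (ng r)).symm fb r ∧ 3 ≤ srch (dir (ng r)) fb r)

/-- column of a foot with label `+` or `-` -/
def fcol (k : ℕ) (b : Bool) : ℕ := if b then k - 1 else 0

/-- letter of a foot with label `+` or `-` -/
def flet (b : Bool) : Ln := if b then Ln.s else Ln.n

open Classical in
/-- A junction certificate without coverage. -/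
structure JX0 (P : GridSolid) (k : ℕ) extends Rows P where
  m : ℕ
  hm : 1 ≤ m
  hk : k = 2 * m + 1
  can : P.Facet → P.FSt
  can_facet : ∀ f, (can f).facet = f
  /-- strands over vertical unit edges (only the facets that are not core matter) -/
  pr : P.Facet → ℕ → ℕ → Bool
  /-- lanes over horizontal unit edges (only the facets that are not core matter) -/
  la : P.Facet → ℕ → ℕ → Ln
  ok : ∀ f, rw f = 0 → CellOk k (pr f) (la f)
  gN : ∀ f g, rw f = 0 → rw g = 0 → (can f).stN = can g → ∀ x < k, la f x k = la g x 0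
  gN' : ∀ f, rw f = 0 → rw (can f).stN.facet = 0 → (∀ g, (can f).stN ≠ can g) →
    ∀ x < k, la f x k = Ln.z
  gS' : ∀ g, rw g = 0 → rw (can g).r2.stN.facet = 0 → (∀ f, (can f).stN ≠ can g) →
    ∀ x < k, la g x 0 = Ln.z
  gE : ∀ f g, rw f = 0 → rw g = 0 → (can f).stE = can g → ∀ y < k, pr f k y = pr g 0 y
  gEr : ∀ f g, rw f = 0 → rw g = 0 → (can f).stE = (can g).r2 → ∀ y < k,
    pr f k y = pr g k (k - 1 - y)
  gWr : ∀ f g, rw f = 0 → rw g = 0 → (can f).r2.stE = can g → ∀ y < k,
    pr f 0 y = pr g 0 (k - 1 - y)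
  gE' : ∀ f, rw f = 0 → rw (can f).stE.facet = 0 →
    (∀ g, (can f).stE ≠ can g ∧ (can f).stE ≠ (can g).r2) → ∀ y < k, pr f k y = false
  gW' : ∀ f, rw f = 0 → rw (can f).r2.stE.facet = 0 →
    (∀ g, (can f).r2.stE ≠ can g ∧ (can f).r2.stE ≠ (can g).r2) → ∀ y < k, pr f 0 y = false
  /-- the tree bands -/
  tr : P.FSt → Prop
  tr_E : ∀ r, toRows.Rim r → (tr r.stE ↔ tr r)
  tr_far : ∀ r, toRows.Rim r → (tr (Rows.far r) ↔ tr r)
  /-- the rims that are met by the curve -/
  ac : P.FSt → Prop
  ac_E : ∀ r, toRows.Rim r → (ac r.stE ↔ ac r)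
  ac_tr : ∀ r, toRows.Rim r → tr r → ac r
  ac_far : ∀ r, toRows.Rim r → ac r ∨ ac (Rows.far r)
  /-- the labels of the band that are not `0` are negative -/
  ng : P.FSt → Bool
  ng_E : ∀ r, toRows.Rim r → ng r.stE = ng r
  ng_far : ∀ r, toRows.Rim r → ng (Rows.far r) = ng r
  /-- the label of strand 1 is `0` -/
  z1 : P.FSt → Bool
  z1_E : ∀ r, toRows.Rim r → z1 r.stE = z1 r
  z1_far : ∀ r, toRows.Rim r → z1 (Rows.far r) = z1 r
  /-- the label of strand 2 is `0` -/
  z2 : P.FSt → Bool
  z2_E : ∀ r, toRows.Rim r → z2 r.stE = z2 r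
  z2_far : ∀ r, toRows.Rim r → z2 (Rows.far r) = z2 r
  z12 : ∀ r, toRows.Rim r → z1 r = true → z2 r = true
  /-- the facet of the foot of strand 1 -/
  fa : P.FSt → Prop
  /-- the facet of the foot of strand 2 -/
  fb : P.FSt → Prop
  fa_ac : ∀ r, toRows.Rim r → fa r → ac r
  fa_ex : ∀ r, toRows.Rim r → ac r → ∃! a, pE.SameCycle r a ∧ fa a
  fb_ex : ∀ r, toRows.Rim r → tr r → ∃! b, pE.SameCycle r b ∧ fb b
  arc : ∀ r, toRows.Rim r → tr r → fa r → ∀ n ≤ 2, ¬ fb ((dir (ng r) ^ n) r)
  rn : ∀ r, toRows.Rim r → ∀ x < k, wn k can la (pN.symm r) x =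
    if tr r then
      (if ((fa r ∧ z1 r = false) ∨ (fb r ∧ z2 r = false)) ∧ x = fcol k (ng r) then flet (ng r)
      else Ln.z)
    else (if fa r ∧ x = 0 then Ln.n else if fa r.stE ∧ x + 1 = k then Ln.s else Ln.z)
  ro : ∀ r, toRows.Rim r → ∀ y < k, wo k can pr (pN.symm r) y =
    decide (tr r ∧ ((fa r ∧ z1 r = true) ∨ (fb r ∧ z2 r = true)) ∧ y = m)

namespace JX0

variable {k : ℕ} (C : JX0 P k)

/-- the predicates are invariant in the junctions -/
structure Inv (ψ χ : P.Facet → ℕ → ℕ → Prop) : Prop where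
  cell : ∀ f, C.rw f = 0 → CellRel k (C.pr f) (C.la f) (ψ f) (χ f)
  gN : ∀ f g, C.rw f = 0 → C.rw g = 0 → (C.can f).stN = C.can g → ∀ x < k, C.la f x k ≠ Ln.z →
    (χ f x k ↔ χ g x 0)
  gE : ∀ f g, C.rw f = 0 → C.rw g = 0 → (C.can f).stE = C.can g → ∀ y < k, C.pr f k y = true →
    (ψ f k y ↔ ψ g 0 y)
  gEr : ∀ f g, C.rw f = 0 → C.rw g = 0 → (C.can f).stE = (C.can g).r2 → ∀ y < k,
    C.pr f k y = true → (ψ f k y ↔ ψ g k (k - 1 - y))
  gWr : ∀ f g, C.rw f = 0 → C.rw g = 0 → (C.can f).r2.stE = C.can g → ∀ y < k,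
    C.pr f 0 y = true → (ψ f 0 y ↔ ψ g 0 (k - 1 - y))

open Classical in
/-- value of the lane over the north side of the state `s` in column `x` -/
noncomputable def vn (χ : P.Facet → ℕ → ℕ → Prop) (s : P.FSt) (x : ℕ) : Prop :=
  if C.can s.facet = s then χ s.facet x k else χ s.facet (k - 1 - x) 0

open Classical in
/-- value of the turned strand over the middle of the north side of the state `s` -/
noncomputable def vo (ψ : P.Facet → ℕ → ℕ → Prop) (s : P.FSt) : Prop :=
  if C.can s.facet = s.rL then ψ s.facet k C.m else ψ s.facet 0 C.m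

/-- value of a foot, `z`: the label is `0` -/
noncomputable def vf (ψ χ : P.Facet → ℕ → ℕ → Prop) (z : Bool) (r : P.FSt) : Prop :=
  if z then C.vo ψ (pN.symm r) else C.vn χ (pN.symm r) (fcol k (C.ng r))

/-- the rims are closed up -/
structure Closed (ψ χ : P.Facet → ℕ → ℕ → Prop) : Prop where
  tree : ∀ a b, C.Rim a → C.tr a → pE.SameCycle a b → C.fa a → C.fb b →
    (C.vf ψ χ (C.z1 a) a ↔ C.vf ψ χ (C.z2 b) b)
  cut : ∀ r, C.Rim r → ¬ C.tr r → C.fa r.stE →
    (C.vn χ (pN.symm r.stE) 0 ↔ C.vn χ (pN.symm r) (k - 1))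

/-- constant on the junctions -/
structure ConstJ (ψ χ : P.Facet → ℕ → ℕ → Prop) (Q : P.Facet → Prop) : Prop where
  adj : C.QJ Q
  ver : ∀ f x y, C.rw f = 0 → x ≤ k → y < k → C.pr f x y = true → (ψ f x y ↔ Q f)
  hor : ∀ f x y, C.rw f = 0 → x < k → y ≤ k → C.la f x y ≠ Ln.z → (χ f x y ↔ Q f)

/-- the closed-up junctions are closed curves -/
def Conn : Prop := ∀ ψ χ, C.Inv ψ χ → C.Closed ψ χ → ∃ Q, C.ConstJ ψ χ Q

end JX0

/-- A junction certificate. -/
structure JX (P : GridSolid) (k : ℕ) extends JX0 P k where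
  /-- every line reaches a west port (`w = true`) and an east port (`w = false`) in a facet that
  is not core, or a lit rim facet -/
  cov : ∀ f, rw f = 0 → ∀ x < k, ∀ w : Bool, ∃ z : ℤ,
    (∀ y ∈ Set.uIcc 0 z, y ≠ z → ∃ g, rw g = 0 ∧ (pN ^ y) (can f) = can g) ∧
    ((∃ g, rw g = 0 ∧ (pN ^ z) (can f) = can g ∧ ∃ y < k, pr g (if w then x else x + 1) y = true) ∨
     (0 < z ∧ toRows.Rim ((pN ^ z) (can f)) ∧ Lit tr ng z1 z2 fa fb ((pN ^ z) (can f))) ∨
     (z < 0 ∧ toRows.Rim ((pN ^ z) (can f)).r2 ∧ Lit tr ng z1 z2 fa fb ((pN ^ z) (can f)).r2))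

end Pool.Agent.MP42X
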