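import Pool.Agent.MP42.X.Dir

/-!
# The tables of the facets of the core

The path of a strand through a facet, in the frame of the run (`x` in the direction of the run,
`y` up): it enters over the bottom side in column `ci` (`n = 0`) or over the back side in row `m`,
runs forward in row `m`, and leaves over the top side in column `co` (`n = t`) or over the front
side in row `m`.
-/

set_option autoImplicit false
set_option linter.unusedSectionVars false

namespace Pool.Agent.MP42X

open Pool.Agent.Helper55.UNF Pool.Agent.MP42G Pool.Agent.MP42H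
open Pool.Agent.Helper55.UNF.GridSolid hiding len

/-- crossings of vertical unit edges -/
def KV (on : Bool) (m ci co n t x y : ℕ) : Bool :=
  on && decide (y = m ∧ (n = 0 → ci < x) ∧ (n = t → x ≤ co))

/-- crossings of horizontal unit edges -/
def KH (on : Bool) (m ci co n t x y : ℕ) : Bool :=
  on && decide ((n = 0 ∧ x = ci ∧ y ≤ m) ∨ (n = t ∧ x = co ∧ m < y))

lemma KV_true {on : Bool} {m ci co n t x y : ℕ} : KV on m ci co n t x y = true ↔
    on = true ∧ y = m ∧ (n = 0 → ci < x) ∧ (n = t → x ≤ co) := by
  unfold KV
  rw [Bool.and_eq_true, decide_eq_true_eq]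

lemma KH_true {on : Bool} {m ci co n t x y : ℕ} : KH on m ci co n t x y = true ↔
    on = true ∧ ((n = 0 ∧ x = ci ∧ y ≤ m) ∨ (n = t ∧ x = co ∧ m < y)) := by
  unfold KH
  rw [Bool.and_eq_true, decide_eq_true_eq]

/-- the possible crossings of a cell: back, front, top, bottom -/
def pok : Bool → Bool → Bool → Bool → Bool
  | false, false, false, false => true
  | true, true, false, false => true
  | false, false, true, true => true
  | false, true, false, true => true
  | true, false, true, false => true
  | _, _, _, _ => false

/-- the unframed condition on the cells -/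
def PathOk (k : ℕ) (V H : ℕ → ℕ → Bool) : Prop :=
  ∀ x y, x < k → y < k → pok (V x y) (V (x + 1) y) (H x (y + 1)) (H x y) = true

lemma K_ok (k : ℕ) (on : Bool) {m ci co n t : ℕ} (hc : n = 0 → n = t → ci ≤ co) :
    PathOk k (KV on m ci co n t) (KH on m ci co n t) := by
  intro x y hx hy
  cases on
  · rfl
  by_cases hb : KV true m ci co n t x y = true <;>
    by_cases hf : KV true m ci co n t (x + 1) y = true <;>
    by_cases ht : KH true m ci co n t x (y + 1) = true <;>
    by_cases ho : KH true m ci co n t x y = true <;>
    simp only [hb, hf, ht, ho] <;> first | rfl | (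
      exfalso
      simp only [KV_true, KH_true, true_and] at hb hf ht ho
      omega)

/-! ## The four frames -/

/-- strands: frame with north up, run to the east (`b = false`) or to the west (`b = true`) -/
def nP (k : ℕ) (b : Bool) (V : ℕ → ℕ → Bool) (x y : ℕ) : Bool := V (if b then k - x else x) y

/-- lanes: frame with north up -/
def nL (k : ℕ) (b : Bool) (H : ℕ → ℕ → Bool) (x y : ℕ) : Ln :=
  if H (if b then k - 1 - x else x) y = true then flet b else Ln.z

/-- strands: frame with east up -/
def tP (k : ℕ) (b : Bool) (H : ℕ → ℕ → Bool) (x y : ℕ) : Bool := H (if b then y else k - 1 - y) x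

/-- lanes: frame with east up -/
def tL (k : ℕ) (b : Bool) (V : ℕ → ℕ → Bool) (x y : ℕ) : Ln :=
  if V (if b then y else k - y) x = true then flet (!b) else Ln.z

lemma flet_ne (b : Bool) : flet b ≠ Ln.z := by cases b <;> decide

lemma pok_n0 : ∀ b f t o, pok b f t o = true →
    okc b f (if t = true then Ln.n else Ln.z) (if o = true then Ln.n else Ln.z) = true := by decide

lemma pok_n1 : ∀ b f t o, pok b f t o = true →
    okc f b (if t = true then Ln.s else Ln.z) (if o = true then Ln.s else Ln.z) = true := by decide

lemma pok_t0 : ∀ b f t o, pok b f t o = true →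
    okc o t (if b = true then Ln.s else Ln.z) (if f = true then Ln.s else Ln.z) = true := by decide

lemma pok_t1 : ∀ b f t o, pok b f t o = true →
    okc o t (if f = true then Ln.n else Ln.z) (if b = true then Ln.n else Ln.z) = true := by decide

variable {k : ℕ} {V H : ℕ → ℕ → Bool}

lemma PathOk.n (h : PathOk k V H) (b : Bool) : CellOk k (nP k b V) (nL k b H) := by
  intro x y hx hy
  cases b
  · exact pok_n0 _ _ _ _ (h x y hx hy)
  · have h1 := pok_n1 _ _ _ _ (h (k - 1 - x) y (by omega) hy)
    have e1 : k - (x + 1) = k - 1 - x := by omega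
    have e2 : k - x = k - 1 - x + 1 := by omega
    show okc (V (k - x) y) (V (k - (x + 1)) y) _ _ = true
    rw [e1, e2]
    exact h1

lemma PathOk.t (h : PathOk k V H) (b : Bool) : CellOk k (tP k b H) (tL k b V) := by
  intro x y hx hy
  cases b
  · have h1 := pok_t0 _ _ _ _ (h (k - 1 - y) x (by omega) hx)
    have e1 : k - (y + 1) = k - 1 - y := by omega
    have e2 : k - y = k - 1 - y + 1 := by omega
    show okc (H (k - 1 - y) x) (H (k - 1 - y) (x + 1))
      (if V (k - (y + 1)) x = true then Ln.s else Ln.z)
      (if V (k - y) x = true then Ln.s else Ln.z) = true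
    rw [e1, e2]
    exact h1
  · exact pok_t1 _ _ _ _ (h y x hy hx)

/-- unframed relations of the values -/
structure PathRel (k : ℕ) (V H : ℕ → ℕ → Bool) (v h : ℕ → ℕ → Prop) : Prop where
  bf : ∀ x y, x < k → y < k → V x y = true → V (x + 1) y = true → (v x y ↔ v (x + 1) y)
  bt : ∀ x y, x < k → y < k → V x y = true → H x (y + 1) = true → (v x y ↔ h x (y + 1))
  of : ∀ x y, x < k → y < k → H x y = true → V (x + 1) y = true → (h x y ↔ v (x + 1) y)
  ot : ∀ x y, x < k → y < k → H x y = true → H x (y + 1) = true → (h x y ↔ h x (y + 1))

/-- the values in the run frame, facet with north up -/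
def vN (k : ℕ) (b : Bool) (ψ : ℕ → ℕ → Prop) (x y : ℕ) : Prop := ψ (if b then k - x else x) y

def hN (k : ℕ) (b : Bool) (χ : ℕ → ℕ → Prop) (x y : ℕ) : Prop := χ (if b then k - 1 - x else x) y

/-- the values in the run frame, facet with east up -/
def vT (k : ℕ) (b : Bool) (χ : ℕ → ℕ → Prop) (x y : ℕ) : Prop := χ y (if b then x else k - x)

def hT (k : ℕ) (b : Bool) (ψ : ℕ → ℕ → Prop) (x y : ℕ) : Prop := ψ y (if b then x else k - 1 - x)

lemma PathOk.rel_n (h : PathOk k V H) (b : Bool) {ψ χ : ℕ → ℕ → Prop}
    (hR : CellRel k (nP k b V) (nL k b H) ψ χ) : PathRel k V H (vN k b ψ) (hN k b χ) := by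
  have key : ∀ x y, x < k → y < k →
      (V x y = true → V (x + 1) y = true → (vN k b ψ x y ↔ vN k b ψ (x + 1) y)) ∧
      (V x y = true → H x (y + 1) = true → (vN k b ψ x y ↔ hN k b χ x (y + 1))) ∧
      (H x y = true → V (x + 1) y = true → (hN k b χ x y ↔ vN k b ψ (x + 1) y)) ∧
      (H x y = true → H x (y + 1) = true → (hN k b χ x y ↔ hN k b χ x (y + 1))) := by
    intro x y hx hy
    have h0 := h x y hx hy
    cases b
    · have h1 := hR x y hx hy
      unfold vN hN
      simp only [nP, nL, flet, Bool.false_eq_true, if_false] at h1 ⊢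
      generalize V x y = b1 at *
      generalize V (x + 1) y = b2 at *
      generalize H x (y + 1) = b3 at *
      generalize H x y = b4 at *
      cases b1 <;> cases b2 <;> cases b3 <;> cases b4 <;>
        first
        | exact absurd h0 (by decide)
        | simp only [Bool.false_eq_true, true_implies, false_implies, if_true, if_false,
            and_true, true_and] at h1 ⊢
      · exact (h1 Prt.S rfl).trans Iff.rfl
      · exact (h1 Prt.S rfl).trans Iff.rfl
      · exact (h1 Prt.W rfl).trans Iff.rfl
      · exact (h1 Prt.W rfl).trans Iff.rfl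
    · have h1 := hR (k - 1 - x) y (by omega) hy
      unfold vN hN
      have e1 : k - (k - 1 - x) = x + 1 := by omega
      have e2 : k - (k - 1 - x + 1) = x := by omega
      have e3 : k - 1 - (k - 1 - x) = x := by omega
      have e4 : k - (x + 1) = k - 1 - x := by omega
      have e5 : k - x = k - 1 - x + 1 := by omega
      simp only [nP, nL, flet, if_true, e1, e2, e3] at h1 ⊢
      rw [e4, e5]
      generalize V x y = b1 at *
      generalize V (x + 1) y = b2 at *
      generalize H x (y + 1) = b3 at *
      generalize H x y = b4 at *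
      cases b1 <;> cases b2 <;> cases b3 <;> cases b4 <;>
        first
        | exact absurd h0 (by decide)
        | simp only [Bool.false_eq_true, true_implies, false_implies, if_true, if_false,
            and_true, true_and] at h1 ⊢
      · exact (h1 Prt.S rfl).trans Iff.rfl
      · exact (h1 Prt.S rfl).trans Iff.rfl
      · exact (h1 Prt.E rfl).trans Iff.rfl
      · exact (h1 Prt.E rfl).trans Iff.rfl
  exact ⟨fun x y hx hy => (key x y hx hy).1, fun x y hx hy => (key x y hx hy).2.1,
    fun x y hx hy => (key x y hx hy).2.2.1, fun x y hx hy => (key x y hx hy).2.2.2⟩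

lemma PathOk.rel_t (h : PathOk k V H) (b : Bool) {ψ χ : ℕ → ℕ → Prop}
    (hR : CellRel k (tP k b H) (tL k b V) ψ χ) : PathRel k V H (vT k b χ) (hT k b ψ) := by
  have key : ∀ x y, x < k → y < k →
      (V x y = true → V (x + 1) y = true → (vT k b χ x y ↔ vT k b χ (x + 1) y)) ∧
      (V x y = true → H x (y + 1) = true → (vT k b χ x y ↔ hT k b ψ x (y + 1))) ∧
      (H x y = true → V (x + 1) y = true → (hT k b ψ x y ↔ vT k b χ (x + 1) y)) ∧
      (H x y = true → H x (y + 1) = true → (hT k b ψ x y ↔ hT k b ψ x (y + 1))) := by
    intro x y hx hy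
    have h0 := h x y hx hy
    cases b
    · have h1 := hR y (k - 1 - x) hy (by omega)
      unfold vT hT
      have e1 : k - (k - 1 - x) = x + 1 := by omega
      have e2 : k - (k - 1 - x + 1) = x := by omega
      have e3 : k - 1 - (k - 1 - x) = x := by omega
      have e4 : k - (x + 1) = k - 1 - x := by omega
      have e5 : k - x = k - 1 - x + 1 := by omega
      simp only [tP, tL, flet, Bool.not_false, Bool.false_eq_true, if_false, e1, e2, e3] at h1 ⊢
      rw [e4, e5]
      generalize V x y = b1 at *
      generalize V (x + 1) y = b2 at *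
      generalize H x (y + 1) = b3 at *
      generalize H x y = b4 at *
      cases b1 <;> cases b2 <;> cases b3 <;> cases b4 <;>
        first
        | exact absurd h0 (by decide)
        | simp only [Bool.false_eq_true, true_implies, false_implies, if_true, if_false,
            and_true, true_and] at h1 ⊢
      · exact (h1 Prt.W rfl).trans Iff.rfl
      · exact (h1 Prt.W rfl).trans Iff.rfl
      · exact (h1 Prt.N rfl).trans Iff.rfl
      · exact (h1 Prt.N rfl).trans Iff.rfl
    · have h1 := hR y x hy hx
      unfold vT hT
      simp only [tP, tL, flet, Bool.not_true, Bool.false_eq_true, if_true, if_false] at h1 ⊢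
      generalize V x y = b1 at *
      generalize V (x + 1) y = b2 at *
      generalize H x (y + 1) = b3 at *
      generalize H x y = b4 at *
      cases b1 <;> cases b2 <;> cases b3 <;> cases b4 <;>
        first
        | exact absurd h0 (by decide)
        | simp only [Bool.false_eq_true, true_implies, false_implies, if_true, if_false,
            and_true, true_and] at h1 ⊢
      · exact (h1 Prt.W rfl).trans Iff.rfl
      · exact (h1 Prt.W rfl).trans Iff.rfl
      · exact (h1 Prt.S rfl).trans Iff.rfl
      · exact (h1 Prt.S rfl).trans Iff.rfl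
  exact ⟨fun x y hx hy => (key x y hx hy).1, fun x y hx hy => (key x y hx hy).2.1,
    fun x y hx hy => (key x y hx hy).2.2.1, fun x y hx hy => (key x y hx hy).2.2.2⟩

end Pool.Agent.MP42X
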