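import Pool.Agent.MP42.X.Cells

/-!
# One strand in every facet of the core
-/

set_option autoImplicit false
set_option linter.unusedSectionVars false

namespace Pool.Agent.MP42X

open Pool.Agent.Helper55.UNF Pool.Agent.MP42G Pool.Agent.MP42H
open Pool.Agent.Helper55.UNF.GridSolid hiding len

/-- all used edges have the value `c` (run frame) -/
def PV (k : ℕ) (V H : ℕ → ℕ → Bool) (v h : ℕ → ℕ → Prop) (c : Prop) : Prop :=
  (∀ x y, x ≤ k → y < k → V x y = true → (v x y ↔ c)) ∧
  (∀ x y, x < k → y ≤ k → H x y = true → (h x y ↔ c))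

/-- all used edges of the path have the same value -/
lemma path_one {k m ci co n t : ℕ} {on : Bool} (hm : m < k) (hci : ci < k) (hco : co < k)
    (hc : n = 0 → n = t → ci ≤ co) {v h : ℕ → ℕ → Prop}
    (hR : PathRel k (KV on m ci co n t) (KH on m ci co n t) v h) :
    ∃ c, PV k (KV on m ci co n t) (KH on m ci co n t) v h c := by
  cases on
  · refine ⟨True, fun x y _ _ h => ?_, fun x y _ _ h => ?_⟩
    · rw [KV_true] at h; exact absurd h.1 (by decide)
    · rw [KH_true] at h; exact absurd h.1 (by decide)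
  -- the relations
  have r1 : ∀ x y, x < k → y < k → (y = m ∧ (n = 0 → ci < x) ∧ (n = t → x ≤ co)) →
      (y = m ∧ (n = 0 → ci < x + 1) ∧ (n = t → x + 1 ≤ co)) → (v x y ↔ v (x + 1) y) := by
    intro x y hx hy h1 h2
    exact hR.bf x y hx hy (KV_true.2 ⟨rfl, h1⟩) (KV_true.2 ⟨rfl, h2⟩)
  have r2 : ∀ x y, x < k → y < k → (y = m ∧ (n = 0 → ci < x) ∧ (n = t → x ≤ co)) →
      ((n = 0 ∧ x = ci ∧ y + 1 ≤ m) ∨ (n = t ∧ x = co ∧ m < y + 1)) → (v x y ↔ h x (y + 1)) := by
    intro x y hx hy h1 h2
    exact hR.bt x y hx hy (KV_true.2 ⟨rfl, h1⟩) (KH_true.2 ⟨rfl, h2⟩)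
  have r3 : ∀ x y, x < k → y < k → ((n = 0 ∧ x = ci ∧ y ≤ m) ∨ (n = t ∧ x = co ∧ m < y)) →
      (y = m ∧ (n = 0 → ci < x + 1) ∧ (n = t → x + 1 ≤ co)) → (h x y ↔ v (x + 1) y) := by
    intro x y hx hy h1 h2
    exact hR.of x y hx hy (KH_true.2 ⟨rfl, h1⟩) (KV_true.2 ⟨rfl, h2⟩)
  have r4 : ∀ x y, x < k → y < k → ((n = 0 ∧ x = ci ∧ y ≤ m) ∨ (n = t ∧ x = co ∧ m < y)) →
      ((n = 0 ∧ x = ci ∧ y + 1 ≤ m) ∨ (n = t ∧ x = co ∧ m < y + 1)) →
      (h x y ↔ h x (y + 1)) := by
    intro x y hx hy h1 h2
    exact hR.ot x y hx hy (KH_true.2 ⟨rfl, h1⟩) (KH_true.2 ⟨rfl, h2⟩)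
  -- going up at the beginning
  have s1 : n = 0 → ∀ y ≤ m, (h ci y ↔ h ci 0) := by
    intro hn y
    induction y with
    | zero => intro _; exact Iff.rfl
    | succ y ih =>
      intro hy
      rw [← ih (by omega)]
      exact (r4 ci y hci (by omega) (by omega) (by omega)).symm
  -- going up at the end
  have s2 : n = t → ∀ y, m + 1 ≤ y → y ≤ k → (h co y ↔ h co (m + 1)) := by
    intro hn y
    induction y with
    | zero => intro h1 _; exact absurd h1 (by omega)
    | succ y ih =>
      intro hy hy'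
      by_cases hym : y = m
      · rw [hym]
      · rw [← ih (by omega) (by omega)]
        exact (r4 co y hco (by omega) (by omega) (by omega)).symm
  -- the run
  set x0 := if n = 0 then ci + 1 else 0 with hx0
  have s3 : ∀ x, x0 ≤ x → x ≤ k → (n = t → x ≤ co) → (v x m ↔ v x0 m) := by
    intro x
    induction x with
    | zero =>
      intro h1 _ _
      have : x0 = 0 := by omega
      rw [this]
    | succ x ih =>
      intro h1 h2 h3
      by_cases h4 : x0 = x + 1
      · rw [h4]
      · rw [← ih (by omega) (by omega) (fun h => by have := h3 h; omega)]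
        have h5 : n = 0 → ci < x := by
          intro h6
          rw [if_pos h6] at hx0
          omega
        exact (r1 x m (by omega) hm ⟨rfl, h5, fun h => by have := h3 h; omega⟩
          ⟨rfl, fun h => by have := h5 h; omega, h3⟩).symm
  by_cases hn : n = 0
  · by_cases ht : n = t ∧ ci = co
    · -- straight up
      have e : h co (m + 1) ↔ h ci 0 := by
        rw [← s1 hn m le_rfl, ← ht.2]
        exact (r4 ci m hci hm (by omega) (by omega)).symm
      refine ⟨h ci 0, fun x y hx hy h1 => ?_, fun x y hx hy h1 => ?_⟩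
      · rw [KV_true] at h1
        have := h1.2.2.1 hn
        have := h1.2.2.2 ht.1
        omega
      · rw [KH_true] at h1
        rcases h1.2 with h2 | h2
        · rw [h2.2.1]
          exact s1 hn y h2.2.2
        · rw [h2.2.1]
          exact (s2 ht.1 y (by omega) hy).trans e
    · -- enters over the bottom
      have hlt : n = t → ci + 1 ≤ co := by
        intro h1
        have := hc hn h1
        have : ci ≠ co := fun h2 => ht ⟨h1, h2⟩
        omega
      have e0 : x0 = ci + 1 := by rw [hx0, if_pos hn]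
      have e1 : v x0 m ↔ h ci 0 := by
        rw [← s1 hn m le_rfl, e0]
        exact (r3 ci m hci hm (by omega) ⟨rfl, fun _ => by omega, hlt⟩).symm
      refine ⟨h ci 0, fun x y hx hy h1 => ?_, fun x y hx hy h1 => ?_⟩
      · rw [KV_true] at h1
        obtain ⟨-, h2, h3, h4⟩ := h1
        rw [h2]
        exact (s3 x (by have := h3 hn; omega) hx h4).trans e1
      · rw [KH_true] at h1
        rcases h1.2 with h2 | h2
        · rw [h2.2.1]
          exact s1 hn y h2.2.2
        · rw [h2.2.1]
          have h3 := hlt h2.1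
          rw [s2 h2.1 y (by omega) hy]
          rw [← r2 co m hco hm ⟨rfl, fun _ => by omega, fun _ => le_rfl⟩ (by omega)]
          exact (s3 co (by omega) (by omega) (fun _ => le_rfl)).trans e1
  · -- enters over the back side
    have e0 : x0 = 0 := by rw [hx0, if_neg hn]
    refine ⟨v 0 m, fun x y hx hy h1 => ?_, fun x y hx hy h1 => ?_⟩
    · rw [KV_true] at h1
      obtain ⟨-, h2, h3, h4⟩ := h1
      rw [h2]
      have := s3 x (by omega) hx h4
      rwa [e0] at this
    · rw [KH_true] at h1
      rcases h1.2 with h2 | h2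
      · exact absurd h2.1 hn
      · rw [h2.2.1]
        rw [s2 h2.1 y (by omega) hy]
        rw [← r2 co m hco hm ⟨rfl, fun h => absurd h hn, fun _ => le_rfl⟩ (by omega)]
        have := s3 co (by omega) (by omega) (fun _ => le_rfl)
        rwa [e0] at this

end Pool.Agent.MP42X
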