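import Pool.Agent.MP42.X.Num
import Pool.Agent.MP42.X.One
import Pool.Agent.MP42.H.ATab

/-!
# The state table of a certificate: definitions
-/

set_option autoImplicit false
set_option linter.unusedSectionVars false

namespace Pool.Agent.MP42X

open Pool.Agent.Helper55.UNF Pool.Agent.MP42G Pool.Agent.MP42H
open Pool.Agent.Helper55.UNF.GridSolid hiding len

variable {P : GridSolid}

namespace JX0

variable {k : ℕ} (C : JX0 P k)

open Classical in
/-- the state with north up -/
noncomputable def up (f : P.Facet) : P.FSt :=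
  if h : ∃ r : P.FSt, r.facet = f ∧ IsU r then h.choose else C.can f

variable {C} {r : P.FSt}

lemma up_eq (hr : IsU r) : C.up r.facet = r := by
  have h : ∃ s : P.FSt, s.facet = r.facet ∧ IsU s := ⟨r, rfl, hr⟩
  unfold up
  rw [dif_pos h]
  exact U_unique h.choose_spec.2 hr h.choose_spec.1

lemma ex_up {s : P.FSt} (h : C.rw s.facet ≠ 0) : ∃ r : P.FSt, CU C.toRows r ∧
    r.facet = s.facet ∧ (s = r ∨ s = r.r2 ∨ s = r.rL ∨ s = r.rR) := by
  have key : ∃ r : P.FSt, IsU r ∧ r.facet = s.facet := by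
    have hv : ∀ t : P.FSt, IsV t → IsU t ∨ IsU t.r2 := by
      intro t ht
      by_cases h1 : IsU t
      · exact Or.inl h1
      · exact Or.inr ((Pool.Agent.MP42G.IsU_r2 ht).2 h1)
    rcases C.V s h with h1 | h1
    · rcases hv s h1 with h2 | h2
      · exact ⟨s, h2, rfl⟩
      · exact ⟨s.r2, h2, rfl⟩
    · rcases hv s.rL h1 with h2 | h2
      · exact ⟨s.rL, h2, rfl⟩
      · exact ⟨s.rL.r2, h2, rfl⟩
  obtain ⟨r, h1, h2⟩ := key
  exact ⟨r, ⟨h1, by rw [h2]; exact h⟩, h2, rot4' h2.symm⟩

variable (C)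

/-! ## The tables -/

/-- the facet carries a strand -/
noncomputable def on (r : P.FSt) : Bool :=
  decide (C.nn r ≤ C.tt r ∨ (C.uu r ≤ C.nn r ∧ C.nn r ≤ C.vv r))

/-- offset of the facet on its strand -/
noncomputable def cn (r : P.FSt) : ℕ := if C.nn r ≤ C.tt r then C.nn r else C.nn r - C.uu r

/-- offset of the end of the run -/
noncomputable def ct (r : P.FSt) : ℕ := if C.nn r ≤ C.tt r then C.tt r else C.vv r - C.uu r

/-- entry column -/
noncomputable def ci (r : P.FSt) : ℕ :=
  if C.nn r ≤ C.tt r then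
    (if C.z1 (rho C.toRows r) then C.m else if C.rw r.facet = 1 then 0 else C.m)
  else (if C.z2 (rho C.toRows r) then C.m else if C.rw r.facet ≤ 2 then 0
    else if C.rw r.facet ≤ 4 then C.m else k - 1)

/-- exit column -/
noncomputable def co (r : P.FSt) : ℕ :=
  if C.nn r ≤ C.tt r then
    (if C.z1 (rho C.toRows r) then C.m else if C.rw r.facet = 5 then k - 1 else C.m)
  else (if C.z2 (rho C.toRows r) then C.m else if C.rw r.facet = 1 then 0
    else if C.rw r.facet ≤ 3 then C.m else k - 1)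

/-- crossings of vertical unit edges in the frame of the run -/
noncomputable def WV (r : P.FSt) : ℕ → ℕ → Bool := KV (C.on r) C.m (C.ci r) (C.co r) (C.cn r) (C.ct r)

/-- crossings of horizontal unit edges in the frame of the run -/
noncomputable def WH (r : P.FSt) : ℕ → ℕ → Bool := KH (C.on r) C.m (C.ci r) (C.co r) (C.cn r) (C.ct r)

/-- offset from the foot on a cut rim (lower side) -/
noncomputable def na (r : P.FSt) : ℕ := dst pE (C.aa (rho C.toRows r)) (rho C.toRows r)

/-- offset from the foot on a cut rim (upper side) -/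
noncomputable def na' (r : P.FSt) : ℕ :=
  dst pE (C.aa (Rows.far (rho C.toRows r))) (Rows.far (rho C.toRows r))

open Classical in
/-- strands in the frame with north up -/
noncomputable def TY (r : P.FSt) (x y : ℕ) : Bool :=
  if C.tr (rho C.toRows r) then nP k (C.ng (rho C.toRows r)) (C.WV r) x y
  else if C.rw r.facet = 1 ∧ C.ac (rho C.toRows r) then CP C.m k (C.na r) (C.LL r) x y
  else if C.rw r.facet = 5 ∧ C.ac (Rows.far (rho C.toRows r)) then
    CP C.m k (C.na' r) (C.LL r) (k - x) (k - 1 - y)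
  else false

open Classical in
/-- lanes in the frame with north up -/
noncomputable def LY (r : P.FSt) (x y : ℕ) : Ln :=
  if C.tr (rho C.toRows r) then nL k (C.ng (rho C.toRows r)) (C.WH r) x y
  else if C.rw r.facet = 1 ∧ C.ac (rho C.toRows r) then CL C.m k (C.na r) (C.LL r) x y
  else if C.rw r.facet = 5 ∧ C.ac (Rows.far (rho C.toRows r)) then
    CL C.m k (C.na' r) (C.LL r) (k - 1 - x) (k - y)
  else Ln.z

/-- strands in the frame with east up -/
noncomputable def TX (r : P.FSt) (x y : ℕ) : Bool := tP k (C.ng (rho C.toRows r)) (C.WH r) x y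

/-- lanes in the frame with east up -/
noncomputable def LX (r : P.FSt) (x y : ℕ) : Ln := tL k (C.ng (rho C.toRows r)) (C.WV r) x y

/-- the facet has north up or down -/
def YY (r : P.FSt) : Prop := C.tr (rho C.toRows r) →
  (if C.nn r ≤ C.tt r then C.z1 (rho C.toRows r) else C.z2 (rho C.toRows r)) = false

open Classical in
/-- the canonical states -/
noncomputable def canF (f : P.Facet) : P.FSt :=
  if C.rw f = 0 then C.can f
  else if C.YY (C.up f) then C.up f
  else (C.up f).rL

open Classical in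
/-- the strands -/
noncomputable def PR (s : P.FSt) (x y : ℕ) : Bool :=
  if C.rw s.facet = 0 then
    (if C.can s.facet = s then C.pr s.facet x y else C.pr s.facet (k - x) (k - 1 - y))
  else if s = C.up s.facet then C.TY (C.up s.facet) x y
  else if s = (C.up s.facet).r2 then C.TY (C.up s.facet) (k - x) (k - 1 - y)
  else if s = (C.up s.facet).rL then C.TX (C.up s.facet) x y
  else C.TX (C.up s.facet) (k - x) (k - 1 - y)

open Classical in
/-- the lanes -/
noncomputable def LA (s : P.FSt) (x y : ℕ) : Ln :=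
  if C.rw s.facet = 0 then
    (if C.can s.facet = s then C.la s.facet x y else C.la s.facet (k - 1 - x) (k - y))
  else if s = C.up s.facet then C.LY (C.up s.facet) x y
  else if s = (C.up s.facet).r2 then C.LY (C.up s.facet) (k - 1 - x) (k - y)
  else if s = (C.up s.facet).rL then C.LX (C.up s.facet) x y
  else C.LX (C.up s.facet) (k - 1 - x) (k - y)

variable {C}

/-! ## Evaluation -/

section Eval

variable (h : CU C.toRows r) (x y : ℕ)

include h

lemma PR_r : C.PR r x y = C.TY r x y := by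
  unfold PR
  rw [if_neg h.2, up_eq h.1, if_pos rfl]

lemma PR_r2 : C.PR r.r2 x y = C.TY r (k - x) (k - 1 - y) := by
  unfold PR
  rw [FSt.facet_r2, if_neg h.2, up_eq h.1, if_neg (STab.r2_ne' r), if_pos rfl]

lemma PR_rL : C.PR r.rL x y = C.TX r x y := by
  unfold PR
  rw [FSt.facet_rL, if_neg h.2, up_eq h.1, if_neg (rL_ne' r), if_neg (rL_ne_r2' r), if_pos rfl]

lemma PR_rR : C.PR r.rR x y = C.TX r (k - x) (k - 1 - y) := by
  unfold PR
  rw [FSt.facet_rR, if_neg h.2, up_eq h.1, if_neg (rR_ne' r), if_neg (rR_ne_r2' r),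
    if_neg (rR_ne_rL' r)]

lemma LA_r : C.LA r x y = C.LY r x y := by
  unfold LA
  rw [if_neg h.2, up_eq h.1, if_pos rfl]

lemma LA_r2 : C.LA r.r2 x y = C.LY r (k - 1 - x) (k - y) := by
  unfold LA
  rw [FSt.facet_r2, if_neg h.2, up_eq h.1, if_neg (STab.r2_ne' r), if_pos rfl]

lemma LA_rL : C.LA r.rL x y = C.LX r x y := by
  unfold LA
  rw [FSt.facet_rL, if_neg h.2, up_eq h.1, if_neg (rL_ne' r), if_neg (rL_ne_r2' r), if_pos rfl]

lemma LA_rR : C.LA r.rR x y = C.LX r (k - 1 - x) (k - y) := by
  unfold LA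
  rw [FSt.facet_rR, if_neg h.2, up_eq h.1, if_neg (rR_ne' r), if_neg (rR_ne_r2' r),
    if_neg (rR_ne_rL' r)]

omit x y in
open Classical in
lemma canF_core : C.canF r.facet = if C.YY r then r else r.rL := by
  unfold canF
  rw [if_neg h.2, up_eq h.1]

omit x y in
lemma act_r : Act C.canF r ↔ C.YY r := by
  classical
  unfold Act
  rw [canF_core h]
  by_cases h1 : C.YY r
  · simp [h1]
  · simp [h1, rL_ne', rL_ne_r2']

omit x y in
lemma act_rL : Act C.canF r.rL ↔ ¬ C.YY r := by
  classical
  unfold Act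
  rw [FSt.facet_rL, canF_core h, FSt.rL_r2]
  have e1 := (rL_ne' r).symm
  have e2 := (rR_ne' r).symm
  by_cases h1 : C.YY r
  · simp [h1, e1, e2]
  · simp [h1]

omit x y in
lemma act_rR : Act C.canF r.rR ↔ ¬ C.YY r := by
  rw [← act_rL h, ← act_r2_iff' C.canF r.rL, FSt.rL_r2]

omit x y in
lemma act_r2 : Act C.canF r.r2 ↔ C.YY r := by
  rw [← act_r h, ← act_r2_iff' C.canF r]

end Eval

lemma canF_J {f : P.Facet} (h : C.rw f = 0) : C.canF f = C.can f := by
  unfold canF; rw [if_pos h]

lemma canF_facet (f : P.Facet) : (C.canF f).facet = f := by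
  classical
  by_cases h : C.rw f = 0
  · rw [canF_J h, C.can_facet]
  · obtain ⟨r, h1, h2, -⟩ := ex_up (C := C) (s := C.can f) (by rw [C.can_facet]; exact h)
    rw [C.can_facet] at h2
    rw [← h2, canF_core h1]
    split_ifs <;> simp

/-! facets of the junctions -/

lemma PR_J {s : P.FSt} (h : C.rw s.facet = 0) (hc : C.can s.facet = s) (x y : ℕ) :
    C.PR s x y = C.pr s.facet x y := by
  unfold PR; rw [if_pos h, if_pos hc]

lemma PR_J2 {s : P.FSt} (h : C.rw s.facet = 0) (hc : C.can s.facet = s.r2) (x y : ℕ) :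
    C.PR s x y = C.pr s.facet (k - x) (k - 1 - y) := by
  unfold PR; rw [if_pos h, if_neg (by rw [hc]; exact STab.r2_ne' s)]

lemma LA_J {s : P.FSt} (h : C.rw s.facet = 0) (hc : C.can s.facet = s) (x y : ℕ) :
    C.LA s x y = C.la s.facet x y := by
  unfold LA; rw [if_pos h, if_pos hc]

lemma LA_J2 {s : P.FSt} (h : C.rw s.facet = 0) (hc : C.can s.facet = s.r2) (x y : ℕ) :
    C.LA s x y = C.la s.facet (k - 1 - x) (k - y) := by
  unfold LA; rw [if_pos h, if_neg (by rw [hc]; exact STab.r2_ne' s)]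

lemma act_J {s : P.FSt} (h : C.rw s.facet = 0) :
    Act C.canF s ↔ C.can s.facet = s ∨ C.can s.facet = s.r2 := by
  unfold Act; rw [canF_J h]

end JX0

end Pool.Agent.MP42X
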