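import Pool.Agent.MP42.X.TabC
import Pool.Agent.MP42.H.ChB

/-!
# Coverage
-/

set_option autoImplicit false
set_option linter.unusedSectionVars false

namespace Pool.Agent.MP42X

open Pool.Agent.Helper55.UNF Pool.Agent.MP42G Pool.Agent.MP42H
open Pool.Agent.Helper55.UNF.GridSolid hiding len

variable {P : GridSolid}

namespace JX0

variable {k : ℕ} {C : JX0 P k} {r s t : P.FSt} {x : ℕ} {w : Bool}

/-- Blocked edges: not in the core, and no lane over the edge. -/
class Blk (C : JX0 P k) (B : P.FSt → Prop) : Prop where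
  rot : ∀ s, B s.stN.r2 ↔ B s
  core : ∀ s, C.rw s.facet ≠ 0 → C.rw s.stN.facet ≠ 0 → ¬ B s
  lane : ∀ s x, x < k → C.NV s x ≠ Ln.z → ¬ B s

instance (C : JX0 P k) : C.Blk (fun _ => False) where
  rot := fun _ => Iff.rfl
  core := fun _ _ _ h => h
  lane := fun _ _ _ _ h => h

variable {B : P.FSt → Prop} [hB : C.Blk B]

include hB in
lemma bN (h : C.rw s.facet ≠ 0) (h' : C.rw s.stN.facet ≠ 0) : ¬ B s := hB.core _ h h'

include hB in
lemma bS (h : C.rw s.facet ≠ 0) (h' : C.rw (pN.symm s).facet ≠ 0) : ¬ B (pN.symm s) :=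
  hB.core _ h' (by rw [stN_pN_symm]; exact h)

lemma Rch_port (hs : Act C.canF s) {y : ℕ} (hy : y < k)
    (h : C.PR s (if w then x else x + 1) y = true) : C.atab.RchB B s x w :=
  ⟨s, ChB.refl hs, y, hy, h⟩

lemma Rch_cat (h : ChB C.canF B s t) (h2 : C.atab.RchB B t x w) : C.atab.RchB B s x w := by
  obtain ⟨u, hu, h3⟩ := h2
  exact ⟨u, h.cat hu, h3⟩

lemma Rch_N (hs : Act C.canF s) (hs' : Act C.canF s.stN) (hb : ¬ B s)
    (h : C.atab.RchB B s.stN x w) : C.atab.RchB B s x w := Rch_cat (ChB.N hs hs' hb) h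

lemma Ch_S (hs : Act C.canF s) (hs' : Act C.canF (pN.symm s)) (hb : ¬ B (pN.symm s)) :
    ChB C.canF B s (pN.symm s) := by
  have h := ChB.N (can := C.canF) (s := pN.symm s) hs' (by rw [stN_pN_symm]; exact hs) hb
  rw [stN_pN_symm] at h
  exact h.symm

lemma Rch_S (hs : Act C.canF s) (hs' : Act C.canF (pN.symm s)) (hb : ¬ B (pN.symm s))
    (h : C.atab.RchB B (pN.symm s) x w) : C.atab.RchB B s x w := Rch_cat (Ch_S hs hs' hb) h

include hB in
lemma Rch_rot (hx : x < k) (h : C.atab.RchB B s x w) : C.atab.RchB B s.r2 (k - 1 - x) (!w) := by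
  obtain ⟨t, ht, y, hy, h1⟩ := h
  refine ⟨t.r2, ht.rot hB.rot, k - 1 - y, by omega, ?_⟩
  have h2 : Act C.canF t := ht.act
  show C.PR t.r2 _ _ = true
  have h1' : C.PR t (if w then x else x + 1) y = true := h1
  cases w
  · simp only [Bool.not_false, if_true, Bool.false_eq_true, if_false] at h1' ⊢
    rw [PR_rot h2 (by omega) (by omega), show k - (k - 1 - x) = x + 1 by omega,
      show k - 1 - (k - 1 - y) = y by omega]
    exact h1'
  · simp only [Bool.not_true, if_true, Bool.false_eq_true, if_false] at h1' ⊢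
    rw [PR_rot h2 (by omega) (by omega), show k - (k - 1 - x + 1) = x by omega,
      show k - 1 - (k - 1 - y) = y by omega]
    exact h1'

include hB in
lemma Rch_rot' (hx : x < k) (h : C.atab.RchB B s.r2 (k - 1 - x) (!w)) :
    C.atab.RchB B s x w := by
  have h2 := Rch_rot (by omega) h
  rwa [FSt.r2_r2, Bool.not_not, show k - 1 - (k - 1 - x) = x by omega] at h2

include hB in
lemma Rch_all_rot (h : ∀ x < k, ∀ w, C.atab.RchB B s.r2 x w) :
    ∀ x < k, ∀ w, C.atab.RchB B s x w :=
  fun _ hx _ => Rch_rot' hx (h _ (by omega) _)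

/-! ## A foot lane ends at a port of the junction -/

lemma okc_n : ∀ a b v, okc a b Ln.n v = true → a = true ∨ v = Ln.n := by decide

lemma okc_s : ∀ a b v, okc a b Ln.s v = true → b = true ∨ v = Ln.s := by decide

/-- the edge where the lane with the letter `flet b` in column `x` begins -/
lemma okc_f (b : Bool) (a e : Bool) (v : Ln) (h : okc a e (flet b) v = true) :
    (if b then e else a) = true ∨ v = flet b := by
  cases b
  · exact okc_n _ _ _ h
  · exact okc_s _ _ _ h

lemma lane_f (b : Bool) (hs : Act C.canF s) (hx : x < k) : ∀ y ≤ k, C.LA s x y = flet b →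
    (∃ y' < k, C.PR s (if b then x + 1 else x) y' = true) ∨ C.LA s x 0 = flet b := by
  intro y
  induction y with
  | zero => intro _ h; exact Or.inr h
  | succ y ih =>
    intro hy h
    have h1 := allOk hs x y hx (by omega)
    rw [h] at h1
    rcases okc_f b _ _ _ h1 with h2 | h2
    · refine Or.inl ⟨y, by omega, ?_⟩
      cases b
      · exact h2
      · exact h2
    · exact ih (by omega) h2

lemma NV_act (h : C.NV s x ≠ Ln.z) : Act C.canF s ∧ C.NV s x = C.LA s x k := by
  unfold NV at h ⊢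
  by_cases h1 : Act C.canF s
  · rw [if_pos h1]; exact ⟨h1, rfl⟩
  · rw [if_neg h1] at h; exact absurd rfl h

lemma rim_of (h : C.rw s.facet = 0) (h' : C.rw s.stN.facet ≠ 0) : C.Rim s.stN := by
  have e : s.rL.stE.rR = s.stN := rfl
  obtain ⟨h1, h2, h3⟩ := Rows.Rim.of_side C.toRows (s := s.rL) (by rw [FSt.facet_rL]; exact h)
    (by
      have : s.rL.stE.facet = s.stN.facet := by rw [rL_stE', FSt.facet_rL]
      rw [this]; exact h')
  rwa [e] at h1

/-- a lane with the letter of a foot in the opposite column does not enter a core facet -/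
lemma rim_ne {ρ : P.FSt} (h : C.Rim ρ) (b : Bool) :
    C.NV (pN.symm ρ) (k - 1 - fcol k b) ≠ flet b := by
  classical
  have hk := C.hk
  have hm := C.hm
  have hlt : k - 1 - fcol k b < k := by omega
  rw [NV_J (rw_J h), C.rn ρ h _ hlt]
  cases b
  · have e : k - 1 - fcol k false = k - 1 := by unfold fcol; simp
    rw [e]
    have e2 : flet false = Ln.n := rfl
    rw [e2]
    by_cases ht : C.tr ρ
    · rw [if_pos ht]
      split_ifs with h1
      · cases hb : C.ng ρ
        · rw [hb] at h1
          have := h1.2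
          unfold fcol at this
          simp only [Bool.false_eq_true, if_false] at this
          omega
        · decide
      · decide
    · rw [if_neg ht, if_neg (by omega)]
      split_ifs <;> decide
  · have e : k - 1 - fcol k true = 0 := by unfold fcol; simp
    rw [e]
    have e2 : flet true = Ln.s := rfl
    rw [e2]
    by_cases ht : C.tr ρ
    · rw [if_pos ht]
      split_ifs with h1
      · cases hb : C.ng ρ
        · decide
        · rw [hb] at h1
          have := h1.2
          unfold fcol at this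
          simp only [if_true] at this
          omega
      · decide
    · rw [if_neg ht]
      split_ifs with h1 h2
      · decide
      · omega
      · decide

include hB in
/-- the lane of a foot starts at a port -/
lemma foot_f {ρ : P.FSt} (h : C.Rim ρ) (b : Bool)
    (hf : C.NV (pN.symm ρ) (fcol k b) = flet b) :
    C.atab.RchB B (pN.symm ρ) (fcol k b) (!b) := by
  have hk := C.hk
  have hm := C.hm
  have hlt : fcol k b < k := by unfold fcol; split_ifs <;> omega
  by_contra hcon
  have key : ∀ j : ℕ, C.rw ((pN.symm ^ j) (pN.symm ρ)).facet = 0 ∧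
      C.NV ((pN.symm ^ j) (pN.symm ρ)) (fcol k b) = flet b ∧
      ChB C.canF B (pN.symm ρ) ((pN.symm ^ j) (pN.symm ρ)) := by
    intro j
    induction j with
    | zero =>
      exact ⟨rw_J h, hf, ChB.refl (NV_act (by rw [hf]; exact flet_ne b)).1⟩
    | succ j ih =>
      obtain ⟨h0, h1, h2⟩ := ih
      rw [pow_succ', Equiv.Perm.mul_apply]
      set t := (pN.symm ^ j) (pN.symm ρ) with ht
      obtain ⟨h3, h4⟩ := NV_act (by rw [h1]; exact flet_ne b : C.NV t (fcol k b) ≠ Ln.z)
      rw [h1] at h4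
      rcases lane_f b h3 hlt k le_rfl h4.symm with ⟨y, hy, h5⟩ | h5
      · exfalso
        refine hcon (Rch_cat h2 (Rch_port h3 hy ?_))
        cases b
        · exact h5
        · exact h5
      · -- the neighbour to the south
        have h6 : C.NV (pN.symm t) (fcol k b) = flet b := by
          rw [C.sideN _ hlt, stN_pN_symm, if_pos h3, h5]
        have h7 : C.rw (pN.symm t).facet = 0 := by
          by_contra h8
          have h9 := rim_of (C := C) (s := t.r2) (by rw [FSt.facet_r2]; exact h0)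
            (by rw [r2_stN, FSt.facet_r2]; exact h8)
          apply rim_ne h9 b
          rw [pN_s]
          have h11 := NV_r2 (C := C) (s := t) (x := fcol k b) hlt
          rw [if_pos h3, h5] at h11
          exact h11
        refine ⟨h7, h6, h2.cat (Ch_S h3 (NV_act (by rw [h6]; exact flet_ne b)).1
          (hB.lane _ _ hlt (by rw [h6]; exact flet_ne b)))⟩
  -- the chain returns to the core
  have hn : 0 < len pN (pN.symm ρ) := len_pos _
  obtain ⟨h0, -, -⟩ := key (len pN (pN.symm ρ) - 1)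
  apply Rows.Rim.ne0 C.toRows h
  have e : (pN.symm ^ (len pN (pN.symm ρ) - 1)) (pN.symm ρ) = ρ := by
    have h1 : (pN ^ len pN (pN.symm ρ)) (pN.symm ρ) = pN.symm ρ := pow_len _
    have h2 := pow_cancel' pN (len pN (pN.symm ρ)) (pN.symm ρ)
    rw [h1] at h2
    have h3 : pN ((pN.symm ^ len pN (pN.symm ρ)) (pN.symm ρ)) = ρ := by
      rw [h2, Equiv.apply_symm_apply]
    obtain ⟨n, hn'⟩ : ∃ n, len pN (pN.symm ρ) = n + 1 := ⟨len pN (pN.symm ρ) - 1, by omega⟩
    rw [hn', pow_succ', Equiv.Perm.mul_apply, Equiv.apply_symm_apply] at h3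
    rw [hn', Nat.add_sub_cancel]
    exact h3
  rw [e] at h0
  exact h0

include hB in
/-- the foot of strand 1 on a tree rim, label not `0` -/
lemma foot_a {ρ : P.FSt} (h : C.Rim ρ) (ht : C.tr ρ) (hf : C.fa ρ) (hz : C.z1 ρ = false) :
    Act C.canF (pN.symm ρ) ∧ ¬ B (pN.symm ρ) ∧
      C.atab.RchB B (pN.symm ρ) (fcol k (C.ng ρ)) (!C.ng ρ) := by
  have hk := C.hk
  have hm := C.hm
  have hlt : fcol k (C.ng ρ) < k := by unfold fcol; split_ifs <;> omega
  have e : C.NV (pN.symm ρ) (fcol k (C.ng ρ)) = flet (C.ng ρ) := by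
    rw [NV_J (rw_J h), C.rn ρ h _ hlt, if_pos ht, if_pos ⟨Or.inl ⟨hf, hz⟩, rfl⟩]
  exact ⟨(NV_act (by rw [e]; exact flet_ne _)).1, hB.lane _ _ hlt (by rw [e]; exact flet_ne _),
    foot_f h _ e⟩

include hB in
/-- the feet of a cut rim -/
lemma cfoot_n {ρ : P.FSt} (h : C.Rim ρ) (ht : ¬ C.tr ρ) (hf : C.fa ρ) :
    Act C.canF (pN.symm ρ) ∧ ¬ B (pN.symm ρ) ∧ C.atab.RchB B (pN.symm ρ) 0 true := by
  have hk := C.hk
  have hm := C.hm
  have e : C.NV (pN.symm ρ) 0 = Ln.n := by
    rw [NV_J (rw_J h), C.rn ρ h _ (by omega), if_neg ht, if_pos ⟨hf, rfl⟩]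
  exact ⟨(NV_act (by rw [e]; decide)).1, hB.lane _ 0 (by omega) (by rw [e]; decide),
    foot_f h false e⟩

include hB in
lemma cfoot_s {ρ : P.FSt} (h : C.Rim ρ) (ht : ¬ C.tr ρ) (hf : C.fa ρ.stE) :
    Act C.canF (pN.symm ρ) ∧ ¬ B (pN.symm ρ) ∧ C.atab.RchB B (pN.symm ρ) (k - 1) false := by
  have hk := C.hk
  have hm := C.hm
  have e : C.NV (pN.symm ρ) (k - 1) = Ln.s := by
    rw [NV_J (rw_J h), C.rn ρ h _ (by omega), if_neg ht, if_neg (by omega),
      if_pos ⟨hf, by omega⟩]
  exact ⟨(NV_act (by rw [e]; decide)).1, hB.lane _ (k - 1) (by omega) (by rw [e]; decide),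
    foot_f h true e⟩

end JX0

end Pool.Agent.MP42X
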