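import Pool.Agent.MP42.X.Cov1

/-!
# Coverage: tree bands
-/

set_option autoImplicit false
set_option linter.unusedSectionVars false

namespace Pool.Agent.MP42X

open Pool.Agent.Helper55.UNF Pool.Agent.MP42G Pool.Agent.MP42H
open Pool.Agent.Helper55.UNF.GridSolid hiding len

variable {P : GridSolid}

namespace JX0

variable {k : ℕ} {C : JX0 P k} {r s t : P.FSt} {x : ℕ} {w : Bool}
variable {B : P.FSt → Prop} [hB : C.Blk B]

/-- unit edge in the frame of the run -/
def ex (k : ℕ) (b : Bool) (e : ℕ) : ℕ := if b then k - e else e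

/-- the edge of the port -/
def pe (x : ℕ) (w : Bool) : ℕ := if w then x else x + 1

lemma pe_le (hx : x < k) : pe x w ≤ k := by unfold pe; split_ifs <;> omega

lemma PR_Y (h : CU C.toRows r) (ht : C.tr (rho C.toRows r)) (e y : ℕ) : C.PR r e y = true ↔
    C.on r = true ∧ y = C.m ∧ (C.cn r = 0 → C.ci r < ex k (C.ng (rho C.toRows r)) e) ∧
      (C.cn r = C.ct r → ex k (C.ng (rho C.toRows r)) e ≤ C.co r) := by
  rw [PR_r h]
  unfold TY nP
  rw [if_pos ht]
  unfold WV
  rw [KV_true]
  exact Iff.rfl

lemma PR_X (h : CU C.toRows r) (ht : C.tr (rho C.toRows r)) (hY : ¬ C.YY r) (e : ℕ) :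
    C.PR r.rL e C.m = true ↔ C.on r = true ∧
      ((C.cn r = 0 ∧ e ≤ C.m) ∨ (C.cn r = C.ct r ∧ C.m < e)) := by
  have hk := C.hk
  obtain ⟨c1, c2⟩ := ci_turned h ht hY
  rw [PR_rL h]
  unfold TX tP WH
  rw [KH_true, c1, c2]
  have e1 : (if C.ng (rho C.toRows r) = true then C.m else k - 1 - C.m) = C.m := by
    split_ifs <;> omega
  rw [e1]
  simp only [true_and]

lemma cm_lt (C : JX0 P k) : C.m < k := by have := C.hk; omega

/-! ## Strand 1, label not `0` -/

lemma act_1 (h : CU C.toRows r) (hz : C.z1 (rho C.toRows r) = false) (h1 : C.nn r ≤ C.tt r) :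
    Act C.canF r := (act_r h).2 (fun _ => by rw [if_pos h1]; exact hz)

lemma PR_1 (h : CU C.toRows r) (ht : C.tr (rho C.toRows r)) (hz : C.z1 (rho C.toRows r) = false)
    (h1 : C.nn r ≤ C.tt r) (e : ℕ) : C.PR r e C.m = true ↔
    (C.nn r = 0 → (if C.rw r.facet = 1 then 0 else C.m) < ex k (C.ng (rho C.toRows r)) e) ∧
    (C.nn r = C.tt r → ex k (C.ng (rho C.toRows r)) e ≤
      (if C.rw r.facet = 5 then k - 1 else C.m)) := by
  rw [PR_Y h ht, on_iff h ht]
  unfold cn ct ci co
  rw [if_pos h1, if_pos h1, if_pos h1, if_pos h1, hz]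
  simp only [Bool.false_eq_true, if_false]
  constructor
  · rintro ⟨_, _, h2, h3⟩; exact ⟨h2, h3⟩
  · rintro ⟨h2, h3⟩; exact ⟨Or.inl h1, trivial, h2, h3⟩

/-- going down at the end of a run -/
lemma covD : ∀ (n : ℕ) (r : P.FSt), CU C.toRows r → C.tr (rho C.toRows r) →
    C.z1 (rho C.toRows r) = false → C.rw r.facet = n → n ≤ 4 → C.nn r = C.tt r →
    ∀ (x : ℕ) (w : Bool), ex k (C.ng (rho C.toRows r)) (pe x w) ≤ C.m → C.atab.RchB B r x w := by
  intro n
  induction n with
  | zero => intro r h _ _ h0; exact absurd h0 h.2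
  | succ n ih =>
    intro r h ht hz hw h4 hn x w hp
    by_cases h1 : 0 < C.tt r
    · apply Rch_port (act_1 h hz hn.le) (cm_lt C)
      show C.PR r (pe x w) C.m = true
      rw [PR_1 h ht hz hn.le, if_neg (show ¬ C.rw r.facet = 5 by omega)]
      exact ⟨fun h2 => by omega, fun _ => hp⟩
    · have h2 : C.rw r.facet ≠ 1 := fun h2 => h1 (tt_pos h ht (Or.inl h2))
      obtain ⟨h3, h5⟩ := h.S h2
      have e : rho C.toRows (pN.symm r) = rho C.toRows r := by
        have := h3.rho_N (by omega)
        rw [stN_pN_symm] at this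
        exact this.symm
      have h6 := (row_N h3 (by rw [e]; exact ht) (by omega)).1
      rw [stN_pN_symm] at h6
      have h7 := h6.2 (by omega)
      exact Rch_S (act_1 h hz hn.le) (act_1 h3 (by rw [e]; exact hz) h7.le) (bS h.2 h3.2)
        (ih _ h3 (by rw [e]; exact ht) (by rw [e]; exact hz) (by omega) (by omega) h7 x w
          (by rw [e]; exact hp))

/-- going up at the beginning of a run -/
lemma covU : ∀ (n : ℕ) (r : P.FSt), CU C.toRows r → C.tr (rho C.toRows r) →
    C.z1 (rho C.toRows r) = false → C.rw r.facet + n = 5 → 2 ≤ C.rw r.facet → C.nn r = 0 →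
    ∀ (x : ℕ) (w : Bool), x < k → C.m < ex k (C.ng (rho C.toRows r)) (pe x w) →
    C.atab.RchB B r x w := by
  intro n
  induction n with
  | zero =>
    intro r h ht hz hw h2 hn x w hx hp
    have h1 := tt_pos h ht (Or.inr hw)
    apply Rch_port (act_1 h hz (by omega)) (cm_lt C)
    show C.PR r (pe x w) C.m = true
    rw [PR_1 h ht hz (by omega), if_neg (show ¬ C.rw r.facet = 1 by omega)]
    exact ⟨fun _ => hp, fun h2 => by omega⟩
  | succ n ih =>
    intro r h ht hz hw h2 hn x w hx hp
    by_cases h1 : 0 < C.tt r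
    · apply Rch_port (act_1 h hz (by omega)) (cm_lt C)
      show C.PR r (pe x w) C.m = true
      rw [PR_1 h ht hz (by omega), if_neg (show ¬ C.rw r.facet = 1 by omega)]
      exact ⟨fun _ => hp, fun h2 => by omega⟩
    · obtain ⟨h3, h5⟩ := h.stN (by omega)
      have e := h.rho_N (by omega)
      have h6 := (row_N h ht (by omega)).1.1 (by omega)
      exact Rch_N (act_1 h hz (by omega)) (act_1 h3 (by rw [e]; exact hz) (by omega))
        (bN h.2 h3.2)
        (ih _ h3 (by rw [e]; exact ht) (by rw [e]; exact hz) (by omega) (by omega) h6 x w hx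
          (by rw [e]; exact hp))

/-- lines of the facets of strand 1 -/
lemma cov1 (h : CU C.toRows r) (ht : C.tr (rho C.toRows r)) (hz : C.z1 (rho C.toRows r) = false)
    (hY : C.nn r ≤ C.tt r) : ∀ x < k, ∀ w, C.atab.RchB B r x w := by
  intro x hx w
  have hk := C.hk
  have hm := C.hm
  have h5 := C.le5 r.facet
  have h0 := h.2
  have hA := act_1 h hz hY
  have hex : ex k (C.ng (rho C.toRows r)) (pe x w) ≤ k := by
    have := pe_le (k := k) (w := w) hx
    unfold ex
    split_ifs <;> omega
  by_cases hp : ex k (C.ng (rho C.toRows r)) (pe x w) ≤ C.m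
  · -- low half
    by_cases h1 : C.nn r = C.tt r ∧ C.rw r.facet ≤ 4
    · exact covD _ r h ht hz rfl h1.2 h1.1 x w hp
    · by_cases h2 : C.nn r = 0 ∧ C.rw r.facet ≠ 1
      · obtain ⟨h3, h4⟩ := h.S h2.2
        have e : rho C.toRows (pN.symm r) = rho C.toRows r := by
          have := h3.rho_N (by omega)
          rw [stN_pN_symm] at this
          exact this.symm
        have h6 := (row_N h3 (by rw [e]; exact ht) (by omega)).1
        rw [stN_pN_symm] at h6
        have h7 := h6.2 h2.1
        exact Rch_S hA (act_1 h3 (by rw [e]; exact hz) h7.le) (bS h.2 h3.2)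
          (covD _ _ h3 (by rw [e]; exact ht) (by rw [e]; exact hz) rfl (by omega) h7 x w
            (by rw [e]; exact hp))
      · by_cases h3 : C.nn r = 0 ∧ ex k (C.ng (rho C.toRows r)) (pe x w) = 0
        · -- the foot
          have h4 : C.rw r.facet = 1 := by
            by_contra h6; exact h2 ⟨h3.1, h6⟩
          have hl : Lo C.toRows r := ⟨h.1, h4⟩
          have e := hl.rho
          rw [e] at ht hz h3
          have hf : C.fa r := (fa_row1 hl ht).2 h3.1
          obtain ⟨h8, hb8, h9⟩ := foot_a (B := B) hl.rim ht hf hz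
          have h10 : x = fcol k (C.ng r) ∧ w = !C.ng r := by
            have h11 := h3.2
            unfold ex pe at h11
            unfold fcol
            cases w <;> cases hb : C.ng r <;> rw [hb] at h11 <;>
              simp only [Bool.false_eq_true, if_false, if_true] at h11 ⊢ <;>
              first
              | (exfalso; omega)
              | exact ⟨by omega, by decide⟩
          rw [h10.1, h10.2]
          exact Rch_S hA h8 hb8 h9
        · apply Rch_port hA (cm_lt C)
          show C.PR r (pe x w) C.m = true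
          rw [PR_1 h ht hz hY]
          refine ⟨fun h4 => ?_, fun h4 => ?_⟩
          · have h6 : C.rw r.facet = 1 := by
              by_contra h6; exact h2 ⟨h4, h6⟩
            rw [if_pos h6]
            omega
          · split_ifs <;> omega
  · -- high half
    by_cases h1 : C.nn r = 0 ∧ 2 ≤ C.rw r.facet
    · exact covU (5 - C.rw r.facet) r h ht hz (by omega) h1.2 h1.1 x w hx (by omega)
    · by_cases h2 : C.nn r = C.tt r ∧ C.rw r.facet ≠ 5
      · obtain ⟨h3, h4⟩ := h.stN h2.2
        have e := h.rho_N h2.2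
        have h6 := (row_N h ht h2.2).1.1 h2.1
        exact Rch_N hA (act_1 h3 (by rw [e]; exact hz) (by omega)) (bN h.2 h3.2)
          (covU (4 - C.rw r.facet) _ h3 (by rw [e]; exact ht) (by rw [e]; exact hz) (by omega)
            (by omega) h6 x w hx (by rw [e]; omega))
      · by_cases h3 : C.nn r = C.tt r ∧ k ≤ ex k (C.ng (rho C.toRows r)) (pe x w)
        · -- the upper foot
          have h4 : C.rw r.facet = 5 := by
            by_contra h6; exact h2 ⟨h3.1, h6⟩
          have hf : C.fa r.r2 := (fa_row5 h h4 ht).2 h3.1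
          have hr := rim5 h h4
          have hb := ng5 h h4
          have hz' : C.z1 r.r2 = false := by
            rw [← far_rho5 h h4, C.z1_far _ h.lo_rho.rim]; exact hz
          obtain ⟨h8, hb8, h9⟩ := foot_a (B := B) hr ((tr5 h h4).2 ht) hf hz'
          rw [hb] at h9
          have h10 : fcol k (C.ng (rho C.toRows r)) = k - 1 - x ∧
              (!C.ng (rho C.toRows r)) = !w := by
            have h11 := h3.2
            unfold ex pe at h11
            unfold fcol
            cases w <;> cases hb : C.ng (rho C.toRows r) <;> rw [hb] at h11 <;>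
              simp only [Bool.false_eq_true, if_false, if_true] at h11 ⊢ <;>
              first
              | (exfalso; omega)
              | exact ⟨by omega, trivial⟩
          rw [h10.1, h10.2, pN_symm_r2] at h9
          rw [pN_symm_r2] at h8 hb8
          exact Rch_N hA ((act_r2_iff' _ _).1 h8) (fun hb => hb8 ((hB.rot r).2 hb))
            (Rch_rot' hx h9)
        · apply Rch_port hA (cm_lt C)
          show C.PR r (pe x w) C.m = true
          rw [PR_1 h ht hz hY]
          refine ⟨fun h4 => ?_, fun h4 => ?_⟩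
          · split_ifs <;> omega
          · have h6 : C.rw r.facet = 5 := by
              by_contra h6; exact h2 ⟨h4, h6⟩
            rw [if_pos h6]
            omega

/-! ## The type `(+,+)`, `(-,-)` -/

/-- both labels are not `0` -/
lemma act_pp (h : CU C.toRows r) (hz : C.z2 (rho C.toRows r) = false) : Act C.canF r := by
  refine (act_r h).2 (fun _ => ?_)
  have h1 : C.z1 (rho C.toRows r) = false := by
    by_contra h2
    rw [Bool.not_eq_false] at h2
    have := C.z12 _ h.lo_rho.rim h2
    rw [hz] at this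
    exact absurd this (by decide)
  split_ifs
  · exact h1
  · exact hz

lemma z1_of_z2 (h : C.Rim r) (hz : C.z2 r = false) : C.z1 r = false := by
  by_contra h2
  rw [Bool.not_eq_false] at h2
  have := C.z12 _ h h2
  rw [hz] at this
  exact absurd this (by decide)

/-- the rows over a state of row 1 -/
lemma rows_up (h : Lo C.toRows r) : ∀ j ≤ 4, CU C.toRows ((pN ^ j) r) ∧
    C.rw ((pN ^ j) r).facet = j + 1 ∧ rho C.toRows ((pN ^ j) r) = r := by
  intro j hj
  obtain ⟨h1, h2, -⟩ := h.CU.upw j (by rw [h.2]; omega)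
  refine ⟨h1, by rw [h2, h.2]; omega, ?_⟩
  unfold rho
  rw [h2, h.2, show 1 + j - 1 = j by omega]
  exact pow_symm_cancel' j r

lemma ch_pp (h : Lo C.toRows r) (hz : C.z2 r = false) : ∀ j ≤ 4, ChB C.canF B r ((pN ^ j) r) := by
  intro j
  induction j with
  | zero =>
    intro _
    exact ChB.refl (act_pp h.CU (by rw [h.rho]; exact hz))
  | succ j ih =>
    intro hj
    obtain ⟨h1, h2, h3⟩ := rows_up h j (by omega)
    obtain ⟨g1, g2, g3⟩ := rows_up h (j + 1) hj
    rw [pow_succ', Equiv.Perm.mul_apply, pN_apply] at g1 g2 g3 ⊢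
    exact (ih (by omega)).cat (ChB.N (act_pp h1 (by rw [h3]; exact hz))
      (act_pp g1 (by rw [g3]; exact hz)) (bN h1.2 g1.2))

/-- the strand over an edge of the facet in row `j` -/
lemma port_pp (h : CU C.toRows r) (ht : C.tr (rho C.toRows r)) (e : ℕ) :
    C.PR r e C.m = true ↔ C.on r = true ∧
      (C.cn r = 0 → C.ci r < ex k (C.ng (rho C.toRows r)) e) ∧
      (C.cn r = C.ct r → ex k (C.ng (rho C.toRows r)) e ≤ C.co r) := by
  rw [PR_Y h ht]
  constructor
  · rintro ⟨h1, _, h2, h3⟩; exact ⟨h1, h2, h3⟩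
  · rintro ⟨h1, h2, h3⟩; exact ⟨h1, rfl, h2, h3⟩

lemma cov_pp1 (h : Lo C.toRows r) (ht : C.tr r) (hz : C.z2 r = false) :
    ∀ x < k, ∀ w, C.atab.RchB B r x w := by
  intro x hx w
  have hk := C.hk
  have hm := C.hm
  have hz1 := z1_of_z2 h.rim hz
  set E := ex k (C.ng r) (pe x w) with hE
  have hEk : E ≤ k := by
    have := pe_le (k := k) (w := w) hx
    rw [hE]
    unfold ex
    split_ifs <;> omega
  obtain ⟨b1, b2, b3, b4, b5, b6, b7⟩ := bounds h ht
  have b8 := ep_eq h ht
  -- it is enough to find a row with a port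
  have key : ∀ j ≤ 4, C.PR ((pN ^ j) r) (pe x w) C.m = true → C.atab.RchB B r x w := by
    intro j hj hP
    obtain ⟨h1, h2, h3⟩ := rows_up h j hj
    exact Rch_cat (ch_pp h hz j hj) (Rch_port (act_pp h1 (by rw [h3]; exact hz)) (cm_lt C) hP)
  have val : ∀ j ≤ 4, (C.PR ((pN ^ j) r) (pe x w) C.m = true ↔ C.on ((pN ^ j) r) = true ∧
      (C.cn ((pN ^ j) r) = 0 → C.ci ((pN ^ j) r) < E) ∧
      (C.cn ((pN ^ j) r) = C.ct ((pN ^ j) r) → E ≤ C.co ((pN ^ j) r))) := by
    intro j hj
    obtain ⟨h1, h2, h3⟩ := rows_up h j hj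
    rw [port_pp h1 (by rw [h3]; exact ht), h3]
  have num : ∀ j ≤ 4,
      C.nn ((pN ^ j) r) = cd (len pE r) (C.pp r)
        (if j = 0 then C.al r else if j ≤ 2 then C.ep r else C.ta r) ∧
      C.tt ((pN ^ j) r) = (if j = 0 then C.ep r - C.al r
        else if j = 2 then cd (len pE r) (C.ta r) (C.ep r)
        else if j = 4 then cd (len pE r) (C.al' r) (C.ta r) else 0) ∧
      C.uu ((pN ^ j) r) = (if j = 0 then len pE r - C.al r
        else if j = 1 then len pE r - C.ep r
        else if j = 3 then cd (len pE r) (C.ep r - 1) (C.ta r) else len pE r - 1) ∧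
      C.vv ((pN ^ j) r) = (if j = 0 then len pE r - C.al r else len pE r - 1) := by
    intro j hj
    obtain ⟨h1, h2, h3⟩ := rows_up h j hj
    unfold nn tt uu vv
    rw [h2, h3]
    have hj' : j = 0 ∨ j = 1 ∨ j = 2 ∨ j = 3 ∨ j = 4 := by omega
    rcases hj' with rfl | rfl | rfl | rfl | rfl <;> norm_num
  have fin : ∀ j ≤ 4, (C.on ((pN ^ j) r) = true ↔ (C.nn ((pN ^ j) r) ≤ C.tt ((pN ^ j) r) ∨
      (C.uu ((pN ^ j) r) ≤ C.nn ((pN ^ j) r) ∧ C.nn ((pN ^ j) r) ≤ C.vv ((pN ^ j) r)))) := by
    intro j hj
    obtain ⟨h1, h2, h3⟩ := rows_up h j hj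
    exact on_iff h1 (by rw [h3]; exact ht)
  by_cases hlow : E ≤ C.m
  · by_cases c1 : C.al r < C.pp r ∧ C.pp r ≤ C.ep r
    · -- row 1
      apply key 0 (by norm_num)
      rw [val 0 (by norm_num), fin 0 (by norm_num)]
      obtain ⟨n1, n2, n3, n4⟩ := num 0 (by norm_num)
      obtain ⟨h1, h2, h3⟩ := rows_up h 0 (by norm_num)
      unfold cn ct ci co
      rw [h2, h3, hz1, hz, n1, n2, n3, n4]
      simp only [if_true]
      unfold cd
      split_ifs <;> omega
    · by_cases c2 : 0 < C.pp r ∧ C.pp r + 1 ≤ C.ep r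
      · -- row 2
        apply key 1 (by norm_num)
        rw [val 1 (by norm_num), fin 1 (by norm_num)]
        obtain ⟨n1, n2, n3, n4⟩ := num 1 (by norm_num)
        obtain ⟨h1, h2, h3⟩ := rows_up h 1 (by norm_num)
        unfold cn ct ci co
        rw [h2, h3, hz1, hz, n1, n2, n3, n4]
        norm_num
        unfold cd
        split_ifs <;> omega
      · by_cases c3 : C.ta r = C.ep r
        · -- row 5
          apply key 4 (by norm_num)
          rw [val 4 (by norm_num), fin 4 (by norm_num)]
          obtain ⟨n1, n2, n3, n4⟩ := num 4 (by norm_num)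
          obtain ⟨h1, h2, h3⟩ := rows_up h 4 (by norm_num)
          unfold cn ct ci co
          rw [h2, h3, hz1, hz, n1, n2, n3, n4]
          norm_num
          unfold cd at b6 b7 ⊢
          split_ifs at b6 b7 ⊢ <;> omega
        · -- row 3
          apply key 2 (by norm_num)
          rw [val 2 (by norm_num), fin 2 (by norm_num)]
          obtain ⟨n1, n2, n3, n4⟩ := num 2 (by norm_num)
          obtain ⟨h1, h2, h3⟩ := rows_up h 2 (by norm_num)
          unfold cn ct ci co
          rw [h2, h3, hz1, hz, n1, n2, n3, n4]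
          norm_num
          unfold cd at b6 b7 ⊢
          split_ifs at b6 b7 ⊢ <;> omega
  · by_cases c1 : C.pp r + 1 < C.ep r
    · -- row 2
      apply key 1 (by norm_num)
      rw [val 1 (by norm_num), fin 1 (by norm_num)]
      obtain ⟨n1, n2, n3, n4⟩ := num 1 (by norm_num)
      obtain ⟨h1, h2, h3⟩ := rows_up h 1 (by norm_num)
      unfold cn ct ci co
      rw [h2, h3, hz1, hz, n1, n2, n3, n4]
      norm_num
      unfold cd at b6 b7 ⊢
      split_ifs at b6 b7 ⊢ <;> omega
    · by_cases c2 : C.pp r + 1 = C.ep r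
      · -- row 1
        apply key 0 (by norm_num)
        rw [val 0 (by norm_num), fin 0 (by norm_num)]
        obtain ⟨n1, n2, n3, n4⟩ := num 0 (by norm_num)
        obtain ⟨h1, h2, h3⟩ := rows_up h 0 (by norm_num)
        unfold cn ct ci co
        rw [h2, h3, hz1, hz, n1, n2, n3, n4]
        norm_num
        unfold cd at b6 b7 ⊢
        split_ifs at b6 b7 ⊢ <;> omega
      · by_cases c3 : C.ta r = C.ep r
        · -- row 5
          apply key 4 (by norm_num)
          rw [val 4 (by norm_num), fin 4 (by norm_num)]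
          obtain ⟨n1, n2, n3, n4⟩ := num 4 (by norm_num)
          obtain ⟨h1, h2, h3⟩ := rows_up h 4 (by norm_num)
          unfold cn ct ci co
          rw [h2, h3, hz1, hz, n1, n2, n3, n4]
          norm_num
          unfold cd at b6 b7 ⊢
          split_ifs at b6 b7 ⊢ <;> omega
        · -- row 3
          apply key 2 (by norm_num)
          rw [val 2 (by norm_num), fin 2 (by norm_num)]
          obtain ⟨n1, n2, n3, n4⟩ := num 2 (by norm_num)
          obtain ⟨h1, h2, h3⟩ := rows_up h 2 (by norm_num)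
          unfold cn ct ci co
          rw [h2, h3, hz1, hz, n1, n2, n3, n4]
          norm_num
          unfold cd at b6 b7 ⊢
          split_ifs at b6 b7 ⊢ <;> omega

end JX0

end Pool.Agent.MP42X
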