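import Pool.Agent.MP42.X.Cov2

/-!
# Coverage: turned facets, cut bands, rims, all lines
-/

set_option autoImplicit false
set_option linter.unusedSectionVars false

namespace Pool.Agent.MP42X

open Pool.Agent.Helper55.UNF Pool.Agent.MP42G Pool.Agent.MP42H
open Pool.Agent.Helper55.UNF.GridSolid hiding len

variable {P : GridSolid}

namespace JX0

variable {k : ℕ} {C : JX0 P k} {r s t : P.FSt} {x : ℕ} {w : Bool}
variable {B : P.FSt → Prop} [hB : C.Blk B]

lemma cov_pp (h : CU C.toRows r) (ht : C.tr (rho C.toRows r)) (hz : C.z2 (rho C.toRows r) = false) :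
    ∀ x < k, ∀ w, C.atab.RchB B r x w := by
  intro x hx w
  have hl := h.lo_rho
  have h5 := C.le5 r.facet
  have h0 := h.2
  have h1 := ch_pp (B := B) hl hz (C.rw r.facet - 1) (by omega)
  rw [h.rho_up] at h1
  exact Rch_cat h1.symm (cov_pp1 hl ht hz x hx w)

/-! ## Turned facets -/

/-- the first offset of the turned facets -/
noncomputable def lo (C : JX0 P k) (r : P.FSt) : ℕ :=
  if C.z1 (rho C.toRows r) then 0 else C.tt r + 1

lemma notYY_iff (h : CU C.toRows r) (ht : C.tr (rho C.toRows r))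
    (hz : C.z2 (rho C.toRows r) = true) : ¬ C.YY r ↔ C.lo r ≤ C.nn r := by
  rw [YY_iff h ht, Bool.not_eq_false]
  unfold lo
  cases hz1 : C.z1 (rho C.toRows r)
  · simp only [Bool.false_eq_true, if_false]
    by_cases h1 : C.nn r ≤ C.tt r
    · rw [if_pos h1]
      simp only [Bool.false_eq_true, false_iff]
      omega
    · rw [if_neg h1]
      simp only [hz, true_iff]
      omega
  · simp only [if_true, Nat.zero_le, iff_true]
    split_ifs
    · rfl
    · exact hz

/-- moving in the direction of the runs in the turned facets -/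
lemma stepX (h : CU C.toRows r) (ht : C.tr (rho C.toRows r)) (hz : C.z2 (rho C.toRows r) = true)
    (h1 : C.lo r ≤ C.nn r) (h2 : C.nn r + 1 < C.LL r) :
    CU C.toRows (C.dd r r) ∧ C.tr (rho C.toRows (C.dd r r)) ∧
    C.z2 (rho C.toRows (C.dd r r)) = true ∧ C.lo (C.dd r r) = C.lo r ∧
    C.nn (C.dd r r) = C.nn r + 1 ∧ C.tt (C.dd r r) = C.tt r ∧ C.uu (C.dd r r) = C.uu r ∧
    C.vv (C.dd r r) = C.vv r ∧ C.LL (C.dd r r) = C.LL r ∧ ChB C.canF B r.rL (C.dd r r).rL := by
  obtain ⟨e1, e2, e3, e4, e5⟩ := row_D h ht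
  rw [if_neg (by omega)] at e1
  have hs : pE.SameCycle (rho C.toRows r) (dir (C.ng (rho C.toRows r)) (rho C.toRows r)) :=
    same_dir _ _
  have hr : rho C.toRows (C.dd r r) = dir (C.ng (rho C.toRows r)) (rho C.toRows r) :=
    cu_rho_dir h _
  have h' := (cu_D h).1
  have ht' : C.tr (rho C.toRows (C.dd r r)) := by
    rw [hr]; exact (tr_same h.lo_rho.rim hs).2 ht
  have hz' : C.z2 (rho C.toRows (C.dd r r)) = true := by
    rw [hr, z2_same h.lo_rho.rim hs]; exact hz
  have hlo : C.lo (C.dd r r) = C.lo r := by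
    unfold lo
    rw [hr, z1_same h.lo_rho.rim hs, e2]
  refine ⟨h', ht', hz', hlo, e1, e2, e3, e4, e5, ?_⟩
  have a1 : Act C.canF r.rL := (act_rL h).2 ((notYY_iff h ht hz).2 h1)
  have a2 : Act C.canF (C.dd r r).rL := (act_rL h').2 ((notYY_iff h' ht' hz').2 (by omega))
  cases hb : C.ng (rho C.toRows r)
  · have e0 : C.dd r r = r.stE := by
      unfold dd
      rw [hb, dir_false, pE_apply]
    rw [e0] at a2 ⊢
    have e : r.stE.rL.stN = r.rL := by rw [rL_stN, pE_s]
    have := ChB.N (can := C.canF) a2 (by rw [e]; exact a1) (bN (C := C) (B := B)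
      (by rw [FSt.facet_rL]; rw [e0] at h'; exact h'.2) (by rw [e, FSt.facet_rL]; exact h.2))
    rw [e] at this
    exact this.symm
  · have e0 : C.dd r r = pE.symm r := by
      unfold dd
      rw [hb, dir_true]
    rw [e0] at a2 ⊢
    have e : r.rL.stN = (pE.symm r).rL := rL_stN r
    have := ChB.N (can := C.canF) a1 (by rw [e]; exact a2) (bN (C := C) (B := B)
      (by rw [FSt.facet_rL]; exact h.2) (by rw [e, FSt.facet_rL]; rw [e0] at h'; exact h'.2))
    rwa [e] at this

lemma goF : ∀ (n : ℕ) (r : P.FSt), CU C.toRows r → C.tr (rho C.toRows r) →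
    C.z2 (rho C.toRows r) = true → C.lo r ≤ C.nn r → C.nn r + n < C.LL r →
    ∃ r', CU C.toRows r' ∧ C.tr (rho C.toRows r') ∧ C.z2 (rho C.toRows r') = true ∧
    C.lo r' = C.lo r ∧ C.nn r' = C.nn r + n ∧ C.tt r' = C.tt r ∧ C.uu r' = C.uu r ∧
    C.vv r' = C.vv r ∧ C.LL r' = C.LL r ∧ ChB C.canF B r.rL r'.rL := by
  intro n
  induction n with
  | zero =>
    intro r h ht hz h1 _
    exact ⟨r, h, ht, hz, rfl, rfl, rfl, rfl, rfl, rfl,
      ChB.refl ((act_rL h).2 ((notYY_iff h ht hz).2 h1))⟩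
  | succ n ih =>
    intro r h ht hz h1 h2
    obtain ⟨h', ht', hz', e0, e1, e2, e3, e4, e5, e6⟩ := stepX (B := B) h ht hz h1 (by omega)
    obtain ⟨r', g1, g2, g3, g4, g5, g6, g7, g8, g9, g10⟩ :=
      ih (C.dd r r) h' ht' hz' (by omega) (by omega)
    exact ⟨r', g1, g2, g3, by omega, by omega, by omega, by omega, by omega, by omega, e6.cat g10⟩

lemma goB : ∀ (n : ℕ) (r : P.FSt), CU C.toRows r → C.tr (rho C.toRows r) →
    C.z2 (rho C.toRows r) = true → C.lo r + n ≤ C.nn r →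
    ∃ r', CU C.toRows r' ∧ C.tr (rho C.toRows r') ∧ C.z2 (rho C.toRows r') = true ∧
    C.lo r' = C.lo r ∧ C.nn r' + n = C.nn r ∧ C.tt r' = C.tt r ∧ C.uu r' = C.uu r ∧
    C.vv r' = C.vv r ∧ C.LL r' = C.LL r ∧ ChB C.canF B r.rL r'.rL := by
  intro n
  induction n with
  | zero =>
    intro r h ht hz h1
    exact ⟨r, h, ht, hz, rfl, rfl, rfl, rfl, rfl, rfl,
      ChB.refl ((act_rL h).2 ((notYY_iff h ht hz).2 h1))⟩
  | succ n ih =>
    intro r h ht hz h1
    -- the facet before r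
    set t := (dir (C.ng (rho C.toRows r))).symm r with htdef
    have hct : CU C.toRows t := (cu_dirs h _).1
    have hrt : rho C.toRows t = (dir (C.ng (rho C.toRows r))).symm (rho C.toRows r) :=
      cu_rho_dirs h _
    have hst : pE.SameCycle (rho C.toRows r) (rho C.toRows t) := by
      rw [hrt]; exact same_dirs _ _
    have hnt : C.ng (rho C.toRows t) = C.ng (rho C.toRows r) := ng_same h.lo_rho.rim hst
    have htt : C.tr (rho C.toRows t) := (tr_same h.lo_rho.rim hst).2 ht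
    have hzt : C.z2 (rho C.toRows t) = true := by rw [z2_same h.lo_rho.rim hst]; exact hz
    have hdt : C.dd t t = r := by
      unfold dd
      rw [hnt, htdef, Equiv.apply_symm_apply]
    obtain ⟨e1, e2, e3, e4, e5⟩ := row_D hct htt
    rw [hdt] at e1 e2 e3 e4 e5
    have hlo : C.lo t = C.lo r := by
      unfold lo
      rw [z1_same h.lo_rho.rim hst, e2]
    have e7 : C.nn r = C.nn t + 1 := by
      rw [e1]
      split_ifs at e1 ⊢ with h9
      · omega
      · rfl
    have o := (order h ht).1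
    obtain ⟨-, -, -, -, -, -, -, -, -, e6⟩ := stepX (B := B) hct htt hzt (by omega) (by omega)
    rw [hdt] at e6
    obtain ⟨r', g1, g2, g3, g4, g5, g6, g7, g8, g9, g10⟩ := ih t hct htt hzt (by omega)
    exact ⟨r', g1, g2, g3, by omega, by omega, by omega, by omega, by omega, by omega,
      e6.symm.cat g10⟩

lemma goTo (h : CU C.toRows r) (ht : C.tr (rho C.toRows r)) (hz : C.z2 (rho C.toRows r) = true)
    (h1 : C.lo r ≤ C.nn r) {n : ℕ} (hn : C.lo r ≤ n) (hn' : n < C.LL r) :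
    ∃ r', CU C.toRows r' ∧ C.tr (rho C.toRows r') ∧ C.z2 (rho C.toRows r') = true ∧
    C.lo r' = C.lo r ∧ C.nn r' = n ∧ C.tt r' = C.tt r ∧ C.uu r' = C.uu r ∧ C.vv r' = C.vv r ∧
    C.LL r' = C.LL r ∧ ChB C.canF B r.rL r'.rL := by
  rcases Nat.le_total n (C.nn r) with h2 | h2
  · obtain ⟨r', g1, g2, g3, g4, g5, g6, g7, g8, g9, g10⟩ :=
      goB (B := B) (C.nn r - n) r h ht hz (by omega)
    exact ⟨r', g1, g2, g3, g4, by omega, g6, g7, g8, g9, g10⟩
  · obtain ⟨r', g1, g2, g3, g4, g5, g6, g7, g8, g9, g10⟩ :=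
      goF (B := B) (n - C.nn r) r h ht hz h1 (by omega)
    exact ⟨r', g1, g2, g3, g4, by omega, g6, g7, g8, g9, g10⟩

/-- lines of the turned facets -/
lemma covX (h : CU C.toRows r) (ht : C.tr (rho C.toRows r)) (hz : C.z2 (rho C.toRows r) = true)
    (h1 : C.lo r ≤ C.nn r) : ∀ x < k, ∀ w, C.atab.RchB B r.rL x w := by
  intro x hx w
  obtain ⟨o1, o2, o3, o4⟩ := order h ht
  have hlo : C.lo r ≤ C.uu r := by unfold lo; split_ifs <;> omega
  by_cases hp : (if w then x else x + 1) ≤ C.m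
  · obtain ⟨r', g1, g2, g3, g4, g5, g6, g7, g8, g9, g10⟩ :=
      goTo (B := B) h ht hz h1 (n := C.uu r) hlo (by omega)
    refine Rch_cat g10 (Rch_port g10.act (cm_lt C) ?_)
    have hY : ¬ C.YY r' := (notYY_iff g1 g2 g3).2 (by omega)
    rw [PR_X g1 g2 hY, on_iff g1 g2]
    refine ⟨Or.inr ⟨by omega, by omega⟩, Or.inl ⟨?_, hp⟩⟩
    unfold cn
    rw [if_neg (by omega)]
    omega
  · obtain ⟨r', g1, g2, g3, g4, g5, g6, g7, g8, g9, g10⟩ :=
      goTo (B := B) h ht hz h1 (n := C.vv r) (by omega) (by omega)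
    refine Rch_cat g10 (Rch_port g10.act (cm_lt C) ?_)
    have hY : ¬ C.YY r' := (notYY_iff g1 g2 g3).2 (by omega)
    rw [PR_X g1 g2 hY, on_iff g1 g2]
    refine ⟨Or.inr ⟨by omega, by omega⟩, Or.inr ⟨?_, by omega⟩⟩
    unfold cn ct
    rw [if_neg (by omega), if_neg (by omega)]
    omega

/-- lines of the facets with north up -/
lemma covY (h : CU C.toRows r) (ht : C.tr (rho C.toRows r)) (hY : C.YY r) :
    ∀ x < k, ∀ w, C.atab.RchB B r x w := by
  cases hz : C.z2 (rho C.toRows r)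
  · exact cov_pp h ht hz
  · have h1 : ¬ C.lo r ≤ C.nn r := fun h2 => (notYY_iff h ht hz).2 h2 hY
    unfold lo at h1
    split_ifs at h1 with h2
    · exact absurd (Nat.zero_le _) h1
    · exact cov1 h ht (by simpa using h2) (by omega)

/-! ## Cut bands -/

lemma act_C (h : CU C.toRows r) (ht : ¬ C.tr (rho C.toRows r)) : Act C.canF r :=
  (act_r h).2 (YY_cut h ht)

/-- the lowest row, if the curve meets the lower rim -/
lemma covC1 (h : Lo C.toRows r) (ht : ¬ C.tr r) (hc : C.ac r) :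
    ∀ x < k, ∀ w, C.atab.RchB B r x w := by
  intro x hx w
  have hk := C.hk
  have hm := C.hm
  have e := h.rho
  have ht' : ¬ C.tr (rho C.toRows r) := by rw [e]; exact ht
  have hA := act_C h.CU ht'
  have hP : ∀ x y, C.PR r x y = true ↔
      y = C.m ∧ (C.na r = 0 → 0 < x) ∧ (C.na r + 1 = C.LL r → x < k) := by
    intro x y
    rw [PR_r h.CU]
    unfold TY
    rw [if_neg ht', if_pos ⟨h.2, by rw [e]; exact hc⟩, CP_true]
  obtain ⟨f1, f2⟩ := fa_cut1 h hc
  cases w
  · by_cases h1 : C.na r + 1 = C.LL r ∧ x = k - 1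
    · rw [h1.2]
      have hf := cfoot_s (B := B) h.rim ht (f2.2 h1.1)
      exact Rch_S hA hf.1 hf.2.1 hf.2.2
    · apply Rch_port hA (cm_lt C)
      rw [hP]
      simp only [Bool.false_eq_true, if_false]
      exact ⟨trivial, fun _ => by omega, fun _ => by omega⟩
  · by_cases h1 : C.na r = 0 ∧ x = 0
    · rw [h1.2]
      have hf := cfoot_n (B := B) h.rim ht (f1.2 h1.1)
      exact Rch_S hA hf.1 hf.2.1 hf.2.2
    · apply Rch_port hA (cm_lt C)
      rw [hP]
      simp only [if_true]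
      exact ⟨trivial, fun _ => by omega, fun _ => by omega⟩

/-- the highest row, if the curve meets the upper rim -/
lemma covC5 (h : CU C.toRows r) (h5 : C.rw r.facet = 5) (ht : ¬ C.tr (rho C.toRows r))
    (hc : C.ac r.r2) : ∀ x < k, ∀ w, C.atab.RchB B r.r2 x w := by
  intro x hx w
  have hk := C.hk
  have hm := C.hm
  have hr := rim5 h h5
  have htr : ¬ C.tr r.r2 := fun h1 => ht ((tr5 h h5).1 h1)
  have hA : Act C.canF r.r2 := (act_r2_iff' _ _).2 (act_C h ht)
  have hP : ∀ x y, x ≤ k → y < k → (C.PR r.r2 x y = true ↔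
      y = C.m ∧ (C.na' r = 0 → 0 < x) ∧ (C.na' r + 1 = C.LL r → x < k)) := by
    intro x y hx hy
    rw [PR_r2 h]
    unfold TY
    rw [if_neg ht, if_neg (by omega), if_pos ⟨h5, by rw [far_rho5 h h5]; exact hc⟩, CP_true,
      show k - (k - x) = x by omega, show k - 1 - (k - 1 - y) = y by omega]
  obtain ⟨f1, f2⟩ := fa_cut5 h h5 hc
  cases w
  · by_cases h1 : C.na' r + 1 = C.LL r ∧ x = k - 1
    · rw [h1.2]
      have hf := cfoot_s (B := B) hr htr (f2.2 h1.1)
      exact Rch_S hA hf.1 hf.2.1 hf.2.2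
    · apply Rch_port hA (cm_lt C)
      rw [hP _ _ (by simp; omega) (cm_lt C)]
      simp only [Bool.false_eq_true, if_false]
      exact ⟨trivial, fun _ => by omega, fun _ => by omega⟩
  · by_cases h1 : C.na' r = 0 ∧ x = 0
    · rw [h1.2]
      have hf := cfoot_n (B := B) hr htr (f1.2 h1.1)
      exact Rch_S hA hf.1 hf.2.1 hf.2.2
    · apply Rch_port hA (cm_lt C)
      rw [hP _ _ (by simp; omega) (cm_lt C)]
      simp only [if_true]
      exact ⟨trivial, fun _ => by omega, fun _ => by omega⟩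

/-- going up in a cut band -/
lemma chC : ∀ (n : ℕ) (r : P.FSt), CU C.toRows r → ¬ C.tr (rho C.toRows r) →
    C.rw r.facet + n ≤ 5 → ChB C.canF B r ((pN ^ n) r) ∧
    rho C.toRows ((pN ^ n) r) = rho C.toRows r := by
  intro n
  induction n with
  | zero => intro r h ht _; exact ⟨ChB.refl (act_C h ht), rfl⟩
  | succ n ih =>
    intro r h ht hn
    obtain ⟨h1, h2⟩ := h.stN (by omega)
    have e := h.rho_N (by omega)
    have h3 := ih r.stN h1 (by rw [e]; exact ht) (by omega)
    rw [pow_succ, Equiv.Perm.mul_apply]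
    exact ⟨(ChB.N (act_C h ht) (act_C h1 (by rw [e]; exact ht)) (bN h.2 h1.2)).cat h3.1,
      h3.2.trans e⟩

/-- lines of a cut band -/
lemma covC (h : CU C.toRows r) (ht : ¬ C.tr (rho C.toRows r)) :
    ∀ x < k, ∀ w, C.atab.RchB B r x w := by
  intro x hx w
  have hl := h.lo_rho
  have h0 := h.2
  have h5 := C.le5 r.facet
  have c1 : ChB C.canF B (rho C.toRows r) r := by
    have := (chC (B := B) (C.rw r.facet - 1) (rho C.toRows r) hl.CU (by rw [hl.rho]; exact ht)
      (by rw [hl.2]; omega)).1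
    rwa [h.rho_up] at this
  rcases C.ac_far _ hl.rim with hc | hc
  · exact Rch_cat c1.symm (covC1 hl ht hc x hx w)
  · obtain ⟨c2, c3⟩ := chC (B := B) (5 - C.rw r.facet) r h ht (by omega)
    obtain ⟨g1, g2, -⟩ := h.upw (5 - C.rw r.facet) (by omega)
    have g3 : C.rw ((pN ^ (5 - C.rw r.facet)) r).facet = 5 := by rw [g2]; omega
    have ht' : ¬ C.tr (rho C.toRows ((pN ^ (5 - C.rw r.facet)) r)) := by rw [c3]; exact ht
    have e := far_rho5 g1 g3
    rw [c3] at e
    rw [e] at hc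
    exact Rch_cat c2 (Rch_all_rot (covC5 g1 g3 ht' hc) x hx w)


end JX0

end Pool.Agent.MP42X
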