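import Pool.Agent.MP42.X.Defs
import Pool.Agent.MP42.H.Glue

/-!
# The direction of the runs
-/

set_option autoImplicit false
set_option linter.unusedSectionVars false

namespace Pool.Agent.MP42X

open Pool.Agent.Helper55.UNF Pool.Agent.MP42G Pool.Agent.MP42H
open Pool.Agent.Helper55.UNF.GridSolid hiding len

variable {P : GridSolid}

lemma dir_false : dir (P := P) false = pE := rfl

lemma dir_true : dir (P := P) true = pE.symm := rfl

lemma sc_symm {X : Type*} {π : Equiv.Perm X} {a b : X} :
    Equiv.Perm.SameCycle π.symm a b ↔ π.SameCycle a b := by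
  have : π.symm = π⁻¹ := rfl
  rw [this, Equiv.Perm.sameCycle_inv]

lemma sc_dir {b : Bool} {r s : P.FSt} : (dir b).SameCycle r s ↔ pE.SameCycle r s := by
  cases b
  · rw [dir_false]
  · rw [dir_true, sc_symm]

lemma sc_dirs {b : Bool} {r s : P.FSt} :
    Equiv.Perm.SameCycle (dir b).symm r s ↔ pE.SameCycle r s := by
  rw [sc_symm, sc_dir]

lemma len_symm {X : Type*} [Finite X] (π : Equiv.Perm X) (s : X) : len π.symm s = len π s := by
  have key : ∀ n, (π.symm ^ n) s = s ↔ (π ^ n) s = s := by
    intro n
    constructor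
    · intro h
      have := pow_cancel π n s
      rw [h] at this
      exact this
    · intro h
      have := pow_cancel' π n s
      rw [h] at this
      exact this
  unfold len
  apply Nat.dvd_antisymm
  · apply Function.IsPeriodicPt.minimalPeriod_dvd
    show (π.symm)^[_] _ = _
    rw [← pow_iter, key, pow_iter]
    exact Function.isPeriodicPt_minimalPeriod π s
  · apply Function.IsPeriodicPt.minimalPeriod_dvd
    show (π)^[_] _ = _
    rw [← pow_iter, ← key, pow_iter]
    exact Function.isPeriodicPt_minimalPeriod π.symm s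

lemma len_dir (b : Bool) (s : P.FSt) : len (dir b) s = len pE s := by
  cases b
  · rfl
  · rw [dir_true, len_symm]

lemma same_dir (b : Bool) (s : P.FSt) : pE.SameCycle s (dir b s) :=
  sc_dir.1 ⟨1, by rw [zpow_one]⟩

lemma same_dir_pow (b : Bool) (s : P.FSt) (n : ℕ) : pE.SameCycle s ((dir b ^ n) s) :=
  sc_dir.1 (same_of_eq rfl)

lemma same_dirs (b : Bool) (s : P.FSt) : pE.SameCycle s ((dir b).symm s) :=
  sc_dirs.1 ⟨1, by rw [zpow_one]⟩

variable {R : Rows P} {r s : P.FSt}

lemma cu_dir (h : CU R r) (b : Bool) : CU R (dir b r) ∧ R.rw (dir b r).facet = R.rw r.facet := by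
  cases b
  · exact h.stE
  · exact h.W

lemma cu_dirs (h : CU R r) (b : Bool) : CU R ((dir b).symm r) ∧
    R.rw ((dir b).symm r).facet = R.rw r.facet := by
  cases b
  · exact h.W
  · exact h.stE

lemma cu_rhoW (h : CU R r) : rho R (pE.symm r) = pE.symm (rho R r) := by
  have h1 := h.W.1.rho_E
  rw [stE_pE_symm] at h1
  rw [h1, pE_s]

lemma cu_rho_dir (h : CU R r) (b : Bool) : rho R (dir b r) = dir b (rho R r) := by
  cases b
  · exact h.rho_E
  · exact cu_rhoW h

lemma cu_rho_dirs (h : CU R r) (b : Bool) : rho R ((dir b).symm r) = (dir b).symm (rho R r) := by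
  cases b
  · exact cu_rhoW h
  · exact h.rho_E

lemma lo_dir (h : Lo R r) (b : Bool) : Lo R (dir b r) := h.same (same_dir b r)

lemma lo_far_dir (h : Lo R r) (b : Bool) : Rows.far (dir b r) = (dir b).symm (Rows.far r) := by
  cases b
  · exact h.far_E
  · have h1 := (h.same (same_dir true r)).far_E
    have e : (dir true r).stE = r := stE_pE_symm r
    rw [e] at h1
    rw [h1]
    exact (Equiv.apply_symm_apply pE _).symm

lemma lo_far_dir_pow (h : Lo R r) (b : Bool) (n : ℕ) :
    Rows.far ((dir b ^ n) r) = ((dir b).symm ^ n) (Rows.far r) := by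
  induction n with
  | zero => rfl
  | succ n ih =>
    rw [pow_succ', Equiv.Perm.mul_apply, lo_far_dir (h.same (same_dir_pow b r n)) b, ih, pow_succ',
      Equiv.Perm.mul_apply]

lemma lo_dir_pow_far (h : Lo R r) (b : Bool) (n : ℕ) :
    (dir b ^ n) (Rows.far r) = Rows.far (((dir b).symm ^ n) r) := by
  have h4 : Lo R (((dir b).symm ^ n) r) := by
    apply h.same
    have := pow_cancel (dir b) n r
    exact (sc_dir.1 (same_of_eq this)).symm
  have h5 := lo_far_dir_pow h4 b n
  rw [pow_cancel] at h5
  rw [h5, pow_cancel]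

end Pool.Agent.MP42X
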