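import Pool.Agent.MP42.X.Glue

/-!
# The state table of a certificate: the sides of the core facets
-/

set_option autoImplicit false
set_option linter.unusedSectionVars false

namespace Pool.Agent.MP42X

open Pool.Agent.Helper55.UNF Pool.Agent.MP42G Pool.Agent.MP42H
open Pool.Agent.Helper55.UNF.GridSolid hiding len

variable {P : GridSolid}

namespace JX0

variable {k : ℕ} {C : JX0 P k} {r s : P.FSt}

lemma bool_eq_iff {a b : Bool} (h : a = true ↔ b = true) : a = b := by
  cases a <;> cases b <;> simp_all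

/-! ## Tree bands -/

/-- the front side is used -/
def fr (C : JX0 P k) (r : P.FSt) : Prop := C.nn r < C.tt r ∨ (C.uu r ≤ C.nn r ∧ C.nn r < C.vv r)

/-- the back side is used -/
def bk (C : JX0 P k) (r : P.FSt) : Prop :=
  (0 < C.nn r ∧ C.nn r ≤ C.tt r) ∨ (C.uu r < C.nn r ∧ C.nn r ≤ C.vv r)

/-- the top side is used -/
def tp (C : JX0 P k) (r : P.FSt) : Prop := C.nn r = C.tt r ∨ C.nn r = C.vv r

/-- the bottom side is used -/
def bt (C : JX0 P k) (r : P.FSt) : Prop := C.nn r = 0 ∨ C.nn r = C.uu r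

/-- the east side is used -/
def es (C : JX0 P k) (r : P.FSt) : Prop := if C.ng (rho C.toRows r) then C.bk r else C.fr r

/-- the west side is used -/
def ws (C : JX0 P k) (r : P.FSt) : Prop := if C.ng (rho C.toRows r) then C.fr r else C.bk r

section Tree

variable (h : CU C.toRows r) (ht : C.tr (rho C.toRows r))

include h ht

lemma ci_lt : C.ci r < k := by
  have hk := C.hk
  have hm := C.hm
  unfold ci
  split_ifs <;> omega

lemma co_lt : C.co r < k := by
  have hk := C.hk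
  have hm := C.hm
  unfold co
  split_ifs <;> omega

lemma ci_le_co : C.cn r = 0 → C.cn r = C.ct r → C.ci r ≤ C.co r := by
  have hk := C.hk
  have hm := C.hm
  intro _ _
  unfold ci co
  split_ifs <;> omega

lemma on_iff : C.on r = true ↔ C.nn r ≤ C.tt r ∨ (C.uu r ≤ C.nn r ∧ C.nn r ≤ C.vv r) := by
  unfold on
  rw [decide_eq_true_iff]

lemma WV_front {y : ℕ} : C.WV r k y = true ↔ y = C.m ∧ C.fr r := by
  obtain ⟨o1, o2, o3, o4⟩ := order h ht
  have h1 := ci_lt h ht
  have h2 := co_lt h ht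
  unfold WV fr
  rw [KV_true, on_iff h ht]
  unfold cn ct
  split_ifs <;> omega

lemma WV_back {y : ℕ} : C.WV r 0 y = true ↔ y = C.m ∧ C.bk r := by
  obtain ⟨o1, o2, o3, o4⟩ := order h ht
  unfold WV bk
  rw [KV_true, on_iff h ht]
  unfold cn ct
  split_ifs <;> omega

lemma m_lt' : C.m < k := by have := C.hk; omega

lemma WH_top {x : ℕ} : C.WH r x k = true ↔ x = C.co r ∧ C.tp r := by
  obtain ⟨o1, o2, o3, o4⟩ := order h ht
  have hk := C.hk
  unfold WH tp
  rw [KH_true, on_iff h ht]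
  unfold cn ct
  split_ifs <;> omega

lemma WH_bot {x : ℕ} : C.WH r x 0 = true ↔ x = C.ci r ∧ C.bt r := by
  obtain ⟨o1, o2, o3, o4⟩ := order h ht
  unfold WH bt
  rw [KH_true, on_iff h ht]
  unfold cn ct
  split_ifs <;> omega

/-- the label of the strand at the facet -/
lemma YY_iff : C.YY r ↔
    (if C.nn r ≤ C.tt r then C.z1 (rho C.toRows r) else C.z2 (rho C.toRows r)) = false :=
  ⟨fun h1 => h1 ht, fun h1 _ => h1⟩

lemma ci_turned (hY : ¬ C.YY r) : C.ci r = C.m ∧ C.co r = C.m := by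
  rw [YY_iff h ht, Bool.not_eq_false] at hY
  unfold ci co
  split_ifs at hY with h1
  · rw [if_pos h1, if_pos h1, if_pos hY, if_pos hY]
    exact ⟨rfl, rfl⟩
  · rw [if_neg h1, if_neg h1, if_pos hY, if_pos hY]
    exact ⟨rfl, rfl⟩

lemma EV_r_tree {y : ℕ} : C.EV r y = true ↔ y = C.m ∧ C.YY r ∧ C.es r := by
  unfold EV es
  by_cases h1 : C.YY r
  · rw [if_pos ((act_r h).2 h1), PR_r h]
    unfold TY nP
    rw [if_pos ht]
    cases C.ng (rho C.toRows r)
    · simp only [Bool.false_eq_true, if_false]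
      rw [WV_front h ht]
      tauto
    · simp only [if_true]
      rw [Nat.sub_self, WV_back h ht]
      tauto
  · rw [if_neg (fun h' => h1 ((act_r h).1 h'))]
    constructor
    · intro h2; exact absurd h2 (by simp)
    · rintro ⟨_, h3, _⟩; exact absurd h3 h1

lemma EV_r2_tree {y : ℕ} (hy : y < k) : C.EV r.r2 y = true ↔ y = C.m ∧ C.YY r ∧ C.ws r := by
  have hk := C.hk
  have e : k - 1 - y = C.m ↔ y = C.m := by omega
  unfold EV ws
  by_cases h1 : C.YY r
  · rw [if_pos ((act_r2 h).2 h1), PR_r2 h]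
    unfold TY nP
    rw [if_pos ht, Nat.sub_self]
    cases C.ng (rho C.toRows r)
    · simp only [Bool.false_eq_true, if_false]
      rw [WV_back h ht, e]
      tauto
    · simp only [if_true]
      rw [Nat.sub_zero, WV_front h ht, e]
      tauto
  · rw [if_neg (fun h' => h1 ((act_r2 h).1 h'))]
    constructor
    · intro h2; exact absurd h2 (by simp)
    · rintro ⟨_, h3, _⟩; exact absurd h3 h1

lemma EV_rL_tree {y : ℕ} (hy : y < k) : C.EV r.rL y = true ↔ y = C.m ∧ ¬ C.YY r ∧ C.tp r := by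
  have hk := C.hk
  unfold EV
  by_cases h1 : C.YY r
  · rw [if_neg (fun h' => (act_rL h).1 h' h1)]
    constructor
    · intro h2; exact absurd h2 (by simp)
    · rintro ⟨_, h3, _⟩; exact absurd h1 h3
  · rw [if_pos ((act_rL h).2 h1), PR_rL h]
    unfold TX tP
    rw [WH_top h ht, (ci_turned h ht h1).2]
    cases C.ng (rho C.toRows r)
    · simp only [Bool.false_eq_true, if_false]
      constructor
      · rintro ⟨h2, h3⟩; exact ⟨by omega, h1, h3⟩
      · rintro ⟨h2, _, h3⟩; exact ⟨by omega, h3⟩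
    · simp only [if_true]
      tauto

lemma EV_rR_tree {y : ℕ} (hy : y < k) : C.EV r.rR y = true ↔ y = C.m ∧ ¬ C.YY r ∧ C.bt r := by
  have hk := C.hk
  unfold EV
  by_cases h1 : C.YY r
  · rw [if_neg (fun h' => (act_rR h).1 h' h1)]
    constructor
    · intro h2; exact absurd h2 (by simp)
    · rintro ⟨_, h3, _⟩; exact absurd h1 h3
  · rw [if_pos ((act_rR h).2 h1), PR_rR h]
    unfold TX tP
    rw [Nat.sub_self, WH_bot h ht, (ci_turned h ht h1).1]
    cases C.ng (rho C.toRows r)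
    · simp only [Bool.false_eq_true, if_false]
      constructor
      · rintro ⟨h2, h3⟩; exact ⟨by omega, h1, h3⟩
      · rintro ⟨h2, _, h3⟩; exact ⟨by omega, h3⟩
    · simp only [if_true]
      constructor
      · rintro ⟨h2, h3⟩; exact ⟨by omega, h1, h3⟩
      · rintro ⟨h2, _, h3⟩; exact ⟨by omega, h3⟩

/-- column in the frame of the run -/
def mx (k : ℕ) (b : Bool) (x : ℕ) : ℕ := if b then k - 1 - x else x

open Classical in
lemma NV_r_tree {x : ℕ} : C.NV r x =
    if C.YY r ∧ C.tp r ∧ mx k (C.ng (rho C.toRows r)) x = C.co r then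
      flet (C.ng (rho C.toRows r)) else Ln.z := by
  unfold NV
  by_cases h1 : C.YY r
  · rw [if_pos ((act_r h).2 h1), LA_r h]
    unfold LY nL
    rw [if_pos ht]
    congr 1
    apply propext
    unfold mx
    rw [WH_top h ht]
    tauto
  · rw [if_neg (fun h' => h1 ((act_r h).1 h')), if_neg]
    rintro ⟨h2, _⟩; exact h1 h2

open Classical in
lemma NV_r2_tree {x : ℕ} (hx : x < k) : C.NV r.r2 (k - 1 - x) =
    if C.YY r ∧ C.bt r ∧ mx k (C.ng (rho C.toRows r)) x = C.ci r then
      flet (C.ng (rho C.toRows r)) else Ln.z := by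
  unfold NV
  by_cases h1 : C.YY r
  · rw [if_pos ((act_r2 h).2 h1), LA_r2 h, Nat.sub_self, show k - 1 - (k - 1 - x) = x by omega]
    unfold LY nL
    rw [if_pos ht]
    congr 1
    apply propext
    unfold mx
    rw [WH_bot h ht]
    tauto
  · rw [if_neg (fun h' => h1 ((act_r2 h).1 h')), if_neg]
    rintro ⟨h2, _⟩; exact h1 h2

open Classical in
lemma NV_rL_tree {x : ℕ} : C.NV r.rL x =
    if x = C.m ∧ ¬ C.YY r ∧ C.ws r then flet (!C.ng (rho C.toRows r)) else Ln.z := by
  unfold NV ws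
  by_cases h1 : C.YY r
  · rw [if_neg (fun h' => (act_rL h).1 h' h1), if_neg]
    rintro ⟨_, h2, _⟩; exact h2 h1
  · rw [if_pos ((act_rL h).2 h1), LA_rL h]
    unfold LX tL
    congr 1
    apply propext
    cases C.ng (rho C.toRows r)
    · simp only [Bool.false_eq_true, if_false]
      rw [Nat.sub_self, WV_back h ht]
      tauto
    · simp only [if_true]
      rw [WV_front h ht]
      tauto

open Classical in
lemma NV_rR_tree {x : ℕ} (hx : x < k) : C.NV r.rR x =
    if x = C.m ∧ ¬ C.YY r ∧ C.es r then flet (!C.ng (rho C.toRows r)) else Ln.z := by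
  have hk := C.hk
  have e : k - 1 - x = C.m ↔ x = C.m := by omega
  unfold NV es
  by_cases h1 : C.YY r
  · rw [if_neg (fun h' => (act_rR h).1 h' h1), if_neg]
    rintro ⟨_, h2, _⟩; exact h2 h1
  · rw [if_pos ((act_rR h).2 h1), LA_rR h, Nat.sub_self]
    unfold LX tL
    congr 1
    apply propext
    cases C.ng (rho C.toRows r)
    · simp only [Bool.false_eq_true, if_false]
      rw [Nat.sub_zero, WV_front h ht, e]
      tauto
    · simp only [if_true]
      rw [WV_back h ht, e]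
      tauto

/-! steps -/

lemma fr_bk : (C.fr r ↔ C.bk (C.dd r r)) ∧ (C.fr r → (C.YY r ↔ C.YY (C.dd r r))) := by
  obtain ⟨e1, e2, e3, e4, e5⟩ := row_D h ht
  obtain ⟨o1, o2, o3, o4⟩ := order h ht
  have hs : pE.SameCycle (rho C.toRows r) (dir (C.ng (rho C.toRows r)) (rho C.toRows r)) :=
    same_dir _ _
  have hr : rho C.toRows (C.dd r r) = dir (C.ng (rho C.toRows r)) (rho C.toRows r) :=
    cu_rho_dir h _
  have ht' : C.tr (rho C.toRows (C.dd r r)) := by
    rw [hr]; exact (tr_same h.lo_rho.rim hs).2 ht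
  constructor
  · unfold fr bk
    rw [e1, e2, e3, e4]
    split_ifs <;> omega
  · intro h1
    rw [YY_iff h ht, YY_iff (cu_D h).1 ht', hr, z1_same h.lo_rho.rim hs,
      z2_same h.lo_rho.rim hs, e1, e2]
    unfold fr at h1
    rw [if_neg (show ¬ C.nn r + 1 = C.LL r by omega)]
    by_cases h2 : C.nn r ≤ C.tt r
    · rw [if_pos h2, if_pos (show C.nn r + 1 ≤ C.tt r by omega)]
    · rw [if_neg h2, if_neg (show ¬ C.nn r + 1 ≤ C.tt r by omega)]

lemma tp_bt (h5 : C.rw r.facet ≠ 5) : (C.tp r ↔ C.bt r.stN) ∧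
    (C.tp r → C.co r = C.ci r.stN ∧ (C.YY r ↔ C.YY r.stN)) := by
  obtain ⟨e1, e2, e3⟩ := row_N h ht h5
  obtain ⟨o1, o2, o3, o4⟩ := order h ht
  have h' := (h.stN h5).1
  have hw : C.rw r.stN.facet = C.rw r.facet + 1 := (h.stN h5).2
  have hr := h.rho_N h5
  have ht' : C.tr (rho C.toRows r.stN) := by rw [hr]; exact ht
  obtain ⟨p1, p2, p3, p4⟩ := order h' ht'
  have h0 := h.2
  have h6 := C.le5 r.facet
  constructor
  · unfold tp bt
    rw [e1, e2]
  · intro h1
    have h2 : (C.nn r ≤ C.tt r ↔ C.nn r.stN ≤ C.tt r.stN) := by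
      unfold tp at h1
      omega
    constructor
    · unfold co ci
      rw [hr, hw]
      by_cases h3 : C.nn r ≤ C.tt r
      · rw [if_pos h3, if_pos (h2.1 h3), if_neg h5, if_neg (show ¬ C.rw r.facet + 1 = 1 by omega)]
      · rw [if_neg h3, if_neg (fun h4 => h3 (h2.2 h4))]
        congr 1
        split_ifs <;> omega
    · rw [YY_iff h ht, YY_iff h' ht', hr]
      by_cases h3 : C.nn r ≤ C.tt r
      · rw [if_pos h3, if_pos (h2.1 h3)]
      · rw [if_neg h3, if_neg (fun h4 => h3 (h2.2 h4))]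

end Tree

lemma es_ws (h : CU C.toRows r) (ht : C.tr (rho C.toRows r)) : (C.es r ↔ C.ws r.stE) ∧
    (C.es r → (C.YY r ↔ C.YY r.stE)) := by
  have hn : C.ng (rho C.toRows r.stE) = C.ng (rho C.toRows r) := by
    rw [h.rho_E]; exact C.ng_E _ h.lo_rho.rim
  have ht' : C.tr (rho C.toRows r.stE) := by
    rw [h.rho_E]; exact (C.tr_E _ h.lo_rho.rim).2 ht
  unfold es ws
  rw [hn]
  by_cases hb : C.ng (rho C.toRows r) = true
  · rw [if_pos hb, if_pos hb]
    have e : C.dd r.stE r.stE = r := by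
      unfold dd
      rw [hn, hb, dir_true, pE_s]
    have h1 := fr_bk h.stE.1 ht'
    rw [e] at h1
    exact ⟨h1.1.symm, fun h2 => (h1.2 (h1.1.2 h2)).symm⟩
  · rw [if_neg hb, if_neg hb]
    have e : C.dd r r = r.stE := by
      unfold dd
      rw [Bool.not_eq_true _ |>.mp hb, dir_false, pE_apply]
    have h1 := fr_bk h ht
    rw [e] at h1
    exact h1

/-! ## Cut bands -/

section Cut

variable (h : CU C.toRows r) (ht : ¬ C.tr (rho C.toRows r))

include h ht

lemma YY_cut : C.YY r := fun h1 => absurd h1 ht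

lemma EV_r_cut {y : ℕ} (hy : y < k) : C.EV r y = true ↔ y = C.m ∧
    ((C.rw r.facet = 1 ∧ C.ac (rho C.toRows r) ∧ C.na r + 1 ≠ C.LL r) ∨
     (C.rw r.facet = 5 ∧ C.ac (Rows.far (rho C.toRows r)) ∧ C.na' r ≠ 0)) := by
  have hk := C.hk
  have hm := C.hm
  unfold EV
  rw [if_pos ((act_r h).2 (YY_cut h ht)), PR_r h]
  unfold TY
  rw [if_neg ht]
  by_cases h1 : C.rw r.facet = 1 ∧ C.ac (rho C.toRows r)
  · rw [if_pos h1, CP_true]
    constructor
    · rintro ⟨h2, h3, h4⟩
      exact ⟨h2, Or.inl ⟨h1.1, h1.2, by omega⟩⟩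
    · rintro ⟨h2, h3 | h3⟩
      · exact ⟨h2, by omega, by omega⟩
      · omega
  · rw [if_neg h1]
    by_cases h5 : C.rw r.facet = 5 ∧ C.ac (Rows.far (rho C.toRows r))
    · rw [if_pos h5, CP_true]
      constructor
      · rintro ⟨h2, h3, h4⟩
        exact ⟨by omega, Or.inr ⟨h5.1, h5.2, by omega⟩⟩
      · rintro ⟨h2, h3 | h3⟩
        · omega
        · exact ⟨by omega, by omega, by omega⟩
    · rw [if_neg h5]
      constructor
      · intro h2; exact absurd h2 (by simp)
      · rintro ⟨h2, h3 | h3⟩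
        · exact absurd ⟨h3.1, h3.2.1⟩ h1
        · exact absurd ⟨h3.1, h3.2.1⟩ h5

lemma EV_r2_cut {y : ℕ} (hy : y < k) : C.EV r.r2 y = true ↔ y = C.m ∧
    ((C.rw r.facet = 1 ∧ C.ac (rho C.toRows r) ∧ C.na r ≠ 0) ∨
     (C.rw r.facet = 5 ∧ C.ac (Rows.far (rho C.toRows r)) ∧ C.na' r + 1 ≠ C.LL r)) := by
  have hk := C.hk
  have hm := C.hm
  unfold EV
  rw [if_pos ((act_r2 h).2 (YY_cut h ht)), PR_r2 h]
  unfold TY
  rw [if_neg ht]
  by_cases h1 : C.rw r.facet = 1 ∧ C.ac (rho C.toRows r)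
  · rw [if_pos h1, CP_true]
    constructor
    · rintro ⟨h2, h3, h4⟩
      exact ⟨by omega, Or.inl ⟨h1.1, h1.2, by omega⟩⟩
    · rintro ⟨h2, h3 | h3⟩
      · exact ⟨by omega, by omega, by omega⟩
      · omega
  · rw [if_neg h1]
    by_cases h5 : C.rw r.facet = 5 ∧ C.ac (Rows.far (rho C.toRows r))
    · rw [if_pos h5, CP_true]
      constructor
      · rintro ⟨h2, h3, h4⟩
        exact ⟨by omega, Or.inr ⟨h5.1, h5.2, by omega⟩⟩
      · rintro ⟨h2, h3 | h3⟩
        · omega
        · exact ⟨by omega, by omega, by omega⟩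
    · rw [if_neg h5]
      constructor
      · intro h2; exact absurd h2 (by simp)
      · rintro ⟨h2, h3 | h3⟩
        · exact absurd ⟨h3.1, h3.2.1⟩ h1
        · exact absurd ⟨h3.1, h3.2.1⟩ h5

lemma EV_rL_cut {y : ℕ} : C.EV r.rL y = false := by
  unfold EV
  rw [if_neg (fun h' => (act_rL h).1 h' (YY_cut h ht))]

lemma EV_rR_cut {y : ℕ} : C.EV r.rR y = false := by
  unfold EV
  rw [if_neg (fun h' => (act_rR h).1 h' (YY_cut h ht))]

lemma NV_rL_cut {x : ℕ} : C.NV r.rL x = Ln.z := by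
  unfold NV
  rw [if_neg (fun h' => (act_rL h).1 h' (YY_cut h ht))]

lemma NV_rR_cut {x : ℕ} : C.NV r.rR x = Ln.z := by
  unfold NV
  rw [if_neg (fun h' => (act_rR h).1 h' (YY_cut h ht))]

open Classical in
lemma NV_r_cut {x : ℕ} (hx : x < k) : C.NV r x =
    if C.rw r.facet = 5 ∧ C.ac (Rows.far (rho C.toRows r)) then
      CL C.m k (C.na' r) (C.LL r) (k - 1 - x) 0 else Ln.z := by
  have hk := C.hk
  have hm := C.hm
  unfold NV
  rw [if_pos ((act_r h).2 (YY_cut h ht)), LA_r h]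
  unfold LY
  rw [if_neg ht]
  by_cases h1 : C.rw r.facet = 1 ∧ C.ac (rho C.toRows r)
  · rw [if_pos h1, if_neg (by omega)]
    unfold CL
    rw [if_neg (by omega), if_neg (by omega)]
  · rw [if_neg h1, Nat.sub_self]

open Classical in
lemma NV_r2_cut {x : ℕ} (hx : x < k) : C.NV r.r2 x =
    if C.rw r.facet = 1 ∧ C.ac (rho C.toRows r) then
      CL C.m k (C.na r) (C.LL r) (k - 1 - x) 0 else Ln.z := by
  have hk := C.hk
  have hm := C.hm
  unfold NV
  rw [if_pos ((act_r2 h).2 (YY_cut h ht)), LA_r2 h, Nat.sub_self]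
  unfold LY
  rw [if_neg ht]
  by_cases h1 : C.rw r.facet = 1 ∧ C.ac (rho C.toRows r)
  · rw [if_pos h1, if_pos h1]
  · rw [if_neg h1, if_neg h1]
    split_ifs with h5
    · unfold CL
      rw [if_neg (by omega), if_neg (by omega)]
    · rfl

end Cut

/-! ## Facets of the junctions -/

lemma EV_J {q : P.FSt} (h : C.rw q.facet = 0) {y : ℕ} : C.EV q.rL y = wo k C.can C.pr q y := by
  unfold EV wo
  have h0 : C.rw q.rL.facet = 0 := by rw [FSt.facet_rL]; exact h
  by_cases h1 : C.can q.facet = q.rL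
  · rw [if_pos ((act_J h0).2 (Or.inl (by rw [FSt.facet_rL]; exact h1))), if_pos h1,
      PR_J h0 (by rw [FSt.facet_rL]; exact h1), FSt.facet_rL]
  · rw [if_neg h1]
    by_cases h2 : C.can q.facet = q.rR
    · rw [if_pos ((act_J h0).2 (Or.inr (by rw [FSt.facet_rL, FSt.rL_r2]; exact h2))), if_pos h2,
        PR_J2 h0 (by rw [FSt.facet_rL, FSt.rL_r2]; exact h2), FSt.facet_rL, Nat.sub_self]
    · rw [if_neg h2, if_neg]
      rw [act_J h0, FSt.facet_rL, FSt.rL_r2]
      rintro (h3 | h3)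
      · exact h1 h3
      · exact h2 h3

lemma NV_J {q : P.FSt} (h : C.rw q.facet = 0) {x : ℕ} : C.NV q x = wn k C.can C.la q x := by
  unfold NV wn
  by_cases h1 : C.can q.facet = q
  · rw [if_pos ((act_J h).2 (Or.inl h1)), if_pos h1, LA_J h h1]
  · rw [if_neg h1]
    by_cases h2 : C.can q.facet = q.r2
    · rw [if_pos ((act_J h).2 (Or.inr h2)), if_pos h2, LA_J2 h h2, Nat.sub_self]
    · rw [if_neg h2, if_neg]
      rw [act_J h]
      rintro (h3 | h3)
      · exact h1 h3
      · exact h2 h3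

end JX0

end Pool.Agent.MP42X
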