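import Pool.Agent.MP42.X.Glue2
import Pool.Agent.MP42.H.Glue3

/-!
# The state table of a certificate: the sides fit together
-/

set_option autoImplicit false
set_option linter.unusedSectionVars false

namespace Pool.Agent.MP42X

open Pool.Agent.Helper55.UNF Pool.Agent.MP42G Pool.Agent.MP42H
open Pool.Agent.Helper55.UNF.GridSolid hiding len

variable {P : GridSolid}

namespace JX0

variable {k : ℕ} {C : JX0 P k} {r s : P.FSt}

/-- the east side of `s` fits -/
def GE (C : JX0 P k) (s : P.FSt) : Prop := ∀ y < k, C.EV s y = C.EV s.stE.r2 (k - 1 - y)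

/-- the north side of `s` fits -/
def GN (C : JX0 P k) (s : P.FSt) : Prop := ∀ x < k, C.NV s x = C.NV s.stN.r2 (k - 1 - x)

lemma GE.sym {s : P.FSt} (h : C.GE s) : C.GE s.stE.r2 := by
  intro y hy
  have h1 := h (k - 1 - y) (by omega)
  rw [show k - 1 - (k - 1 - y) = y by omega] at h1
  rw [FSt.stE_inv, FSt.r2_r2, h1]

lemma GN.sym {s : P.FSt} (h : C.GN s) : C.GN s.stN.r2 := by
  intro y hy
  have h1 := h (k - 1 - y) (by omega)
  rw [show k - 1 - (k - 1 - y) = y by omega] at h1
  rw [FSt.stN_inv, FSt.r2_r2, h1]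

/-! ## core - core -/

lemma GE_core (h : CU C.toRows r) : C.GE r := by
  intro y hy
  have h' := h.stE.1
  have hw := h.stE.2
  apply bool_eq_iff
  by_cases ht : C.tr (rho C.toRows r)
  · have ht' := (tr_rho_E h).2 ht
    have hk := C.hk
    obtain ⟨e1, e2⟩ := es_ws h ht
    rw [EV_r_tree h ht, EV_r2_tree h' ht' (by omega), ← e1]
    constructor
    · rintro ⟨h1, h2, h3⟩; exact ⟨by omega, (e2 h3).1 h2, h3⟩
    · rintro ⟨h1, h2, h3⟩; exact ⟨by omega, (e2 h3).2 h2, h3⟩
  · have ht' : ¬ C.tr (rho C.toRows r.stE) := fun h1 => ht ((tr_rho_E h).1 h1)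
    have hk := C.hk
    rw [EV_r_cut h ht hy, EV_r2_cut h' ht' (by omega), hw, ac_rho_E h, ac_far_E h, LL_E h]
    have a1 : C.ac (rho C.toRows r) → (C.na r + 1 ≠ C.LL r ↔ C.na r.stE ≠ 0) := by
      intro hc
      have := na_lt h hc
      rw [na_E h hc]
      by_cases h8 : C.na r + 1 = C.LL r
      · rw [if_pos h8]; constructor <;> intro h9 <;> first | exact absurd h8 h9 | exact absurd rfl h9
      · rw [if_neg h8]; constructor <;> intro _ <;> omega
    have a2 : C.ac (Rows.far (rho C.toRows r)) → (C.na' r ≠ 0 ↔ C.na' r.stE + 1 ≠ C.LL r) := by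
      intro hc
      have h2 : C.ac (Rows.far (rho C.toRows r.stE)) := (ac_far_E h).2 hc
      have := na'_lt h' h2
      rw [LL_E h] at this
      rw [na'_E h hc]
      by_cases h8 : C.na' r.stE + 1 = C.LL r
      · rw [if_pos h8]; constructor <;> intro h9 <;> first | exact absurd h8 h9 | exact absurd rfl h9
      · rw [if_neg h8]; constructor <;> intro _ <;> omega
    have b : y = C.m ↔ k - 1 - y = C.m := by omega
    constructor
    · rintro ⟨h1, ⟨h2, h3, h4⟩ | ⟨h2, h3, h4⟩⟩
      · exact ⟨b.1 h1, Or.inl ⟨h2, h3, (a1 h3).1 h4⟩⟩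
      · exact ⟨b.1 h1, Or.inr ⟨h2, h3, (a2 h3).1 h4⟩⟩
    · rintro ⟨h1, ⟨h2, h3, h4⟩ | ⟨h2, h3, h4⟩⟩
      · exact ⟨b.2 h1, Or.inl ⟨h2, h3, (a1 h3).2 h4⟩⟩
      · exact ⟨b.2 h1, Or.inr ⟨h2, h3, (a2 h3).2 h4⟩⟩

lemma tr_rho_N (h : CU C.toRows r) (h5 : C.rw r.facet ≠ 5) :
    C.tr (rho C.toRows r.stN) ↔ C.tr (rho C.toRows r) := by rw [h.rho_N h5]

/-- the strands of the `X` frames -/
lemma GE_coreL (h : CU C.toRows r) (h5 : C.rw r.facet ≠ 5) : C.GE r.rL := by
  intro y hy
  have h' := (h.stN h5).1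
  rw [rL_stE', FSt.rL_r2]
  by_cases ht : C.tr (rho C.toRows r)
  · have ht' := (tr_rho_N h h5).2 ht
    have hk := C.hk
    obtain ⟨e1, e2⟩ := tp_bt h ht h5
    apply bool_eq_iff
    rw [EV_rL_tree h ht hy, EV_rR_tree h' ht' (by omega), ← e1]
    constructor
    · rintro ⟨h1, h2, h3⟩; exact ⟨by omega, fun h4 => h2 ((e2 h3).2.2 h4), h3⟩
    · rintro ⟨h1, h2, h3⟩; exact ⟨by omega, fun h4 => h2 ((e2 h3).2.1 h4), h3⟩
  · have ht' : ¬ C.tr (rho C.toRows r.stN) := fun h1 => ht ((tr_rho_N h h5).1 h1)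
    rw [EV_rL_cut h ht, EV_rR_cut h' ht']

/-- the lanes of the `X` frames -/
lemma GN_coreL (h : CU C.toRows r) : C.GN r.rL := by
  intro x hx
  rw [rL_stN, FSt.rL_r2]
  obtain ⟨t, rfl⟩ : ∃ t : P.FSt, t.stE = r := ⟨pE.symm r, by simp⟩
  have h' : CU C.toRows t := by
    have := h.W; rw [pE_s] at this; exact this.1
  rw [pE_s]
  by_cases ht' : C.tr (rho C.toRows t)
  · have ht := (tr_rho_E h').2 ht'
    have hk := C.hk
    obtain ⟨e1, e2⟩ := es_ws h' ht'
    have hn : C.ng (rho C.toRows t.stE) = C.ng (rho C.toRows t) := by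
      rw [h'.rho_E]; exact C.ng_E _ h'.lo_rho.rim
    rw [NV_rL_tree h ht, NV_rR_tree h' ht' (by omega), ← e1, hn]
    congr 1
    apply propext
    constructor
    · rintro ⟨h1, h2, h3⟩; exact ⟨by omega, fun h4 => h2 ((e2 h3).1 h4), h3⟩
    · rintro ⟨h1, h2, h3⟩; exact ⟨by omega, fun h4 => h2 ((e2 h3).2 h4), h3⟩
  · have ht : ¬ C.tr (rho C.toRows t.stE) := fun h1 => ht' ((tr_rho_E h').1 h1)
    rw [NV_rL_cut h ht, NV_rR_cut h' ht']

lemma GN_core (h : CU C.toRows r) (h5 : C.rw r.facet ≠ 5) : C.GN r := by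
  intro x hx
  have h' := (h.stN h5).1
  have hw := (h.stN h5).2
  have h0 := h.2
  by_cases ht : C.tr (rho C.toRows r)
  · have ht' := (tr_rho_N h h5).2 ht
    obtain ⟨e1, e2⟩ := tp_bt h ht h5
    rw [NV_r_tree h ht, NV_r2_tree h' ht' hx, ← e1, h.rho_N h5]
    congr 1
    apply propext
    constructor
    · rintro ⟨h1, h2, h3⟩; exact ⟨(e2 h2).2.1 h1, h2, by rw [h3, (e2 h2).1]⟩
    · rintro ⟨h1, h2, h3⟩; exact ⟨(e2 h2).2.2 h1, h2, by rw [h3, (e2 h2).1]⟩
  · have ht' : ¬ C.tr (rho C.toRows r.stN) := fun h1 => ht ((tr_rho_N h h5).1 h1)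
    rw [NV_r_cut h ht hx, NV_r2_cut h' ht' (by omega), if_neg (fun h1 => h5 h1.1),
      if_neg (by rintro ⟨h1, _⟩; omega)]

/-! ## junction - core -/

lemma rw_J {ρ : P.FSt} (h : C.Rim ρ) : C.rw (pN.symm ρ).facet = 0 := Rows.rw_symm C.toRows h

lemma rim_core {ρ : P.FSt} (h : C.Rim ρ) : (Lo C.toRows ρ) ∨
    (∃ r, CU C.toRows r ∧ C.rw r.facet = 5 ∧ ρ = r.r2) := by
  rcases h with h | h
  · exact Or.inl h
  · exact Or.inr ⟨ρ.r2, ⟨h.1, by rw [FSt.facet_r2, h.2]; norm_num⟩, by rw [FSt.facet_r2, h.2],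
      (FSt.r2_r2 ρ).symm⟩

/-- the facets of the feet in row 1 -/
lemma foot1 {ρ : P.FSt} (hl : Lo C.toRows ρ) (ht : C.tr ρ) :
    (C.YY ρ ∧ C.bt ρ ↔ (C.fa ρ ∧ C.z1 ρ = false) ∨ (C.fb ρ ∧ C.z2 ρ = false)) ∧
    (¬ C.YY ρ ∧ C.bt ρ ↔ (C.fa ρ ∧ C.z1 ρ = true) ∨ (C.fb ρ ∧ C.z2 ρ = true)) ∧
    (C.YY ρ → C.bt ρ → C.ci ρ = 0) := by
  have e := hl.rho
  have ht' : C.tr (rho C.toRows ρ) := by rw [e]; exact ht
  obtain ⟨o1, o2, o3, o4⟩ := order hl.CU ht'
  have hf := fa_row1 hl ht
  have hg := fb_row1 hl ht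
  have hY := YY_iff hl.CU ht'
  rw [e] at hY
  unfold bt
  rw [hf, hg, hY]
  refine ⟨?_, ?_, ?_⟩
  · by_cases h1 : C.nn ρ ≤ C.tt ρ
    · rw [if_pos h1]
      constructor
      · rintro ⟨h2, h3 | h3⟩
        · exact Or.inl ⟨h3, h2⟩
        · exfalso; omega
      · rintro (⟨h2, h3⟩ | ⟨h2, h3⟩)
        · exact ⟨h3, Or.inl h2⟩
        · exfalso; omega
    · rw [if_neg h1]
      constructor
      · rintro ⟨h2, h3 | h3⟩
        · exfalso; omega
        · exact Or.inr ⟨h3, h2⟩
      · rintro (⟨h2, h3⟩ | ⟨h2, h3⟩)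
        · exfalso; omega
        · exact ⟨h3, Or.inr h2⟩
  · rw [Bool.not_eq_false]
    by_cases h1 : C.nn ρ ≤ C.tt ρ
    · rw [if_pos h1]
      constructor
      · rintro ⟨h2, h3 | h3⟩
        · exact Or.inl ⟨h3, h2⟩
        · exfalso; omega
      · rintro (⟨h2, h3⟩ | ⟨h2, h3⟩)
        · exact ⟨h3, Or.inl h2⟩
        · exfalso; omega
    · rw [if_neg h1]
      constructor
      · rintro ⟨h2, h3 | h3⟩
        · exfalso; omega
        · exact Or.inr ⟨h3, h2⟩
      · rintro (⟨h2, h3⟩ | ⟨h2, h3⟩)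
        · exfalso; omega
        · exact ⟨h3, Or.inr h2⟩
  · intro h2 _
    unfold ci
    rw [e, if_pos hl.2, if_pos (show C.rw ρ.facet ≤ 2 by rw [hl.2]; norm_num)]
    split_ifs at h2 ⊢ with h3 <;> simp_all

/-- the facets of the feet in row 5 -/
lemma foot5 (h : CU C.toRows r) (h5 : C.rw r.facet = 5) (ht : C.tr (rho C.toRows r)) :
    (C.YY r ∧ C.tp r ↔ (C.fa r.r2 ∧ C.z1 r.r2 = false) ∨ (C.fb r.r2 ∧ C.z2 r.r2 = false)) ∧
    (¬ C.YY r ∧ C.tp r ↔ (C.fa r.r2 ∧ C.z1 r.r2 = true) ∨ (C.fb r.r2 ∧ C.z2 r.r2 = true)) ∧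
    (C.YY r → C.tp r → C.co r = k - 1) := by
  obtain ⟨o1, o2, o3, o4⟩ := order h ht
  have hf := fa_row5 h h5 ht
  have hg := fb_row5 h h5 ht
  have hY := YY_iff h ht
  have hz1 : C.z1 r.r2 = C.z1 (rho C.toRows r) := by
    rw [← far_rho5 h h5]; exact C.z1_far _ h.lo_rho.rim
  have hz2 : C.z2 r.r2 = C.z2 (rho C.toRows r) := by
    rw [← far_rho5 h h5]; exact C.z2_far _ h.lo_rho.rim
  unfold tp
  rw [hf, hg, hY, hz1, hz2]
  refine ⟨?_, ?_, ?_⟩
  · by_cases h1 : C.nn r ≤ C.tt r
    · rw [if_pos h1]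
      constructor
      · rintro ⟨h2, h3 | h3⟩
        · exact Or.inl ⟨h3, h2⟩
        · exfalso; omega
      · rintro (⟨h2, h3⟩ | ⟨h2, h3⟩)
        · exact ⟨h3, Or.inl h2⟩
        · exfalso; omega
    · rw [if_neg h1]
      constructor
      · rintro ⟨h2, h3 | h3⟩
        · exfalso; omega
        · exact Or.inr ⟨h3, h2⟩
      · rintro (⟨h2, h3⟩ | ⟨h2, h3⟩)
        · exfalso; omega
        · exact ⟨h3, Or.inr h2⟩
  · rw [Bool.not_eq_false]
    by_cases h1 : C.nn r ≤ C.tt r
    · rw [if_pos h1]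
      constructor
      · rintro ⟨h2, h3 | h3⟩
        · exact Or.inl ⟨h3, h2⟩
        · exfalso; omega
      · rintro (⟨h2, h3⟩ | ⟨h2, h3⟩)
        · exact ⟨h3, Or.inl h2⟩
        · exfalso; omega
    · rw [if_neg h1]
      constructor
      · rintro ⟨h2, h3 | h3⟩
        · exfalso; omega
        · exact Or.inr ⟨h3, h2⟩
      · rintro (⟨h2, h3⟩ | ⟨h2, h3⟩)
        · exfalso; omega
        · exact ⟨h3, Or.inr h2⟩
  · intro h2 _
    unfold co
    rw [if_pos h5, if_neg (show ¬ C.rw r.facet = 1 by omega),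
      if_neg (show ¬ C.rw r.facet ≤ 3 by omega)]
    split_ifs at h2 ⊢ with h3 <;> simp_all

lemma ng5 (h : CU C.toRows r) (h5 : C.rw r.facet = 5) :
    C.ng r.r2 = C.ng (rho C.toRows r) := by
  rw [← far_rho5 h h5]; exact C.ng_far _ h.lo_rho.rim

/-- the side of a turned foot -/
lemma GE_rim {ρ : P.FSt} (h : C.Rim ρ) : C.GE (pN.symm ρ).rL := by
  classical
  intro y hy
  have hk := C.hk
  rw [rL_stE', stN_pN_symm, FSt.rL_r2, EV_J (rw_J h), C.ro ρ h y hy]
  apply bool_eq_iff
  rw [decide_eq_true_iff]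
  rcases rim_core h with hl | ⟨r, hr, h5, rfl⟩
  · have e := hl.rho
    by_cases ht : C.tr ρ
    · rw [EV_rR_tree hl.CU (by rw [e]; exact ht) (by omega), ← (foot1 hl ht).2.1]
      constructor
      · rintro ⟨_, h1, h2⟩; exact ⟨by omega, h1⟩
      · rintro ⟨h1, h2⟩; exact ⟨ht, h2, by omega⟩
    · rw [EV_rR_cut hl.CU (by rw [e]; exact ht)]
      constructor
      · rintro ⟨h1, _⟩; exact absurd h1 ht
      · intro h1; exact absurd h1 (by simp)
  · rw [FSt.r2_rR]
    by_cases ht : C.tr r.r2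
    · have ht' := (tr5 hr h5).1 ht
      rw [EV_rL_tree hr ht' (by omega), ← (foot5 hr h5 ht').2.1]
      constructor
      · rintro ⟨_, h1, h2⟩; exact ⟨by omega, h1⟩
      · rintro ⟨h1, h2⟩; exact ⟨ht, h2, by omega⟩
    · have ht' : ¬ C.tr (rho C.toRows r) := fun h1 => ht ((tr5 hr h5).2 h1)
      rw [EV_rL_cut hr ht']
      constructor
      · rintro ⟨h1, _⟩; exact absurd h1 ht
      · intro h1; exact absurd h1 (by simp)

/-- the lanes over a rim -/
lemma GN_rim {ρ : P.FSt} (h : C.Rim ρ) : C.GN (pN.symm ρ) := by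
  intro x hx
  have hk := C.hk
  have hm := C.hm
  rw [stN_pN_symm, NV_J (rw_J h), C.rn ρ h x hx]
  rcases rim_core h with hl | ⟨r, hr, h5, rfl⟩
  · have e := hl.rho
    by_cases ht : C.tr ρ
    · obtain ⟨f1, f2, f3⟩ := foot1 hl ht
      rw [if_pos ht, NV_r2_tree hl.CU (by rw [e]; exact ht) hx, e]
      congr 1
      apply propext
      rw [← f1]
      unfold fcol mx
      constructor
      · rintro ⟨⟨h1, h2⟩, h3⟩
        refine ⟨h1, h2, ?_⟩
        rw [f3 h1 h2, h3]
        split_ifs <;> omega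
      · rintro ⟨h1, h2, h3⟩
        refine ⟨⟨h1, h2⟩, ?_⟩
        rw [f3 h1 h2] at h3
        split_ifs at h3 ⊢ <;> omega
    · rw [if_neg ht, NV_r2_cut hl.CU (by rw [e]; exact ht) (by omega), e,
        show k - 1 - (k - 1 - x) = x by omega]
      by_cases hc : C.ac ρ
      · rw [if_pos (show C.rw ρ.facet = 1 ∧ C.ac ρ from ⟨hl.2, hc⟩), (fa_cut1 hl hc).1,
          (fa_cut1 hl hc).2]
        unfold CL
        by_cases h1 : C.na ρ = 0 ∧ x = 0
        · rw [if_pos h1, if_pos ⟨h1.1, h1.2, Nat.zero_le _⟩]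
        · rw [if_neg h1, if_neg (show ¬ (C.na ρ = 0 ∧ x = 0 ∧ 0 ≤ C.m) from
            fun h2 => h1 ⟨h2.1, h2.2.1⟩)]
          by_cases h3 : C.na ρ + 1 = C.LL ρ ∧ x + 1 = k
          · rw [if_pos h3, if_pos ⟨h3.1, h3.2, Nat.zero_le _⟩]
          · rw [if_neg h3, if_neg (fun h2 => h3 ⟨h2.1, h2.2.1⟩)]
      · rw [if_neg (show ¬ (C.rw ρ.facet = 1 ∧ C.ac ρ) from fun h1 => hc h1.2),
          if_neg (fun h1 => hc (C.fa_ac _ h h1.1)), if_neg]
        rintro ⟨h1, _⟩
        exact hc ((C.ac_E _ h).1 (C.fa_ac _ (Rim.stE h) h1))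
  · rw [FSt.r2_r2]
    by_cases ht : C.tr r.r2
    · have ht' := (tr5 hr h5).1 ht
      obtain ⟨f1, f2, f3⟩ := foot5 hr h5 ht'
      rw [if_pos ht, NV_r_tree hr ht', ng5 hr h5]
      congr 1
      apply propext
      rw [← f1]
      unfold fcol mx
      constructor
      · rintro ⟨⟨h1, h2⟩, h3⟩
        refine ⟨h1, h2, ?_⟩
        rw [f3 h1 h2, h3]
        split_ifs <;> omega
      · rintro ⟨h1, h2, h3⟩
        refine ⟨⟨h1, h2⟩, ?_⟩
        rw [f3 h1 h2] at h3
        split_ifs at h3 ⊢ <;> omega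
    · have ht' : ¬ C.tr (rho C.toRows r) := fun h1 => ht ((tr5 hr h5).2 h1)
      rw [if_neg ht, NV_r_cut hr ht' (by omega), far_rho5 hr h5,
        show k - 1 - (k - 1 - x) = x by omega]
      by_cases hc : C.ac r.r2
      · rw [if_pos (show C.rw r.facet = 5 ∧ C.ac r.r2 from ⟨h5, hc⟩), (fa_cut5 hr h5 hc).1,
          (fa_cut5 hr h5 hc).2]
        unfold CL
        by_cases h1 : C.na' r = 0 ∧ x = 0
        · rw [if_pos h1, if_pos ⟨h1.1, h1.2, Nat.zero_le _⟩]
        · rw [if_neg h1, if_neg (show ¬ (C.na' r = 0 ∧ x = 0 ∧ 0 ≤ C.m) from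
            fun h2 => h1 ⟨h2.1, h2.2.1⟩)]
          by_cases h3 : C.na' r + 1 = C.LL r ∧ x + 1 = k
          · rw [if_pos h3, if_pos ⟨h3.1, h3.2, Nat.zero_le _⟩]
          · rw [if_neg h3, if_neg (fun h2 => h3 ⟨h2.1, h2.2.1⟩)]
      · rw [if_neg (show ¬ (C.rw r.facet = 5 ∧ C.ac r.r2) from fun h1 => hc h1.2),
          if_neg (fun h1 => hc (C.fa_ac _ h h1.1)), if_neg]
        rintro ⟨h1, _⟩
        exact hc ((C.ac_E _ h).1 (C.fa_ac _ (Rim.stE h) h1))

/-! ## junction - junction -/

lemma can_iff {f g : P.Facet} {s : P.FSt} (hf : C.can f = s) (hg : C.can g = s) : f = g := by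
  have := congrArg FSt.facet (hf.trans hg.symm)
  rwa [C.can_facet, C.can_facet] at this

lemma GE_JJ {s : P.FSt} (h : C.rw s.facet = 0) (h' : C.rw s.stE.facet = 0) : C.GE s := by
  intro y hy
  have h2 : C.rw s.stE.r2.facet = 0 := by rw [FSt.facet_r2]; exact h'
  have einv : s.stE.r2.stE = s.r2 := FSt.stE_inv s
  unfold EV
  by_cases c1 : C.can s.facet = s
  · rw [if_pos ((act_J h).2 (Or.inl c1)), PR_J h c1]
    by_cases d1 : C.can s.stE.facet = s.stE
    · rw [if_pos ((act_J h2).2 (Or.inr (by rw [FSt.facet_r2, FSt.r2_r2]; exact d1))),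
        PR_J2 h2 (by rw [FSt.facet_r2, FSt.r2_r2]; exact d1), FSt.facet_r2, Nat.sub_self,
        show k - 1 - (k - 1 - y) = y by omega]
      exact C.gE _ _ h h' (by rw [c1, d1]) y hy
    · by_cases d2 : C.can s.stE.facet = s.stE.r2
      · rw [if_pos ((act_J h2).2 (Or.inl (by rw [FSt.facet_r2]; exact d2))),
          PR_J h2 (by rw [FSt.facet_r2]; exact d2), FSt.facet_r2]
        exact C.gEr _ _ h h' (by rw [c1, d2, FSt.r2_r2]) y hy
      · rw [if_neg (fun h3 => by
          rw [act_J h2, FSt.facet_r2, FSt.r2_r2] at h3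
          exact h3.elim d2 d1)]
        apply C.gE' _ h (by rw [c1]; exact h') _ y hy
        intro g
        rw [c1]
        constructor
        · intro h3
          apply d1
          rw [h3, C.can_facet]
        · intro h3
          apply d2
          rw [h3, FSt.facet_r2, C.can_facet, FSt.r2_r2]
  · by_cases c2 : C.can s.facet = s.r2
    · rw [if_pos ((act_J h).2 (Or.inr c2)), PR_J2 h c2, Nat.sub_self]
      by_cases d1 : C.can s.stE.facet = s.stE
      · rw [if_pos ((act_J h2).2 (Or.inr (by rw [FSt.facet_r2, FSt.r2_r2]; exact d1))),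
          PR_J2 h2 (by rw [FSt.facet_r2, FSt.r2_r2]; exact d1), FSt.facet_r2, Nat.sub_self]
        exact C.gWr _ _ h h' (by rw [c2, d1, FSt.r2_r2]) _ (by omega)
      · by_cases d2 : C.can s.stE.facet = s.stE.r2
        · rw [if_pos ((act_J h2).2 (Or.inl (by rw [FSt.facet_r2]; exact d2))),
            PR_J h2 (by rw [FSt.facet_r2]; exact d2), FSt.facet_r2]
          exact (C.gE _ _ h' h (by rw [c2, d2, einv]) _ (by omega)).symm
        · rw [if_neg (fun h3 => by
            rw [act_J h2, FSt.facet_r2, FSt.r2_r2] at h3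
            exact h3.elim d2 d1)]
          apply C.gW' _ h (by rw [c2, FSt.r2_r2]; exact h') _ _ (by omega)
          intro g
          rw [c2, FSt.r2_r2]
          constructor
          · intro h3
            apply d1
            rw [h3, C.can_facet]
          · intro h3
            apply d2
            rw [h3, FSt.facet_r2, C.can_facet, FSt.r2_r2]
    · rw [if_neg (fun h3 => by
        rw [act_J h] at h3
        exact h3.elim c1 c2)]
      by_cases d1 : C.can s.stE.facet = s.stE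
      · rw [if_pos ((act_J h2).2 (Or.inr (by rw [FSt.facet_r2, FSt.r2_r2]; exact d1))),
          PR_J2 h2 (by rw [FSt.facet_r2, FSt.r2_r2]; exact d1), FSt.facet_r2, Nat.sub_self,
          show k - 1 - (k - 1 - y) = y by omega]
        refine (C.gW' _ h' (by rw [d1, einv, FSt.facet_r2]; exact h) ?_ y hy).symm
        intro g
        rw [d1, einv]
        constructor
        · intro h3
          apply c2
          rw [h3, ← FSt.facet_r2 s, h3, C.can_facet]
        · intro h3
          apply c1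
          have h4 : s = C.can g := by
            have := congrArg FSt.r2 h3
            rwa [FSt.r2_r2, FSt.r2_r2] at this
          rw [h4, C.can_facet]
      · by_cases d2 : C.can s.stE.facet = s.stE.r2
        · rw [if_pos ((act_J h2).2 (Or.inl (by rw [FSt.facet_r2]; exact d2))),
            PR_J h2 (by rw [FSt.facet_r2]; exact d2), FSt.facet_r2]
          refine (C.gE' _ h' (by rw [d2, einv, FSt.facet_r2]; exact h) ?_ _ (by omega)).symm
          intro g
          rw [d2, einv]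
          constructor
          · intro h3
            apply c2
            rw [h3, ← FSt.facet_r2 s, h3, C.can_facet]
          · intro h3
            apply c1
            have h4 : s = C.can g := by
              have := congrArg FSt.r2 h3
              rwa [FSt.r2_r2, FSt.r2_r2] at this
            rw [h4, C.can_facet]
        · rw [if_neg (fun h3 => by
            rw [act_J h2, FSt.facet_r2, FSt.r2_r2] at h3
            exact h3.elim d2 d1)]

lemma GN_JJ {s : P.FSt} (h : C.rw s.facet = 0) (h' : C.rw s.stN.facet = 0) : C.GN s := by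
  intro x hx
  have h2 : C.rw s.stN.r2.facet = 0 := by rw [FSt.facet_r2]; exact h'
  have einv : s.stN.r2.stN = s.r2 := FSt.stN_inv s
  unfold NV
  by_cases c1 : C.can s.facet = s
  · rw [if_pos ((act_J h).2 (Or.inl c1)), LA_J h c1]
    by_cases d1 : C.can s.stN.facet = s.stN
    · rw [if_pos ((act_J h2).2 (Or.inr (by rw [FSt.facet_r2, FSt.r2_r2]; exact d1))),
        LA_J2 h2 (by rw [FSt.facet_r2, FSt.r2_r2]; exact d1), FSt.facet_r2, Nat.sub_self,
        show k - 1 - (k - 1 - x) = x by omega]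
      exact C.gN _ _ h h' (by rw [c1, d1]) x hx
    · have e1 : C.la s.facet x k = Ln.z := by
        apply C.gN' _ h (by rw [c1]; exact h') _ x hx
        intro g h3
        apply d1
        rw [c1] at h3
        rw [h3, C.can_facet]
      rw [e1]
      by_cases d2 : C.can s.stN.facet = s.stN.r2
      · rw [if_pos ((act_J h2).2 (Or.inl (by rw [FSt.facet_r2]; exact d2))),
          LA_J h2 (by rw [FSt.facet_r2]; exact d2), FSt.facet_r2]
        refine (C.gN' _ h' (by rw [d2, einv, FSt.facet_r2]; exact h) ?_ _ (by omega)).symm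
        intro g h3
        rw [d2, einv] at h3
        have h4 : g = s.facet := by
          have := congrArg FSt.facet h3
          rw [C.can_facet, FSt.facet_r2] at this
          exact this.symm
        rw [h4, c1] at h3
        exact STab.r2_ne' _ h3
      · rw [if_neg (fun h3 => by
          rw [act_J h2, FSt.facet_r2, FSt.r2_r2] at h3
          exact h3.elim d2 d1)]
  · by_cases c2 : C.can s.facet = s.r2
    · rw [if_pos ((act_J h).2 (Or.inr c2)), LA_J2 h c2, Nat.sub_self]
      by_cases d2 : C.can s.stN.facet = s.stN.r2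
      · rw [if_pos ((act_J h2).2 (Or.inl (by rw [FSt.facet_r2]; exact d2))),
          LA_J h2 (by rw [FSt.facet_r2]; exact d2), FSt.facet_r2]
        exact (C.gN _ _ h' h (by rw [c2, d2, einv]) _ (by omega)).symm
      · have e1 : C.la s.facet (k - 1 - x) 0 = Ln.z := by
          apply C.gS' _ h (by rw [c2, FSt.r2_r2]; exact h') _ _ (by omega)
          intro f h3
          apply d2
          rw [c2] at h3
          have h4 : C.can f = s.stN.r2 := by
            apply pN.injective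
            show (C.can f).stN = s.stN.r2.stN
            rw [h3, einv]
          rw [← FSt.facet_r2 s.stN, ← h4, C.can_facet]
        rw [e1]
        by_cases d1 : C.can s.stN.facet = s.stN
        · rw [if_pos ((act_J h2).2 (Or.inr (by rw [FSt.facet_r2, FSt.r2_r2]; exact d1))),
            LA_J2 h2 (by rw [FSt.facet_r2, FSt.r2_r2]; exact d1), FSt.facet_r2, Nat.sub_self,
            show k - 1 - (k - 1 - x) = x by omega]
          refine (C.gS' _ h' (by rw [d1, einv, FSt.facet_r2]; exact h) ?_ _ hx).symm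
          intro f h3
          rw [d1] at h3
          have h4 : C.can f = s := pN.injective h3
          have h5 : f = s.facet := by
            have := congrArg FSt.facet h4
            rwa [C.can_facet] at this
          rw [h5, c2] at h4
          exact STab.r2_ne' _ h4
        · rw [if_neg (fun h3 => by
            rw [act_J h2, FSt.facet_r2, FSt.r2_r2] at h3
            exact h3.elim d2 d1)]
    · rw [if_neg (fun h3 => by
        rw [act_J h] at h3
        exact h3.elim c1 c2)]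
      by_cases d1 : C.can s.stN.facet = s.stN
      · rw [if_pos ((act_J h2).2 (Or.inr (by rw [FSt.facet_r2, FSt.r2_r2]; exact d1))),
          LA_J2 h2 (by rw [FSt.facet_r2, FSt.r2_r2]; exact d1), FSt.facet_r2, Nat.sub_self,
          show k - 1 - (k - 1 - x) = x by omega]
        refine (C.gS' _ h' (by rw [d1, einv, FSt.facet_r2]; exact h) ?_ _ hx).symm
        intro f h3
        rw [d1] at h3
        have h4 : C.can f = s := pN.injective h3
        apply c1
        rw [← h4, C.can_facet]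
      · by_cases d2 : C.can s.stN.facet = s.stN.r2
        · rw [if_pos ((act_J h2).2 (Or.inl (by rw [FSt.facet_r2]; exact d2))),
            LA_J h2 (by rw [FSt.facet_r2]; exact d2), FSt.facet_r2]
          refine (C.gN' _ h' (by rw [d2, einv, FSt.facet_r2]; exact h) ?_ _ (by omega)).symm
          intro g h3
          rw [d2, einv] at h3
          apply c2
          rw [← FSt.facet_r2 s, h3, C.can_facet]
        · rw [if_neg (fun h3 => by
            rw [act_J h2, FSt.facet_r2, FSt.r2_r2] at h3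
            exact h3.elim d2 d1)]

/-! ## All sides -/

theorem allE (C : JX0 P k) (s : P.FSt) : C.GE s := by
  have key : ∀ s : P.FSt, C.rw s.facet = 0 → C.rw s.stE.facet ≠ 0 → C.GE s := by
    intro s h h'
    obtain ⟨h1, h2, h3⟩ := Rows.Rim.of_side C.toRows h h'
    have := GE_rim (C := C) h1
    rwa [h2] at this
  by_cases h : C.rw s.facet = 0
  · by_cases h' : C.rw s.stE.facet = 0
    · exact GE_JJ h h'
    · exact key s h h'
  · by_cases h' : C.rw s.stE.facet = 0
    · have h2 := key s.stE.r2 (by rw [FSt.facet_r2]; exact h')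
        (by rw [FSt.stE_inv, FSt.facet_r2]; exact h)
      have h3 := h2.sym
      rwa [FSt.stE_inv, FSt.r2_r2] at h3
    · obtain ⟨r, hr, -, rfl | rfl | rfl | rfl⟩ := ex_up (C := C) h
      · exact GE_core hr
      · have h1 := GE_core hr.W.1
        have h2 := h1.sym
        rwa [stE_pE_symm] at h2
      · have h5 : C.rw r.facet ≠ 5 := by
          intro h5
          apply h'
          rw [rL_stE', FSt.facet_rL, (C.N r hr.1 hr.2).2, if_pos h5]
        exact GE_coreL hr h5
      · have h1 : C.rw r.facet ≠ 1 := by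
          intro h1
          apply h'
          rw [rR_stE, FSt.facet_rR]
          exact rw_J (Or.inl ⟨hr.1, h1⟩)
        obtain ⟨h2, h3⟩ := hr.S h1
        have h4 := C.le5 r.facet
        have h6 := GE_coreL h2 (by omega)
        have h7 := h6.sym
        rwa [rL_stE', stN_pN_symm, FSt.rL_r2] at h7

theorem allN (C : JX0 P k) (s : P.FSt) : C.GN s := by
  have key : ∀ s : P.FSt, C.rw s.facet = 0 → C.rw s.stN.facet ≠ 0 → C.GN s := by
    intro s h h'
    have e : s.rL.stE.rR = s.stN := rfl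
    obtain ⟨h1, h2, h3⟩ := Rows.Rim.of_side C.toRows (s := s.rL) (by rw [FSt.facet_rL]; exact h)
      (by
        have : s.rL.stE.facet = s.stN.facet := by rw [rL_stE', FSt.facet_rL]
        rw [this]; exact h')
    rw [e] at h1
    have := GN_rim (C := C) h1
    rwa [pN_s] at this
  by_cases h : C.rw s.facet = 0
  · by_cases h' : C.rw s.stN.facet = 0
    · exact GN_JJ h h'
    · exact key s h h'
  · by_cases h' : C.rw s.stN.facet = 0
    · have h2 := key s.stN.r2 (by rw [FSt.facet_r2]; exact h')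
        (by rw [FSt.stN_inv, FSt.facet_r2]; exact h)
      have h3 := h2.sym
      rwa [FSt.stN_inv, FSt.r2_r2] at h3
    · obtain ⟨r, hr, -, rfl | rfl | rfl | rfl⟩ := ex_up (C := C) h
      · have h5 : C.rw s.facet ≠ 5 := by
          intro h5
          apply h'
          rw [(C.N s hr.1 hr.2).2, if_pos h5]
        exact GN_core hr h5
      · have h1 : C.rw r.facet ≠ 1 := by
          intro h1
          apply h'
          rw [r2_stN, FSt.facet_r2]
          exact rw_J (Or.inl ⟨hr.1, h1⟩)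
        obtain ⟨h2, h3⟩ := hr.S h1
        have h4 := C.le5 r.facet
        have h6 := (GN_core h2 (by omega)).sym
        rwa [stN_pN_symm] at h6
      · exact GN_coreL hr
      · have h1 := (GN_coreL hr.stE.1).sym
        rwa [rL_stN, pE_s, FSt.rL_r2] at h1

end JX0

end Pool.Agent.MP42X
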