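import Pool.Agent.MP42.H.One

/-!
# Mirror images of the tables of the facets, and the tables of a strand with a general crossing
-/

set_option autoImplicit false
set_option linter.unusedSectionVars false

namespace Pool.Agent.MP42X

open Pool.Agent.Helper55.UNF Pool.Agent.MP42H

/-- mirror image of a lane -/
def sw : Ln → Ln
  | Ln.n => Ln.s
  | Ln.s => Ln.n
  | Ln.z => Ln.z

@[simp] lemma sw_sw (l : Ln) : sw (sw l) = l := by cases l <;> rfl

lemma sw_z {l : Ln} : sw l = Ln.z ↔ l = Ln.z := by cases l <;> simp [sw]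

lemma sw_n {l : Ln} : sw l = Ln.n ↔ l = Ln.s := by cases l <;> simp [sw]

lemma sw_s {l : Ln} : sw l = Ln.s ↔ l = Ln.n := by cases l <;> simp [sw]

/-- the side after a reflection (west and east exchanged) -/
def xpt : Prt → Prt
  | Prt.W => Prt.E
  | Prt.E => Prt.W
  | Prt.N => Prt.N
  | Prt.S => Prt.S

/-- the side after a reflection (north and south exchanged) -/
def ypt : Prt → Prt
  | Prt.W => Prt.W
  | Prt.E => Prt.E
  | Prt.N => Prt.S
  | Prt.S => Prt.N

lemma okc_x : ∀ a b u v, okc a b u v = true → okc b a (sw u) (sw v) = true := by decide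

lemma okc_y : ∀ a b u v, okc a b u v = true → okc a b (sw v) (sw u) = true := by decide

lemma usd_x : ∀ a b u v p, usd b a (sw u) (sw v) (xpt p) = usd a b u v p := by decide

lemma usd_y : ∀ a b u v p, usd a b (sw v) (sw u) (ypt p) = usd a b u v p := by decide

lemma mate_x : ∀ a b u v, okc a b u v = true → ∀ p,
    mate b a (sw u) (sw v) (xpt p) = xpt (mate a b u v p) := by
  decide

lemma mate_y : ∀ a b u v, okc a b u v = true → ∀ p,
    mate a b (sw v) (sw u) (ypt p) = ypt (mate a b u v p) := by
  decide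

section

variable {k : ℕ} {pr : ℕ → ℕ → Bool} {la : ℕ → ℕ → Ln} {ψ χ : ℕ → ℕ → Prop}

/-- mirror image (west and east exchanged) of a table of strands -/
def xP (k : ℕ) (pr : ℕ → ℕ → Bool) (x y : ℕ) : Bool := pr (k - x) y

/-- mirror image (west and east exchanged) of a table of lanes -/
def xL (k : ℕ) (la : ℕ → ℕ → Ln) (x y : ℕ) : Ln := sw (la (k - 1 - x) y)

/-- mirror image (north and south exchanged) of a table of strands -/
def yP (k : ℕ) (pr : ℕ → ℕ → Bool) (x y : ℕ) : Bool := pr x (k - 1 - y)

/-- mirror image (north and south exchanged) of a table of lanes -/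
def yL (k : ℕ) (la : ℕ → ℕ → Ln) (x y : ℕ) : Ln := sw (la x (k - y))

lemma ok_x (h : CellOk k pr la) : CellOk k (xP k pr) (xL k la) := by
  intro x y hx hy
  have h1 := okc_x _ _ _ _ (h (k - 1 - x) y (by omega) hy)
  unfold xP xL
  rw [show k - x = k - 1 - x + 1 by omega, show k - (x + 1) = k - 1 - x by omega]
  exact h1

lemma ok_y (h : CellOk k pr la) : CellOk k (yP k pr) (yL k la) := by
  intro x y hx hy
  have h1 := okc_y _ _ _ _ (h x (k - 1 - y) hx (by omega))
  unfold yP yL
  rw [show k - y = k - 1 - y + 1 by omega, show k - (y + 1) = k - 1 - y by omega]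
  exact h1

lemma rel_x (ho : CellOk k pr la) (h : CellRel k (xP k pr) (xL k la) ψ χ) :
    CellRel k pr la (fun x y => ψ (k - x) y) (fun x y => χ (k - 1 - x) y) := by
  intro x y hx hy p hp
  have h0 := ho x y hx hy
  have h1 := h (k - 1 - x) y (by omega) hy (xpt p)
  unfold xP xL at h1
  rw [show k - (k - 1 - x) = x + 1 by omega, show k - (k - 1 - x + 1) = x by omega,
    show k - 1 - (k - 1 - x) = x by omega, usd_x, mate_x _ _ _ _ h0] at h1
  have e : ∀ q : Prt, prt ψ χ (k - 1 - x) y (xpt q) ↔
      prt (fun x y => ψ (k - x) y) (fun x y => χ (k - 1 - x) y) x y q := by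
    intro q
    cases q
    · show ψ (k - 1 - x + 1) y ↔ ψ (k - x) y
      rw [show k - x = k - 1 - x + 1 by omega]
    · show ψ (k - 1 - x) y ↔ ψ (k - (x + 1)) y
      rw [show k - (x + 1) = k - 1 - x by omega]
    · exact Iff.rfl
    · exact Iff.rfl
  rw [← e p, ← e]
  exact h1 hp

lemma rel_y (ho : CellOk k pr la) (h : CellRel k (yP k pr) (yL k la) ψ χ) :
    CellRel k pr la (fun x y => ψ x (k - 1 - y)) (fun x y => χ x (k - y)) := by
  intro x y hx hy p hp
  have h0 := ho x y hx hy
  have h1 := h x (k - 1 - y) hx (by omega) (ypt p)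
  unfold yP yL at h1
  rw [show k - (k - 1 - y) = y + 1 by omega, show k - (k - 1 - y + 1) = y by omega,
    show k - 1 - (k - 1 - y) = y by omega, usd_y, mate_y _ _ _ _ h0] at h1
  have e : ∀ q : Prt, prt ψ χ x (k - 1 - y) (ypt q) ↔
      prt (fun x y => ψ x (k - 1 - y)) (fun x y => χ x (k - y)) x y q := by
    intro q
    cases q
    · exact Iff.rfl
    · exact Iff.rfl
    · show χ x (k - 1 - y) ↔ χ x (k - (y + 1))
      rw [show k - (y + 1) = k - 1 - y by omega]
    · show χ x (k - 1 - y + 1) ↔ χ x (k - y)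
      rw [show k - y = k - 1 - y + 1 by omega]
  rw [← e p, ← e]
  exact h1 hp

lemma one_x {c : Prop} (h : OneV k pr la (fun x y => ψ (k - x) y) (fun x y => χ (k - 1 - x) y) c) :
    OneV k (xP k pr) (xL k la) ψ χ c := by
  constructor
  · intro x y hx hy hp
    have := h.1 (k - x) y (by omega) hy hp
    simp only at this
    rwa [show k - (k - x) = x by omega] at this
  · intro x y hx hy hl
    have h1 : la (k - 1 - x) y ≠ Ln.z := fun h2 => hl (sw_z.2 h2)
    have := h.2 (k - 1 - x) y (by omega) hy h1
    simp only at this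
    rwa [show k - 1 - (k - 1 - x) = x by omega] at this

lemma one_y {c : Prop} (h : OneV k pr la (fun x y => ψ x (k - 1 - y)) (fun x y => χ x (k - y)) c) :
    OneV k (yP k pr) (yL k la) ψ χ c := by
  constructor
  · intro x y hx hy hp
    have := h.1 x (k - 1 - y) hx (by omega) hp
    simp only at this
    rwa [show k - 1 - (k - 1 - y) = y by omega] at this
  · intro x y hx hy hl
    have h1 : la x (k - y) ≠ Ln.z := fun h2 => hl (sw_z.2 h2)
    have := h.2 x (k - y) hx (by omega) h1
    simp only at this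
    rwa [show k - (k - y) = y by omega] at this

/-- the mirror image has one strand if the table has one strand -/
lemma one_of_x (ho : CellOk k pr la)
    (h1 : ∀ ψ χ, CellRel k pr la ψ χ → ∃ c, OneV k pr la ψ χ c)
    (h : CellRel k (xP k pr) (xL k la) ψ χ) : ∃ c, OneV k (xP k pr) (xL k la) ψ χ c := by
  obtain ⟨c, hc⟩ := h1 _ _ (rel_x ho h)
  exact ⟨c, one_x hc⟩

lemma one_of_y (ho : CellOk k pr la)
    (h1 : ∀ ψ χ, CellRel k pr la ψ χ → ∃ c, OneV k pr la ψ χ c)
    (h : CellRel k (yP k pr) (yL k la) ψ χ) : ∃ c, OneV k (yP k pr) (yL k la) ψ χ c := by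
  obtain ⟨c, hc⟩ := h1 _ _ (rel_y ho h)
  exact ⟨c, one_y hc⟩

end

/-- the tables of a strand that enters a facet in column `ci` and leaves it in column `co` -/
lemma Y_ok' {k m ci co n t : ℕ} (hc : n = 0 → n = t → ci ≤ co) :
    CellOk k (YP m ci co n t) (YL m ci co n t) := by
  intro x y hx hy
  by_cases a : YP m ci co n t x y = true <;> by_cases b : YP m ci co n t (x + 1) y = true
  · rw [a, b]
    rw [YP_true] at a b
    have e1 : YL m ci co n t x (y + 1) = Ln.z := by
      unfold YL; rw [if_neg]; omega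
    have e2 : YL m ci co n t x y = Ln.z := by
      unfold YL; rw [if_neg]; omega
    rw [e1, e2]; rfl
  · rw [a, Bool.not_eq_true _ |>.mp b]
    rw [YP_true] at a b
    have e1 : YL m ci co n t x (y + 1) = Ln.n := by
      unfold YL; rw [if_pos]; omega
    have e2 : YL m ci co n t x y = Ln.z := by
      unfold YL; rw [if_neg]; omega
    rw [e1, e2]; rfl
  · rw [b, Bool.not_eq_true _ |>.mp a]
    rw [YP_true] at a b
    have e1 : YL m ci co n t x (y + 1) = Ln.z := by
      unfold YL; rw [if_neg]; omega
    have e2 : YL m ci co n t x y = Ln.n := by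
      unfold YL; rw [if_pos]; omega
    rw [e1, e2]; rfl
  · rw [Bool.not_eq_true _ |>.mp b, Bool.not_eq_true _ |>.mp a]
    rw [YP_true] at a b
    by_cases h : YL m ci co n t x y = Ln.z
    · have e1 : YL m ci co n t x (y + 1) = Ln.z := by
        unfold YL at h ⊢
        rw [if_neg]
        split_ifs at h
        omega
      rw [e1, h]; rfl
    · have e2 : YL m ci co n t x y = Ln.n := by
        unfold YL at h ⊢
        split_ifs at h ⊢
        · rfl
        · exact absurd rfl h
      have e1 : YL m ci co n t x (y + 1) = Ln.n := by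
        unfold YL at h ⊢
        rw [if_pos]
        split_ifs at h
        · omega
        · exact absurd rfl h
      rw [e1, e2]; rfl

lemma Y_one' {k m ci co n t : ℕ} {ψ χ : ℕ → ℕ → Prop}
    (hR : CellRel k (YP m ci co n t) (YL m ci co n t) ψ χ) (hm : m < k) (hci : ci < k)
    (hco : co < k) (hc : n = 0 → n = t → ci ≤ co) :
    ∃ c, OneV k (YP m ci co n t) (YL m ci co n t) ψ χ c := by
  by_cases h0 : n = 0 ∧ n = t ∧ ci ≠ co
  swap
  · exact Y_one hR hm hci hco (by intro h1 h2; by_contra h3; exact h0 ⟨h1, h2, h3⟩)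
  · obtain ⟨h0, ht, hne⟩ := h0
    have hlt : ci < co := by have := hc h0 ht; omega
    -- the ports
    have hP : ∀ x, ci < x → x < co → (ψ x m ↔ ψ (x + 1) m) := by
      intro x h1 h2
      apply st_WE hR (by omega) hm
      · rw [YP_true]; omega
      · rw [YP_true]; omega
      · apply YL_z; omega
      · apply YL_z; omega
    have hL : ∀ y < m, (χ ci y ↔ χ ci (y + 1)) := by
      intro y hy
      apply st_SN hR hci (by omega)
      · rw [YP_false]; omega
      · rw [YP_false]; omega
      · rw [YL_n (Or.inl ⟨h0, rfl, by omega⟩), YL_n (Or.inl ⟨h0, rfl, by omega⟩)]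
      · rw [YL_n (Or.inl ⟨h0, rfl, by omega⟩)]; decide
    have hU : ∀ y, m < y → y < k → (χ co y ↔ χ co (y + 1)) := by
      intro y hy hy'
      apply st_SN hR hco (by omega)
      · rw [YP_false]; omega
      · rw [YP_false]; omega
      · rw [YL_n (Or.inr ⟨ht, rfl, by omega⟩), YL_n (Or.inr ⟨ht, rfl, by omega⟩)]
      · rw [YL_n (Or.inr ⟨ht, rfl, by omega⟩)]; decide
    have hS : χ ci m ↔ ψ (ci + 1) m := by
      apply st_SE hR hci hm
      · rw [YP_false]; omega
      · rw [YP_true]; omega
      · apply YL_z; omega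
      · exact YL_n (Or.inl ⟨h0, rfl, le_rfl⟩)
    have hW : ψ co m ↔ χ co (m + 1) := by
      apply st_WN hR hco hm
      · rw [YP_true]; omega
      · rw [YP_false]; omega
      · exact YL_n (Or.inr ⟨ht, rfl, by omega⟩)
      · apply YL_z; omega
    have hp' := run_up (Q := fun x => ψ x m) (a := ci + 1) (b := co) (by
      intro x h1 h2
      exact hP x (by omega) h2)
    have hl' := run_up (Q := fun y => χ ci y) (a := 0) (b := m) (by
      intro y _ hy
      exact hL y hy)
    have hl'' := run_up (Q := fun y => χ co y) (a := m + 1) (b := k) (by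
      intro y h4 h5
      exact hU y (by omega) h5)
    have e1 : χ ci 0 ↔ ψ (ci + 1) m := (hl' m (Nat.zero_le _) le_rfl).symm.trans hS
    refine ⟨χ ci 0, ?_, ?_⟩
    · intro x y hx hy hp
      rw [YP_true] at hp
      rw [hp.1]
      exact (hp' x (by omega) (by omega)).trans e1.symm
    · intro x y hx hy hl
      rw [YL_ne] at hl
      rcases hl with ⟨_, h1, h2⟩ | ⟨_, h1, h2⟩
      · rw [h1]; exact hl' y (Nat.zero_le _) h2
      · rw [h1]
        exact (hl'' y (by omega) hy).trans (hW.symm.trans ((hp' co (by omega) le_rfl).trans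
          e1.symm))

end Pool.Agent.MP42X
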