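import Pool.Agent.MP42.H.Rows
import Pool.Agent.MP42.H.Basic

/-!
# The rows of a selected set of bands
-/

set_option autoImplicit false
set_option linter.unusedSectionVars false

namespace Pool.Agent.MP42X

open Pool.Agent.Helper55.UNF Pool.Agent.Helper55.UNF.GridSolid Pool.Agent.MP42G
open Pool.Agent.MP42H

variable {P : GridSolid}

lemma symm_pow_r2 (n : ℕ) (s : P.FSt) : (pN.symm ^ n) s.r2 = ((pN ^ n) s).r2 := by
  have h := pow_pN_r2 n s.r2
  rw [FSt.r2_r2] at h
  rw [h, FSt.r2_r2]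

/-- the facet belongs to a band of `B` (`B` is a predicate on the lowest rim states) -/
def InB (R : Rows P) (B : P.FSt → Prop) (f : P.Facet) : Prop :=
  ∃ s : P.FSt, s.facet = f ∧ CU R s ∧ B (rho R s)

variable {R : Rows P} {B : P.FSt → Prop}

lemma U_uniq {s t : P.FSt} (h : s.facet = t.facet) (hs : IsU s) (ht : IsU t) : s = t := by
  have h0 := congrArg (fun f : P.Facet => f.1) h
  have hc : s.1.c = t.1.c := congrArg Prod.fst h0
  have hd : s.1.d = t.1.d := congrArg Prod.snd h0
  have he : s.1.e = t.1.e := by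
    have h1 := s.2.2
    have h2 := t.2.2
    unfold IsU at hs ht
    have hs' : cross s.1.d s.1.e = (2, true) := hs
    have ht' : cross t.1.d t.1.e = (2, true) := ht
    rw [← hd] at ht' h2
    have e1 := cross_cross' s.1.d s.1.e h1
    have e2 := cross_cross' s.1.d t.1.e h2
    rw [hs'] at e1
    rw [ht'] at e2
    rw [← e1, ← e2]
  apply FSt.ext'
  obtain ⟨⟨c1, d1, e1⟩, p1⟩ := s
  obtain ⟨⟨c2, d2, e2⟩, p2⟩ := t
  simp only at hc hd he
  simp only [hc, hd, he]

lemma InB_iff {s : P.FSt} (h : CU R s) : InB R B s.facet ↔ B (rho R s) := by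
  constructor
  · rintro ⟨t, h1, h2, h3⟩
    rwa [U_uniq h1 h2.1 h.1] at h3
  · intro h1
    exact ⟨s, rfl, h, h1⟩

lemma InB_ne {f : P.Facet} (h : InB R B f) : R.rw f ≠ 0 := by
  obtain ⟨s, h1, h2, -⟩ := h
  rw [← h1]; exact h2.2

open Classical in
/-- number of the row in the bands of `B` -/
noncomputable def rwS (R : Rows P) (B : P.FSt → Prop) (f : P.Facet) : ℕ :=
  if InB R B f then R.rw f else 0

lemma rwS_ne {f : P.Facet} : rwS R B f ≠ 0 ↔ InB R B f := by
  unfold rwS
  constructor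
  · intro h
    by_contra h1
    rw [if_neg h1] at h
    exact h rfl
  · intro h
    rw [if_pos h]
    exact InB_ne h

lemma rwS_in {f : P.Facet} (h : InB R B f) : rwS R B f = R.rw f := by
  unfold rwS; rw [if_pos h]

lemma rwS_out {f : P.Facet} (h : ¬ InB R B f) : rwS R B f = 0 := by
  unfold rwS; rw [if_neg h]

lemma rwS_cu {s : P.FSt} (h : CU R s) (hB : B (rho R s)) : rwS R B s.facet = R.rw s.facet :=
  rwS_in ((InB_iff h).2 hB)

/-- step to the east in a band -/
lemma InB_E (hB : ∀ r, Lo R r → (B r.stE ↔ B r)) {s : P.FSt} (h : CU R s) :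
    InB R B s.stE.facet ↔ InB R B s.facet := by
  rw [InB_iff h, InB_iff h.stE.1, h.rho_E]
  exact hB _ h.lo_rho

lemma InB_N {s : P.FSt} (h : CU R s) (h5 : R.rw s.facet ≠ 5) :
    InB R B s.stN.facet ↔ InB R B s.facet := by
  rw [InB_iff h, InB_iff (h.stN h5).1, h.rho_N h5]

lemma InB_V (hB : ∀ r, Lo R r → (B r.stE ↔ B r)) {s : P.FSt} (hV : IsV s) :
    rwS R B s.stE.facet = rwS R B s.facet := by
  by_cases h0 : R.rw s.facet = 0
  · have h1 : R.rw s.stE.facet = 0 := by rw [R.E s hV, h0]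
    rw [rwS_out fun h => InB_ne h h1, rwS_out fun h => InB_ne h h0]
  · have key : InB R B s.stE.facet ↔ InB R B s.facet := by
      rcases U_or hV with h | h
      · exact InB_E hB ⟨h, h0⟩
      · have hc : CU R s.r2 := ⟨h, by rw [FSt.facet_r2]; exact h0⟩
        have h1 := InB_E hB hc.W.1
        rw [stE_pE_symm, pE_symm_r2, FSt.facet_r2, FSt.facet_r2] at h1
        exact h1.symm
    unfold rwS
    rw [R.E s hV]
    by_cases h : InB R B s.facet
    · rw [if_pos h, if_pos (key.2 h)]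
    · rw [if_neg h, if_neg fun h' => h (key.1 h')]

/-- **The rows of the bands of `B`.** -/
noncomputable def rowsB (R : Rows P) (B : P.FSt → Prop) (hB : ∀ r, Lo R r → (B r.stE ↔ B r)) :
    Rows P where
  rw := rwS R B
  le5 := fun f => by
    have := R.le5 f
    unfold rwS
    split_ifs <;> omega
  V := fun s h => R.V s (InB_ne (rwS_ne.1 h))
  E := fun s h => InB_V hB h
  N := fun s hU h => by
    have hi := rwS_ne.1 h
    have hc : CU R s := ⟨hU, InB_ne hi⟩
    obtain ⟨h1, h2⟩ := R.N s hU hc.2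
    refine ⟨h1, ?_⟩
    rw [rwS_in hi]
    by_cases h5 : R.rw s.facet = 5
    · rw [if_pos h5] at h2 ⊢
      exact rwS_out fun h' => InB_ne h' h2
    · rw [if_neg h5] at h2 ⊢
      rw [rwS_in ((InB_N hc h5).2 hi), h2]
  S := fun s hU h => by
    have hi := rwS_ne.1 h
    have hc : CU R s.stN := ⟨hU, InB_ne hi⟩
    obtain ⟨h1, h2⟩ := R.S s hU hc.2
    refine ⟨h1, ?_⟩
    rw [rwS_in hi]
    by_cases h0 : R.rw s.facet = 0
    · rw [rwS_out fun h' => InB_ne h' h0]
      omega
    · have hc' : CU R s := ⟨h1, h0⟩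
      have h5 : R.rw s.facet ≠ 5 := by have := R.le5 s.stN.facet; omega
      rw [rwS_in ((InB_N hc' h5).1 hi)]
      exact h2
  comm := fun s hU h => R.comm s hU (by
    rcases h with h | h
    · exact Or.inl (InB_ne (rwS_ne.1 h))
    · exact Or.inr (InB_ne (rwS_ne.1 h)))

/-- the rims of the selected bands -/
lemma rowsB_rim (hB : ∀ r, Lo R r → (B r.stE ↔ B r)) {r : P.FSt} :
    (rowsB R B hB).Rim r ↔
      (Lo R r ∧ B r) ∨ (R.Rim r ∧ IsU r.r2 ∧ Lo R (Rows.far r) ∧ B (Rows.far r)) := by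
  constructor
  · rintro (⟨h, h1⟩ | ⟨h, h1⟩)
    · have h1 : rwS R B r.facet = 1 := h1
      have hi := rwS_ne.1 (by rw [h1]; norm_num)
      rw [rwS_in hi] at h1
      have hl : Lo R r := ⟨h, h1⟩
      have := (InB_iff hl.CU).1 hi
      rw [hl.rho] at this
      exact Or.inl ⟨hl, this⟩
    · have h1 : rwS R B r.facet = 5 := h1
      have hi := rwS_ne.1 (by rw [h1]; norm_num)
      rw [rwS_in hi] at h1
      have hr : R.Rim r := Or.inr ⟨h, h1⟩
      rcases rim_cases hr with h2 | ⟨s, h2, h3, h4⟩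
      · exact absurd h (not_U_Ur h2.1)
      · right
        rw [h4]
        refine ⟨hr, h, h2, ?_⟩
        have hc : CU R r.r2 := ⟨h, by rw [FSt.facet_r2, h1]; norm_num⟩
        rw [← FSt.facet_r2] at hi
        have h5 := (InB_iff hc).1 hi
        have h6 : rho R r.r2 = s := by
          unfold rho
          rw [FSt.facet_r2, h1, ← h4]
          show (pN.symm ^ 4) r.r2 = ((pN ^ 4) r).r2
          rw [symm_pow_r2]
        rwa [h6] at h5
  · rintro (⟨h, h1⟩ | ⟨hr, h, h2, h3⟩)
    · left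
      refine ⟨h.1, ?_⟩
      show rwS R B r.facet = 1
      rw [rwS_cu h.CU (by rw [h.rho]; exact h1), h.2]
    · right
      refine ⟨h, ?_⟩
      show rwS R B r.facet = 5
      have h1 : R.rw r.facet = 5 := by
        rcases hr with h4 | h4
        · exact absurd h (not_U_Ur h4.1)
        · exact h4.2
      have hc : CU R r.r2 := ⟨h, by rw [FSt.facet_r2, h1]; norm_num⟩
      have h6 : rho R r.r2 = Rows.far r := by
        unfold rho
        rw [FSt.facet_r2, h1]
        show (pN.symm ^ 4) r.r2 = ((pN ^ 4) r).r2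
        rw [symm_pow_r2]
      rw [← FSt.facet_r2, rwS_cu hc (by rw [h6]; exact h3), FSt.facet_r2, h1]

end Pool.Agent.MP42X
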