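import Pool.Agent.MP42.X.Glue3

/-!
# The state table of a certificate
-/

set_option autoImplicit false
set_option linter.unusedSectionVars false

namespace Pool.Agent.MP42X

open Pool.Agent.Helper55.UNF Pool.Agent.MP42G Pool.Agent.MP42H
open Pool.Agent.Helper55.UNF.GridSolid hiding len

variable {P : GridSolid}

namespace JX0

variable {k : ℕ} {C : JX0 P k} {r s : P.FSt}

lemma ok_rot {pr : ℕ → ℕ → Bool} {la : ℕ → ℕ → Ln} (h : CellOk k pr la) :
    CellOk k (fun x y => pr (k - x) (k - 1 - y)) (fun x y => la (k - 1 - x) (k - y)) :=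
  CellOk.rot h

lemma TY_ok (h : CU C.toRows r) : CellOk k (C.TY r) (C.LY r) := by
  have hk := C.hk
  have hm := C.hm
  by_cases ht : C.tr (rho C.toRows r)
  · have e1 : C.TY r = nP k (C.ng (rho C.toRows r)) (C.WV r) := by
      funext x y; unfold TY; rw [if_pos ht]
    have e2 : C.LY r = nL k (C.ng (rho C.toRows r)) (C.WH r) := by
      funext x y; unfold LY; rw [if_pos ht]
    rw [e1, e2]
    exact (K_ok k (C.on r) (ci_le_co h ht)).n _
  · by_cases h1 : C.rw r.facet = 1 ∧ C.ac (rho C.toRows r)
    · have e1 : C.TY r = CP C.m k (C.na r) (C.LL r) := by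
        funext x y; unfold TY; rw [if_neg ht, if_pos h1]
      have e2 : C.LY r = CL C.m k (C.na r) (C.LL r) := by
        funext x y; unfold LY; rw [if_neg ht, if_pos h1]
      rw [e1, e2]
      exact C_ok (by omega)
    · by_cases h5 : C.rw r.facet = 5 ∧ C.ac (Rows.far (rho C.toRows r))
      · have e1 : C.TY r = fun x y => CP C.m k (C.na' r) (C.LL r) (k - x) (k - 1 - y) := by
          funext x y; unfold TY; rw [if_neg ht, if_neg h1, if_pos h5]
        have e2 : C.LY r = fun x y => CL C.m k (C.na' r) (C.LL r) (k - 1 - x) (k - y) := by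
          funext x y; unfold LY; rw [if_neg ht, if_neg h1, if_pos h5]
        rw [e1, e2]
        exact ok_rot (C_ok (by omega))
      · intro x y _ _
        have e1 : ∀ x y, C.TY r x y = false := by
          intro x y; unfold TY; rw [if_neg ht, if_neg h1, if_neg h5]
        have e2 : ∀ x y, C.LY r x y = Ln.z := by
          intro x y; unfold LY; rw [if_neg ht, if_neg h1, if_neg h5]
        rw [e1, e1, e2, e2]
        rfl

lemma TX_ok (h : CU C.toRows r) (hY : ¬ C.YY r) : CellOk k (C.TX r) (C.LX r) := by
  have ht : C.tr (rho C.toRows r) := by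
    by_contra h1
    exact hY (fun h2 => absurd h2 h1)
  exact (K_ok k (C.on r) (ci_le_co h ht)).t _

lemma allOk (h : Act C.canF s) : CellOk k (C.PR s) (C.LA s) := by
  by_cases h0 : C.rw s.facet = 0
  · rcases (act_J h0).1 h with h1 | h1
    · have e1 : C.PR s = C.pr s.facet := by funext x y; exact PR_J h0 h1 x y
      have e2 : C.LA s = C.la s.facet := by funext x y; exact LA_J h0 h1 x y
      rw [e1, e2]
      exact C.ok _ h0
    · have e1 : C.PR s = fun x y => C.pr s.facet (k - x) (k - 1 - y) := by
        funext x y; exact PR_J2 h0 h1 x y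
      have e2 : C.LA s = fun x y => C.la s.facet (k - 1 - x) (k - y) := by
        funext x y; exact LA_J2 h0 h1 x y
      rw [e1, e2]
      exact ok_rot (C.ok _ h0)
  · obtain ⟨r, hr, -, h2⟩ := ex_up (C := C) h0
    rcases h2 with h2 | h2 | h2 | h2
    · subst h2
      have e1 : C.PR s = C.TY s := by funext x y; exact PR_r hr x y
      have e2 : C.LA s = C.LY s := by funext x y; exact LA_r hr x y
      rw [e1, e2]
      exact TY_ok hr
    · subst h2
      have e1 : C.PR r.r2 = fun x y => C.TY r (k - x) (k - 1 - y) := by
        funext x y; exact PR_r2 hr x y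
      have e2 : C.LA r.r2 = fun x y => C.LY r (k - 1 - x) (k - y) := by
        funext x y; exact LA_r2 hr x y
      rw [e1, e2]
      exact ok_rot (TY_ok hr)
    · subst h2
      have e1 : C.PR r.rL = C.TX r := by funext x y; exact PR_rL hr x y
      have e2 : C.LA r.rL = C.LX r := by funext x y; exact LA_rL hr x y
      rw [e1, e2]
      exact TX_ok hr ((act_rL hr).1 h)
    · subst h2
      have e1 : C.PR r.rR = fun x y => C.TX r (k - x) (k - 1 - y) := by
        funext x y; exact PR_rR hr x y
      have e2 : C.LA r.rR = fun x y => C.LX r (k - 1 - x) (k - y) := by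
        funext x y; exact LA_rR hr x y
      rw [e1, e2]
      exact ok_rot (TX_ok hr ((act_rR hr).1 h))

/-- strands over a side seen from both facets -/
lemma sideE (C : JX0 P k) (s : P.FSt) {y : ℕ} (hy : y < k) : C.EV s y =
    (by classical exact if Act C.canF s.stE then C.PR s.stE 0 y else false) := by
  rw [allE C s y hy, EV_r2 hy]

lemma sideN (C : JX0 P k) (s : P.FSt) {x : ℕ} (hx : x < k) : C.NV s x =
    (by classical exact if Act C.canF s.stN then C.LA s.stN x 0 else Ln.z) := by
  rw [allN C s x hx, NV_r2 hx]

/-- **The state table of a certificate.** -/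
noncomputable def atab (C : JX0 P k) : ATab P k where
  hk := C.kpos
  can := C.canF
  can_facet := canF_facet
  pr := C.PR
  la := C.LA
  ok := fun _ hs => allOk hs
  pr_rot := fun _ hs _ _ hx hy => PR_rot hs hx hy
  la_rot := fun _ hs _ _ hx hy => LA_rot hs hx hy
  gE := fun s hs hs' y hy => by
    have := C.sideE s hy
    rw [if_pos hs'] at this
    rw [← this]
    unfold EV
    rw [if_pos hs]
  gE' := fun s hs hs' y hy => by
    have := C.sideE s hy
    rw [if_neg hs'] at this
    rw [← this]
    unfold EV
    rw [if_pos hs]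
  gN := fun s hs hs' x hx => by
    have := C.sideN s hx
    rw [if_pos hs'] at this
    rw [← this]
    unfold NV
    rw [if_pos hs]
  gN' := fun s hs hs' x hx => by
    have := C.sideN s hx
    rw [if_neg hs'] at this
    rw [← this]
    unfold NV
    rw [if_pos hs]

end JX0

end Pool.Agent.MP42X
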