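import Pool.Agent.MP42.X.TabC

/-!
# The values of the strands of the tree bands
-/

set_option autoImplicit false
set_option linter.unusedSectionVars false

namespace Pool.Agent.MP42X

open Pool.Agent.Helper55.UNF Pool.Agent.MP42G Pool.Agent.MP42H
open Pool.Agent.Helper55.UNF.GridSolid hiding len

variable {P : GridSolid}

namespace JX0

variable {k : ℕ} {C : JX0 P k} {r s t a : P.FSt} {ψ χ : P.FSt → ℕ → ℕ → Prop} {c c' : Prop}

open Classical in
/-- values over the edges across the run, in the frame of the run -/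
noncomputable def uV (C : JX0 P k) (ψ χ : P.FSt → ℕ → ℕ → Prop) (r : P.FSt) : ℕ → ℕ → Prop :=
  if C.YY r then vN k (C.ng (rho C.toRows r)) (ψ r) else vT k (C.ng (rho C.toRows r)) (χ r.rL)

open Classical in
/-- values over the edges along the run, in the frame of the run -/
noncomputable def uH (C : JX0 P k) (ψ χ : P.FSt → ℕ → ℕ → Prop) (r : P.FSt) : ℕ → ℕ → Prop :=
  if C.YY r then hN k (C.ng (rho C.toRows r)) (χ r) else hT k (C.ng (rho C.toRows r)) (ψ r.rL)

/-- all used edges of the facet of `r` have the value `c` -/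
def OneR (C : JX0 P k) (ψ χ : P.FSt → ℕ → ℕ → Prop) (r : P.FSt) (c : Prop) : Prop :=
  PV k (C.WV r) (C.WH r) (C.uV ψ χ r) (C.uH ψ χ r) c

lemma OneR.congr (h : C.OneR ψ χ r c) (e : c ↔ c') : C.OneR ψ χ r c' :=
  ⟨fun x y hx hy hp => (h.1 x y hx hy hp).trans e, fun x y hx hy hp => (h.2 x y hx hy hp).trans e⟩

lemma m_lt (C : JX0 P k) : C.m < k := by have := C.hk; omega

lemma vci_lt (C : JX0 P k) (r : P.FSt) : C.ci r < k := by
  have := C.hk
  unfold ci; split_ifs <;> omega

lemma vco_lt (C : JX0 P k) (r : P.FSt) : C.co r < k := by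
  have := C.hk
  unfold co; split_ifs <;> omega

lemma vci_le_co (C : JX0 P k) (r : P.FSt) : C.ci r ≤ C.co r := by
  have := C.hk
  unfold ci co; split_ifs <;> omega

lemma W_ok (C : JX0 P k) (r : P.FSt) : PathOk k (C.WV r) (C.WH r) :=
  K_ok k _ fun _ _ => vci_le_co C r

lemma vWV_front (hu : C.WV r k C.m = true) : C.on r = true ∧ C.cn r ≠ C.ct r := by
  unfold WV at hu
  rw [KV_true] at hu
  refine ⟨hu.1, fun h => ?_⟩
  have := hu.2.2.2 h
  have := vco_lt C r
  omega

lemma vWH_top {x : ℕ} (hu : C.WH r x k = true) : C.on r = true ∧ C.cn r = C.ct r ∧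
    x = C.co r := by
  have := m_lt C
  unfold WH at hu
  rw [KH_true] at hu
  exact ⟨hu.1, by omega, by omega⟩

lemma PR_n (h : CU C.toRows r) (ht : C.tr (rho C.toRows r)) :
    C.PR r = nP k (C.ng (rho C.toRows r)) (C.WV r) := by
  funext x y; rw [PR_r h]; unfold TY; rw [if_pos ht]

lemma LA_n (h : CU C.toRows r) (ht : C.tr (rho C.toRows r)) :
    C.LA r = nL k (C.ng (rho C.toRows r)) (C.WH r) := by
  funext x y; rw [LA_r h]; unfold LY; rw [if_pos ht]

lemma PR_t (h : CU C.toRows r) : C.PR r.rL = tP k (C.ng (rho C.toRows r)) (C.WH r) := by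
  funext x y; rw [PR_rL h]; rfl

lemma LA_t (h : CU C.toRows r) : C.LA r.rL = tL k (C.ng (rho C.toRows r)) (C.WV r) := by
  funext x y; rw [LA_rL h]; rfl

/-! ## Bands -/

/-- the data of the band are constant along a row -/
lemma vYY_iff (ht : C.tr (rho C.toRows r)) : C.YY r ↔
    (if C.nn r ≤ C.tt r then C.z1 (rho C.toRows r) else C.z2 (rho C.toRows r)) = false :=
  ⟨fun h => h ht, fun h _ => h⟩

lemma yy1 (ht : C.tr (rho C.toRows r)) (h : C.nn r ≤ C.tt r) :
    C.YY r ↔ C.z1 (rho C.toRows r) = false := by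
  rw [vYY_iff ht, if_pos h]

lemma yy2 (ht : C.tr (rho C.toRows r)) (h : ¬ C.nn r ≤ C.tt r) :
    C.YY r ↔ C.z2 (rho C.toRows r) = false := by
  rw [vYY_iff ht, if_neg h]

lemma back (h : CU C.toRows r) : ∃ t, CU C.toRows t ∧ C.dd t t = r ∧
    C.rw t.facet = C.rw r.facet ∧ pE.SameCycle (rho C.toRows t) (rho C.toRows r) := by
  set b := C.ng (rho C.toRows r) with hb
  obtain ⟨h1, h2⟩ := cu_dirs h b
  refine ⟨(dir b).symm r, h1, ?_, h2, ?_⟩
  · have h3 := dd_D h1 b
    rw [Equiv.apply_symm_apply] at h3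
    rw [← h3]
    unfold dd
    rw [← hb, Equiv.apply_symm_apply]
  · rw [cu_rho_dirs h b]
    exact (same_dirs b _).symm

lemma rho_D (h : CU C.toRows r) : pE.SameCycle (rho C.toRows r) (rho C.toRows (C.dd r r)) := by
  have e : rho C.toRows (C.dd r r) = dir (C.ng (rho C.toRows r)) (rho C.toRows r) :=
    cu_rho_dir h _
  rw [e]
  exact same_dir _ _

section Rel

variable (hR : ARel k C.canF C.PR C.LA ψ χ)

include hR

lemma path_rel (h : CU C.toRows r) (ht : C.tr (rho C.toRows r)) :
    PathRel k (C.WV r) (C.WH r) (C.uV ψ χ r) (C.uH ψ χ r) := by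
  unfold uV uH
  by_cases hY : C.YY r
  · rw [if_pos hY, if_pos hY]
    have hc := hR.cell r ((act_r h).2 hY)
    rw [PR_n h ht, LA_n h ht] at hc
    exact (W_ok C r).rel_n _ hc
  · rw [if_neg hY, if_neg hY]
    have hc := hR.cell r.rL ((act_rL h).2 hY)
    rw [PR_t h, LA_t h] at hc
    exact (W_ok C r).rel_t _ hc

lemma oneR (h : CU C.toRows r) (ht : C.tr (rho C.toRows r)) : ∃ c, C.OneR ψ χ r c :=
  path_one (m_lt C) (vci_lt C r) (vco_lt C r) (fun _ _ => vci_le_co C r) (path_rel hR h ht)

/-- the values over a used front side -/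
lemma front (h : CU C.toRows r) (ht : C.tr (rho C.toRows r)) (hu : C.WV r k C.m = true)
    (hu' : C.WV (C.dd r r) 0 C.m = true) (hY : C.YY (C.dd r r) ↔ C.YY r) :
    C.uV ψ χ r k C.m ↔ C.uV ψ χ (C.dd r r) 0 C.m := by
  have hm := m_lt C
  have hs := rho_D h
  have hng : C.ng (rho C.toRows (C.dd r r)) = C.ng (rho C.toRows r) := ng_same h.lo_rho.rim hs
  have ht' : C.tr (rho C.toRows (C.dd r r)) := (tr_same h.lo_rho.rim hs).2 ht
  have hD := (cu_D h).1
  have b1 := PR_n h ht
  have b2 := PR_n hD ht'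
  have b3 := LA_t h
  have b4 := LA_t hD
  have b5 := act_r h
  have b6 := act_r hD
  have b7 := act_rL h
  have b8 := act_rL hD
  unfold uV
  rw [hng] at b2 b4 ⊢
  clear hD ht' hng hs
  unfold dd at *
  generalize C.ng (rho C.toRows r) = b at *
  by_cases h1 : C.YY r
  · rw [if_pos h1, if_pos (hY.2 h1)]
    have a1 := b5.2 h1
    have a2 := b6.2 (hY.2 h1)
    cases b
    · exact hR.gE r a1 a2 C.m hm (by rw [b1]; exact hu)
    · have e : (dir true r).stE = r := stE_pE_symm r
      have h3 := hR.gE (dir true r) a2 (by rw [e]; exact a1) C.m hm (by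
        rw [b2]
        show C.WV _ (k - k) C.m = true
        rw [Nat.sub_self]; exact hu')
      rw [e] at h3
      show ψ r (k - k) C.m ↔ ψ (dir true r) (k - 0) C.m
      rw [Nat.sub_self, Nat.sub_zero]
      exact h3.symm
  · rw [if_neg h1, if_neg (fun h2 => h1 (hY.1 h2))]
    have a1 := b7.2 h1
    have a2 := b8.2 (fun h2 => h1 (hY.1 h2))
    cases b
    · have e : (dir false r).rL.stN = r.rL := by
        rw [rL_stN]; exact congrArg _ (pE_s r)
      have h3 := hR.gN (dir false r).rL a2 (by rw [e]; exact a1) C.m hm (by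
        rw [b4]
        show (if C.WV _ (k - k) C.m = true then _ else _) ≠ Ln.z
        rw [Nat.sub_self, if_pos hu']; exact flet_ne _)
      rw [e] at h3
      show χ r.rL C.m (k - k) ↔ χ (dir false r).rL C.m (k - 0)
      rw [Nat.sub_self, Nat.sub_zero]
      exact h3.symm
    · have e : r.rL.stN = (dir true r).rL := rL_stN r
      have h3 := hR.gN r.rL a1 (by rw [e]; exact a2) C.m hm (by
        rw [b3]
        show (if C.WV _ k C.m = true then _ else _) ≠ Ln.z
        rw [if_pos hu]; exact flet_ne _)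
      rw [e] at h3
      exact h3

/-- the values over a used top side -/
lemma top {x : ℕ} (hx : x < k) (h : CU C.toRows r) (ht : C.tr (rho C.toRows r))
    (h5 : C.rw r.facet ≠ 5) (hu : C.WH r x k = true) (hY : C.YY r.stN ↔ C.YY r) :
    C.uH ψ χ r x k ↔ C.uH ψ χ r.stN x 0 := by
  have hr := h.rho_N h5
  have hN := (h.stN h5).1
  unfold uH
  rw [hr]
  by_cases h1 : C.YY r
  · rw [if_pos h1, if_pos (hY.2 h1)]
    exact hR.gN r ((act_r h).2 h1) ((act_r hN).2 (hY.2 h1))
      (if C.ng (rho C.toRows r) = true then k - 1 - x else x) (by split_ifs <;> omega) (by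
        rw [LA_n h ht]
        unfold nL
        have e : (if C.ng (rho C.toRows r) = true then
            k - 1 - (if C.ng (rho C.toRows r) = true then k - 1 - x else x)
            else (if C.ng (rho C.toRows r) = true then k - 1 - x else x)) = x := by
          split_ifs <;> omega
        rw [e, if_pos hu]; exact flet_ne _)
  · rw [if_neg h1, if_neg (fun h2 => h1 (hY.1 h2))]
    have e : r.rL.stE = r.stN.rL := rL_stE' r
    have h3 := hR.gE r.rL ((act_rL h).2 h1)
      (by rw [e]; exact (act_rL hN).2 (fun h2 => h1 (hY.1 h2)))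
      (if C.ng (rho C.toRows r) = true then x else k - 1 - x) (by split_ifs <;> omega) (by
        rw [PR_t h]
        unfold tP
        have e : (if C.ng (rho C.toRows r) = true then
            (if C.ng (rho C.toRows r) = true then x else k - 1 - x)
            else k - 1 - (if C.ng (rho C.toRows r) = true then x else k - 1 - x)) = x := by
          split_ifs <;> omega
        rw [e]; exact hu)
    rw [e] at h3
    exact h3

/-! ## Steps along the strands -/

lemma step_front (h : CU C.toRows r) (ht : C.tr (rho C.toRows r))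
    (hn : C.nn r < C.tt r ∨ (C.uu r ≤ C.nn r ∧ C.nn r < C.vv r)) (h1 : C.OneR ψ χ r c) :
    C.OneR ψ χ (C.dd r r) c := by
  obtain ⟨o1, o2, o3, o4⟩ := order h ht
  obtain ⟨e1, e2, e3, e4, e5⟩ := row_D h ht
  rw [if_neg (by omega)] at e1
  have hs := rho_D h
  have ht' := (tr_same h.lo_rho.rim hs).2 ht
  have hz1 := z1_same (C := C) h.lo_rho.rim hs
  have hz2 := z2_same (C := C) h.lo_rho.rim hs
  have hm := m_lt C
  have hu : C.WV r k C.m = true := by
    unfold WV
    rw [KV_true]
    refine ⟨?_, rfl, fun _ => vci_lt C r, fun h6 => ?_⟩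
    · unfold on; rw [decide_eq_true_iff]; omega
    · exfalso
      unfold cn ct at h6
      split_ifs at h6 <;> omega
  have hu' : C.WV (C.dd r r) 0 C.m = true := by
    unfold WV
    rw [KV_true]
    refine ⟨?_, rfl, fun h6 => ?_, fun _ => Nat.zero_le _⟩
    · unfold on; rw [decide_eq_true_iff]; omega
    · exfalso
      unfold cn at h6
      split_ifs at h6 <;> omega
  have hY : C.YY (C.dd r r) ↔ C.YY r := by
    rw [vYY_iff ht, vYY_iff ht', hz1, hz2]
    have : C.nn (C.dd r r) ≤ C.tt (C.dd r r) ↔ C.nn r ≤ C.tt r := by omega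
    simp only [this]
  obtain ⟨c', h2⟩ := oneR hR (cu_D h).1 ht'
  have h3 := front hR h ht hu hu' hY
  have h4 := h1.1 k C.m le_rfl hm hu
  have h5 := h2.1 0 C.m (Nat.zero_le _) hm hu'
  exact h2.congr (h5.symm.trans (h3.symm.trans h4))

lemma step_top (h : CU C.toRows r) (ht : C.tr (rho C.toRows r)) (h5 : C.rw r.facet ≠ 5)
    (hn : C.nn r = C.tt r ∨ C.nn r = C.vv r) (h1 : C.OneR ψ χ r c) :
    C.OneR ψ χ r.stN c := by
  obtain ⟨hN, hrw⟩ := h.stN h5
  have hr := h.rho_N h5
  have ht' : C.tr (rho C.toRows r.stN) := by rw [hr]; exact ht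
  obtain ⟨o1, o2, o3, o4⟩ := order h ht
  obtain ⟨p1, p2, p3, p4⟩ := order hN ht'
  obtain ⟨e1, e2, e3⟩ := row_N h ht h5
  have h0 := h.2
  have h0' := C.le5 r.facet
  have hk := C.hk
  have hrt : C.nn r.stN ≤ C.tt r.stN ↔ C.nn r ≤ C.tt r := by
    rcases hn with hn | hn
    · have := e1.1 hn; omega
    · have := e2.1 hn; omega
  have hco : C.ci r.stN = C.co r := by
    unfold ci co
    rw [hr, hrw]
    simp only [hrt]
    split_ifs <;> omega
  have hu : C.WH r (C.co r) k = true := by
    have := m_lt C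
    unfold WH
    rw [KH_true]
    refine ⟨?_, Or.inr ⟨?_, rfl, this⟩⟩
    · unfold on; rw [decide_eq_true_iff]; omega
    · unfold cn ct; split_ifs <;> omega
  have hu' : C.WH r.stN (C.co r) 0 = true := by
    unfold WH
    rw [KH_true]
    refine ⟨?_, Or.inl ⟨?_, hco.symm, Nat.zero_le _⟩⟩
    · unfold on; rw [decide_eq_true_iff]
      rcases hn with hn | hn
      · have := e1.1 hn; omega
      · have := e2.1 hn; omega
    · unfold cn
      rcases hn with hn | hn
      · have := e1.1 hn; split_ifs <;> omega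
      · have := e2.1 hn; split_ifs <;> omega
  have hY : C.YY r.stN ↔ C.YY r := by
    rw [vYY_iff ht, vYY_iff ht', hr]
    simp only [hrt]
  obtain ⟨c', h2⟩ := oneR hR hN ht'
  have h3 := top hR (vco_lt C r) h ht h5 hu hY
  have h4 := h1.2 _ k (vco_lt C r) le_rfl hu
  have h6 := h2.2 _ 0 (vco_lt C r) (Nat.zero_le _) hu'
  exact h2.congr (h6.symm.trans (h3.symm.trans h4))

end Rel

/-! ## Feet -/

/-- value of a foot, `z`: the label is `0` (values on the states) -/
noncomputable def vg (C : JX0 P k) (ψ χ : P.FSt → ℕ → ℕ → Prop) (z : Bool) (r : P.FSt) : Prop :=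
  if z then ψ (pN.symm r).rL k C.m else χ (pN.symm r) (fcol k (C.ng r)) k

lemma fcol_lt' (C : JX0 P k) (b : Bool) : fcol k b < k := by
  have := C.hk
  unfold fcol; split_ifs <;> omega

lemma J0 (h : C.Rim r) : C.rw (pN.symm r).facet = 0 := Rows.rw_symm C.toRows h

lemma act_wn {t : P.FSt} (h0 : C.rw t.facet = 0) {x : ℕ} (hw : wn k C.can C.la t x ≠ Ln.z) :
    Act C.canF t ∧ C.LA t x k ≠ Ln.z := by
  unfold wn at hw
  by_cases h2 : C.can t.facet = t
  · rw [if_pos h2] at hw
    exact ⟨(act_J h0).2 (Or.inl h2), by rw [LA_J h0 h2]; exact hw⟩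
  · rw [if_neg h2] at hw
    by_cases h3 : C.can t.facet = t.r2
    · rw [if_pos h3] at hw
      exact ⟨(act_J h0).2 (Or.inr h3), by rw [LA_J2 h0 h3, Nat.sub_self]; exact hw⟩
    · rw [if_neg h3] at hw
      exact absurd rfl hw

lemma act_wo {t : P.FSt} (h0 : C.rw t.facet = 0) {y : ℕ} (hw : wo k C.can C.pr t y = true) :
    Act C.canF t.rL ∧ C.PR t.rL k y = true := by
  have h0' : C.rw t.rL.facet = 0 := by rw [FSt.facet_rL]; exact h0
  unfold wo at hw
  by_cases h2 : C.can t.facet = t.rL
  · rw [if_pos h2] at hw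
    refine ⟨(act_J h0').2 (Or.inl (by rw [FSt.facet_rL]; exact h2)), ?_⟩
    rw [PR_J h0' (by rw [FSt.facet_rL]; exact h2), FSt.facet_rL]
    exact hw
  · rw [if_neg h2] at hw
    by_cases h3 : C.can t.facet = t.rR
    · rw [if_pos h3] at hw
      have h4 : C.can t.rL.facet = t.rL.r2 := by rw [FSt.facet_rL, FSt.rL_r2]; exact h3
      refine ⟨(act_J h0').2 (Or.inr h4), ?_⟩
      rw [PR_J2 h0' h4, FSt.facet_rL, Nat.sub_self]
      exact hw
    · rw [if_neg h3] at hw
      exact absurd hw (by decide)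

/-- a foot of a tree rim with the label `z` -/
def Foot (C : JX0 P k) (z : Bool) (r : P.FSt) : Prop :=
  (C.fa r ∧ C.z1 r = z) ∨ (C.fb r ∧ C.z2 r = z)

lemma foot_n (h : C.Rim r) (ht : C.tr r) (hf : C.Foot false r) : Act C.canF (pN.symm r) ∧
    C.LA (pN.symm r) (fcol k (C.ng r)) k ≠ Ln.z := by
  apply act_wn (J0 h)
  rw [C.rn r h _ (fcol_lt' C _), if_pos ht, if_pos ⟨hf, rfl⟩]
  exact flet_ne _

lemma foot_t (h : C.Rim r) (ht : C.tr r) (hf : C.Foot true r) : Act C.canF (pN.symm r).rL ∧
    C.PR (pN.symm r).rL k C.m = true := by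
  apply act_wo (J0 h)
  classical
  rw [C.ro r h _ (m_lt C)]
  exact decide_eq_true_iff.2 ⟨ht, hf, rfl⟩

section Rel

variable (hR : ARel k C.canF C.PR C.LA ψ χ)

include hR

/-- the value at a lower foot -/
lemma low_foot (h : Lo C.toRows r) (ht : C.tr r) {z : Bool} (hf : C.Foot z r)
    (hY : C.YY r ↔ z = false) (hci : C.ci r = if z then C.m else 0) :
    C.vg ψ χ z r ↔ C.uH ψ χ r (C.ci r) 0 := by
  have hk := C.hk
  have hr := h.rho
  have hcu := h.CU
  unfold vg uH
  rw [hci, hr]
  cases z
  · rw [if_pos (hY.2 rfl), if_neg (by decide), if_neg (by decide)]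
    obtain ⟨h1, h2⟩ := foot_n h.rim ht hf
    have h3 := hR.gN _ h1 (by rw [stN_pN_symm]; exact (act_r hcu).2 (hY.2 rfl)) _
      (fcol_lt' C _) h2
    rw [stN_pN_symm] at h3
    rw [h3]
    unfold hN fcol
    rw [Nat.sub_zero]
  · rw [if_neg (fun h => absurd (hY.1 h) (by decide)), if_pos rfl, if_pos rfl]
    obtain ⟨h1, h2⟩ := foot_t h.rim ht hf
    have e : (pN.symm r).rL.stE = r.rL := by rw [rL_stE', stN_pN_symm]
    have h3 := hR.gE _ h1 (by
      rw [e]; exact (act_rL hcu).2 (fun h => absurd (hY.1 h) (by decide))) _ (m_lt C) h2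
    rw [e] at h3
    rw [h3]
    unfold hT
    rw [show (if C.ng r = true then C.m else k - 1 - C.m) = C.m by split_ifs <;> omega]

/-- the value at an upper foot -/
lemma up_foot (h : CU C.toRows r) (h5 : C.rw r.facet = 5) (ht : C.tr (rho C.toRows r)) {z : Bool}
    (hf : C.Foot z r.r2) (hu : C.WH r (C.co r) k = true)
    (hY : C.YY r ↔ z = false) (hco : C.co r = if z then C.m else k - 1) :
    C.uH ψ χ r (C.co r) k ↔ C.vg ψ χ z r.r2 := by
  have hk := C.hk
  have hrim := rim5 h h5
  have htr := (tr5 h h5).2 ht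
  have hng : C.ng r.r2 = C.ng (rho C.toRows r) := by
    rw [← far_rho5 h h5]; exact C.ng_far _ h.lo_rho.rim
  have e : pN.symm r.r2 = r.stN.r2 := pN_symm_r2 r
  have hLA := LA_n h ht
  have hPR := PR_t h
  unfold vg uH
  rw [hco] at hu ⊢
  rw [hng, e]
  cases z
  · rw [if_pos (hY.2 rfl), if_neg (by decide), if_neg (by decide)]
    rw [if_neg (by decide)] at hu
    obtain ⟨h1, h2⟩ := foot_n hrim htr hf
    rw [e] at h1
    have h1' : Act C.canF r.stN := (act_r2_iff' _ _).1 h1
    have h3 := hR.gN r ((act_r h).2 (hY.2 rfl)) h1'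
      (if C.ng (rho C.toRows r) = true then 0 else k - 1) (by split_ifs <;> omega) (by
        rw [hLA]
        unfold nL
        rw [show (if C.ng (rho C.toRows r) = true then
            k - 1 - (if C.ng (rho C.toRows r) = true then 0 else k - 1)
            else (if C.ng (rho C.toRows r) = true then 0 else k - 1)) = k - 1 by
          split_ifs <;> omega, if_pos hu]
        exact flet_ne _)
    have h4 := hR.rotH r.stN h1' (fcol k (C.ng (rho C.toRows r))) k (fcol_lt' C _) le_rfl
    rw [h4]
    unfold hN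
    rw [show (if C.ng (rho C.toRows r) = true then k - 1 - (k - 1) else k - 1) =
      (if C.ng (rho C.toRows r) = true then 0 else k - 1) by split_ifs <;> omega, h3,
      Nat.sub_self]
    rw [show k - 1 - fcol k (C.ng (rho C.toRows r)) =
      (if C.ng (rho C.toRows r) = true then 0 else k - 1) by unfold fcol; split_ifs <;> omega]
  · rw [if_neg (fun h => absurd (hY.1 h) (by decide)), if_pos rfl, if_pos rfl]
    rw [if_pos rfl] at hu
    obtain ⟨h1, h2⟩ := foot_t hrim htr hf
    rw [e, FSt.r2_rL] at h1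
    have h1' : Act C.canF r.stN.rL := by
      apply (act_r2_iff' _ _).1
      rw [FSt.rL_r2]; exact h1
    have e2 : r.rL.stE = r.stN.rL := rL_stE' r
    have h3 := hR.gE r.rL ((act_rL h).2 (fun h => absurd (hY.1 h) (by decide)))
      (by rw [e2]; exact h1') C.m (m_lt C) (by
        rw [hPR]
        unfold tP
        rw [show (if C.ng (rho C.toRows r) = true then C.m else k - 1 - C.m) = C.m by
          split_ifs <;> omega]
        exact hu)
    rw [e2] at h3
    have h4 := hR.rotV r.stN.rL h1' k C.m le_rfl (m_lt C)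
    rw [Nat.sub_self, show k - 1 - C.m = C.m by omega, FSt.rL_r2] at h4
    rw [FSt.r2_rL, h4]
    unfold hT
    rw [show (if C.ng (rho C.toRows r) = true then C.m else k - 1 - C.m) = C.m by
      split_ifs <;> omega]
    exact h3

/-! ## The values of the strands -/

/-- Value of strand 1 of a tree band. -/
lemma val_1 : ∀ (i n : ℕ) (r : P.FSt), CU C.toRows r → C.tr (rho C.toRows r) →
    C.rw r.facet = i → C.nn r = n → n ≤ C.tt r →
    C.OneR ψ χ r (C.vg ψ χ (C.z1 (rho C.toRows r)) (C.aa (rho C.toRows r))) := by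
  intro i
  induction i with
  | zero => intro n r h _ h0; exact absurd h0 h.2
  | succ i ihi =>
    intro n
    induction n with
    | zero =>
      intro r h ht hw hn htt
      by_cases h1 : C.rw r.facet = 1
      · -- the foot
        obtain ⟨c, hc⟩ := oneR hR h ht
        have hl : Lo C.toRows r := ⟨h.1, h1⟩
        have e := hl.rho
        have ht0 := ht
        rw [e] at ht ⊢
        have hf := (fa_row1 hl ht).2 hn
        have ea : C.aa r = r := ((fa_iff hl.rim (act_of hl.rim ht)).1 hf).symm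
        rw [ea]
        have hle : C.nn r ≤ C.tt r := by omega
        have hci : C.ci r = if C.z1 r then C.m else 0 := by
          unfold ci; rw [e, if_pos hle, if_pos h1]
        have h2 := low_foot hR hl ht (z := C.z1 r) (Or.inl ⟨hf, rfl⟩)
          (by rw [yy1 ht0 hle, e]) hci
        have hu : C.WH r (C.ci r) 0 = true := by
          unfold WH
          rw [KH_true]
          refine ⟨?_, Or.inl ⟨?_, rfl, Nat.zero_le _⟩⟩
          · unfold on; rw [decide_eq_true_iff]; omega
          · unfold cn; rw [if_pos hle, hn]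
        exact hc.congr ((hc.2 _ 0 (vci_lt C r) (Nat.zero_le _) hu).symm.trans h2.symm)
      · obtain ⟨t, rfl⟩ : ∃ t : P.FSt, t.stN = r := ⟨pN.symm r, by simp⟩
        obtain ⟨g1, g2⟩ := h.S h1
        rw [pN_s] at g1 g2
        have h5 := C.le5 t.stN.facet
        have e := g1.rho_N (by omega)
        rw [e] at ht ⊢
        have h6 := (row_N g1 ht (by omega)).1.2 hn
        have h7 := ihi (C.nn t) t g1 ht (by omega) rfl h6.le
        exact step_top hR g1 ht (by omega) (Or.inl h6) h7
    | succ n ihn =>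
      intro r h ht hw hn htt
      obtain ⟨t, h', hD, hw', hs⟩ := back h
      subst hD
      have ht' : C.tr (rho C.toRows t) := (tr_same h'.lo_rho.rim hs).1 ht
      obtain ⟨e1, e2, e3, e4, e5⟩ := row_D h' ht'
      obtain ⟨o1, o2, o3, o4⟩ := order h' ht'
      have e7 : C.nn t = n := by
        rw [e1] at hn
        split_ifs at hn
        omega
      have h7 := ihn t h' ht' (by rw [hw']; exact hw) e7 (by omega)
      rw [aa_same h'.lo_rho.rim (act_of h'.lo_rho.rim ht') hs, z1_same h'.lo_rho.rim hs]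
      exact step_front hR h' ht' (Or.inl (by omega)) h7

/-- Value of strand 2 of a tree band. -/
lemma val_2 : ∀ (i n : ℕ) (r : P.FSt), CU C.toRows r → C.tr (rho C.toRows r) →
    C.rw r.facet = i → C.nn r = C.uu r + n → C.nn r ≤ C.vv r →
    C.OneR ψ χ r (C.vg ψ χ (C.z2 (rho C.toRows r)) (C.bb (rho C.toRows r))) := by
  intro i
  induction i with
  | zero => intro n r h _ h0; exact absurd h0 h.2
  | succ i ihi =>
    intro n
    induction n with
    | zero =>
      intro r h ht hw hn htt
      obtain ⟨o1, o2, o3, o4⟩ := order h ht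
      by_cases h1 : C.rw r.facet = 1
      · -- the foot
        obtain ⟨c, hc⟩ := oneR hR h ht
        have hl : Lo C.toRows r := ⟨h.1, h1⟩
        have e := hl.rho
        have ht0 := ht
        rw [e] at ht ⊢
        have hf := (fb_row1 hl ht).2 (by omega)
        have eb : C.bb r = r := ((fb_iff hl.rim ht).1 hf).symm
        rw [eb]
        have hle : ¬ C.nn r ≤ C.tt r := by omega
        have hci : C.ci r = if C.z2 r then C.m else 0 := by
          unfold ci; rw [e, if_neg hle, if_pos (show C.rw r.facet ≤ 2 by omega)]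
        have h2 := low_foot hR hl ht (z := C.z2 r) (Or.inr ⟨hf, rfl⟩)
          (by rw [yy2 ht0 hle, e]) hci
        have hu : C.WH r (C.ci r) 0 = true := by
          unfold WH
          rw [KH_true]
          refine ⟨?_, Or.inl ⟨?_, rfl, Nat.zero_le _⟩⟩
          · unfold on; rw [decide_eq_true_iff]; omega
          · unfold cn; rw [if_neg hle, hn]; omega
        exact hc.congr ((hc.2 _ 0 (vci_lt C r) (Nat.zero_le _) hu).symm.trans h2.symm)
      · obtain ⟨t, rfl⟩ : ∃ t : P.FSt, t.stN = r := ⟨pN.symm r, by simp⟩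
        obtain ⟨g1, g2⟩ := h.S h1
        rw [pN_s] at g1 g2
        have h5 := C.le5 t.stN.facet
        have e := g1.rho_N (by omega)
        rw [e] at ht ⊢
        obtain ⟨p1, p2, p3, p4⟩ := order g1 ht
        have h6 := (row_N g1 ht (by omega)).2.1.2 (by omega)
        have h7 := ihi (C.vv t - C.uu t) t g1 ht (by omega) (by omega) (by omega)
        exact step_top hR g1 ht (by omega) (Or.inr h6) h7
    | succ n ihn =>
      intro r h ht hw hn htt
      obtain ⟨t, h', hD, hw', hs⟩ := back h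
      subst hD
      have ht' : C.tr (rho C.toRows t) := (tr_same h'.lo_rho.rim hs).1 ht
      obtain ⟨e1, e2, e3, e4, e5⟩ := row_D h' ht'
      obtain ⟨o1, o2, o3, o4⟩ := order h' ht'
      have e7 : C.nn t + 1 = C.nn (C.dd t t) := by
        rw [e1] at hn ⊢
        split_ifs at hn ⊢
        omega
      have h7 := ihn t h' ht' (by rw [hw']; exact hw) (by omega) (by omega)
      rw [bb_same h'.lo_rho.rim ht' hs, z2_same h'.lo_rho.rim hs]
      exact step_front hR h' ht' (Or.inr (by omega)) h7

end Rel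

end JX0

end Pool.Agent.MP42X
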