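import Pool.Agent.MP42.X.Val
import Pool.Agent.MP42.H.One

/-!
# The values of the feet and of the core
-/

set_option autoImplicit false
set_option linter.unusedSectionVars false

namespace Pool.Agent.MP42X

open Pool.Agent.Helper55.UNF Pool.Agent.MP42G Pool.Agent.MP42H
open Pool.Agent.Helper55.UNF.GridSolid hiding len

variable {P : GridSolid}

namespace JX0

variable {k : ℕ} {C : JX0 P k} {r s t a ρ : P.FSt} {ψ χ : P.FSt → ℕ → ℕ → Prop} {c c' : Prop}

lemma rim_core' (h : C.Rim ρ) : (Lo C.toRows ρ) ∨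
    (∃ r, CU C.toRows r ∧ C.rw r.facet = 5 ∧ ρ = r.r2) := by
  rcases h with h | h
  · exact Or.inl h
  · exact Or.inr ⟨ρ.r2, ⟨h.1, by rw [FSt.facet_r2, h.2]; norm_num⟩, by rw [FSt.facet_r2, h.2],
      (FSt.r2_r2 ρ).symm⟩

/-- the state of row 5 over an upper rim state -/
lemma up_of (h : Lo C.toRows ρ) (hs : pE.SameCycle (Rows.far ρ) a) :
    ∃ r, CU C.toRows r ∧ C.rw r.facet = 5 ∧ a = r.r2 ∧ pE.SameCycle ρ (rho C.toRows r) := by
  have ha := Rim.same h.far_rim hs
  rcases rim_core' ha with h1 | ⟨r, hr, h5, rfl⟩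
  · exfalso
    have h2 := h1.same hs.symm
    have h3 := h.far_rim
    rcases h3 with h3 | h3
    · have h4 := (h.CU.upw 4 (by rw [h.2])).2.1
      have : C.rw (Rows.far ρ).facet = C.rw ((pN ^ 4) ρ).facet := by
        unfold Rows.far; rw [FSt.facet_r2]
      rw [h2.2, h4, h.2] at this
      omega
    · rw [h2.2] at h3
      omega
  · refine ⟨r, hr, h5, rfl, ?_⟩
    have h3 := Rim.far_same h.far_rim hs
    rw [h.far_far] at h3
    have h4 : Rows.far r.r2 = rho C.toRows r := by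
      rw [← far_rho5 hr h5, hr.lo_rho.far_far]
    rwa [h4] at h3

section Rel

variable (hR : ARel k C.canF C.PR C.LA ψ χ)

include hR

lemma c1_low (h : Lo C.toRows ρ) (ht : C.tr ρ) (hf : C.fa ρ)
    (hs : pE.SameCycle (Rows.far ρ) a) (ha : C.fa a) :
    C.vg ψ χ (C.z1 ρ) ρ ↔ C.vg ψ χ (C.z1 a) a := by
  have hk := C.hk
  obtain ⟨r, hr, h5, rfl, h3⟩ := up_of h hs
  have htr : C.tr (rho C.toRows r) := (tr_same h.rim h3).2 ht
  have ea : C.aa (rho C.toRows r) = ρ := by
    rw [aa_same h.rim (act_of h.rim ht) h3]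
    exact ((fa_iff h.rim (act_of h.rim ht)).1 hf).symm
  have ez : C.z1 (rho C.toRows r) = C.z1 ρ := z1_same h.rim h3
  have ez' : C.z1 r.r2 = C.z1 (rho C.toRows r) := by
    rw [← far_rho5 hr h5]; exact C.z1_far _ hr.lo_rho.rim
  have hn := (fa_row5 hr h5 htr).1 ha
  have h1 := val_1 hR _ _ r hr htr rfl rfl hn.le
  rw [ea, ez] at h1
  have hle : C.nn r ≤ C.tt r := hn.le
  have hu : C.WH r (C.co r) k = true := by
    have := m_lt C
    unfold WH
    rw [KH_true]
    refine ⟨?_, Or.inr ⟨?_, rfl, this⟩⟩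
    · unfold on; rw [decide_eq_true_iff]; omega
    · unfold cn ct; rw [if_pos hle, if_pos hle, hn]
  have h2 := up_foot hR hr h5 htr (z := C.z1 ρ) (Or.inl ⟨ha, by rw [ez', ez]⟩) hu
    (by rw [yy1 htr hle, ez]) (by unfold co; rw [if_pos hle, if_pos h5, ez])
  rw [ez', ez]
  exact (h1.2 _ k (vco_lt C r) le_rfl hu).symm.trans h2

lemma c2_low (h : Lo C.toRows ρ) (ht : C.tr ρ) (hf : C.fb ρ)
    (hs : pE.SameCycle (Rows.far ρ) a) (ha : C.fb a) :
    C.vg ψ χ (C.z2 ρ) ρ ↔ C.vg ψ χ (C.z2 a) a := by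
  have hk := C.hk
  obtain ⟨r, hr, h5, rfl, h3⟩ := up_of h hs
  have htr : C.tr (rho C.toRows r) := (tr_same h.rim h3).2 ht
  have eb : C.bb (rho C.toRows r) = ρ := by
    rw [bb_same h.rim ht h3]
    exact ((fb_iff h.rim ht).1 hf).symm
  have ez : C.z2 (rho C.toRows r) = C.z2 ρ := z2_same h.rim h3
  have ez' : C.z2 r.r2 = C.z2 (rho C.toRows r) := by
    rw [← far_rho5 hr h5]; exact C.z2_far _ hr.lo_rho.rim
  have hn := (fb_row5 hr h5 htr).1 ha
  obtain ⟨o1, o2, o3, o4⟩ := order hr htr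
  have h1 := val_2 hR _ (C.nn r - C.uu r) r hr htr rfl (by omega) (by omega)
  rw [eb, ez] at h1
  have hle : ¬ C.nn r ≤ C.tt r := by omega
  have hu : C.WH r (C.co r) k = true := by
    have := m_lt C
    unfold WH
    rw [KH_true]
    refine ⟨?_, Or.inr ⟨?_, rfl, this⟩⟩
    · unfold on; rw [decide_eq_true_iff]; omega
    · unfold cn ct; rw [if_neg hle, if_neg hle, hn]
  have h2 := up_foot hR hr h5 htr (z := C.z2 ρ) (Or.inr ⟨ha, by rw [ez', ez]⟩) hu
    (by rw [yy2 htr hle, ez]) (by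
      unfold co
      rw [if_neg hle, if_neg (show ¬ C.rw r.facet = 1 by omega),
        if_neg (show ¬ C.rw r.facet ≤ 3 by omega), ez])
  rw [ez', ez]
  exact (h1.2 _ k (vco_lt C r) le_rfl hu).symm.trans h2

/-- the two feet of strand 1 of a tree band -/
theorem core_1 (h : C.Rim ρ) (ht : C.tr ρ) (hf : C.fa ρ)
    (hs : pE.SameCycle (Rows.far ρ) a) (ha : C.fa a) :
    C.vg ψ χ (C.z1 ρ) ρ ↔ C.vg ψ χ (C.z1 a) a := by
  rcases rim_cases h with h1 | ⟨t, h1, h2, h3⟩
  · exact c1_low hR h1 ht hf hs ha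
  · rw [h3] at hs
    have hal := h1.same hs
    have hta : C.tr a := (tr_same h1.rim hs).2 (by
      rw [← C.tr_far t h1.rim, ← h2]; exact ht)
    have hs' : pE.SameCycle (Rows.far a) ρ := by
      rw [h2]; exact (h1.far_same hs).symm
    exact (c1_low hR hal hta ha hs' hf).symm

/-- the two feet of strand 2 of a tree band -/
theorem core_2 (h : C.Rim ρ) (ht : C.tr ρ) (hf : C.fb ρ)
    (hs : pE.SameCycle (Rows.far ρ) a) (ha : C.fb a) :
    C.vg ψ χ (C.z2 ρ) ρ ↔ C.vg ψ χ (C.z2 a) a := by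
  rcases rim_cases h with h1 | ⟨t, h1, h2, h3⟩
  · exact c2_low hR h1 ht hf hs ha
  · rw [h3] at hs
    have hal := h1.same hs
    have hta : C.tr a := (tr_same h1.rim hs).2 (by
      rw [← C.tr_far t h1.rim, ← h2]; exact ht)
    have hs' : pE.SameCycle (Rows.far a) ρ := by
      rw [h2]; exact (h1.far_same hs).symm
    exact (c2_low hR hal hta ha hs' hf).symm

end Rel

/-! ## Cut bands -/

/-- all used edges of the facet of `s` have the value `c` -/
def OneS (C : JX0 P k) (ψ χ : P.FSt → ℕ → ℕ → Prop) (s : P.FSt) (c : Prop) : Prop :=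
  OneV k (C.PR s) (C.LA s) (ψ s) (χ s) c

lemma OneS.congr (h : C.OneS ψ χ s c) (e : c ↔ c') : C.OneS ψ χ s c' :=
  ⟨fun x y hx hy hp => (h.1 x y hx hy hp).trans e, fun x y hx hy hp => (h.2 x y hx hy hp).trans e⟩

lemma PR_r2' (h0 : C.rw s.facet ≠ 0) {x y : ℕ} (hx : x ≤ k) (hy : y < k) :
    C.PR s.r2 x y = C.PR s (k - x) (k - 1 - y) := by
  obtain ⟨r, hr, -, rfl | rfl | rfl | rfl⟩ := ex_up (C := C) h0
  · rw [PR_r2 hr, PR_r hr]
  · rw [FSt.r2_r2, PR_r2 hr, PR_r hr]
    congr 1 <;> omega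
  · rw [FSt.rL_r2, PR_rR hr, PR_rL hr]
  · rw [FSt.rR_r2, PR_rR hr, PR_rL hr]
    congr 1 <;> omega

lemma LA_r2' (h0 : C.rw s.facet ≠ 0) {x y : ℕ} (hx : x < k) (hy : y ≤ k) :
    C.LA s.r2 x y = C.LA s (k - 1 - x) (k - y) := by
  obtain ⟨r, hr, -, rfl | rfl | rfl | rfl⟩ := ex_up (C := C) h0
  · rw [LA_r2 hr, LA_r hr]
  · rw [FSt.r2_r2, LA_r2 hr, LA_r hr]
    congr 1 <;> omega
  · rw [FSt.rL_r2, LA_rR hr, LA_rL hr]
  · rw [FSt.rR_r2, LA_rR hr, LA_rL hr]
    congr 1 <;> omega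

lemma OneV_congr {pr pr' : ℕ → ℕ → Bool} {la la' : ℕ → ℕ → Ln} {ψ χ : ℕ → ℕ → Prop}
    (hp : ∀ x y, x ≤ k → y < k → pr' x y = pr x y) (hl : ∀ x y, x < k → y ≤ k → la' x y = la x y)
    (h : OneV k pr la ψ χ c) : OneV k pr' la' ψ χ c :=
  ⟨fun x y hx hy h1 => h.1 x y hx hy (by rw [← hp x y hx hy]; exact h1),
   fun x y hx hy h1 => h.2 x y hx hy (by rw [← hl x y hx hy]; exact h1)⟩

lemma CellRel_congr {pr pr' : ℕ → ℕ → Bool} {la la' : ℕ → ℕ → Ln} {ψ χ : ℕ → ℕ → Prop}
    (hp : ∀ x y, x ≤ k → y < k → pr' x y = pr x y) (hl : ∀ x y, x < k → y ≤ k → la' x y = la x y)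
    (h : CellRel k pr la ψ χ) : CellRel k pr' la' ψ χ := by
  intro x y hx hy p
  rw [hp x y hx.le hy, hp (x + 1) y hx hy, hl x (y + 1) hx hy, hl x y hx hy.le]
  exact h x y hx hy p

lemma YYc (ht : ¬ C.tr (rho C.toRows r)) : C.YY r := fun h1 => absurd h1 ht

/-- feet of the rims that are cut -/
lemma foot_c (h : C.Rim r) (ht : ¬ C.tr r) (hf : C.fa r) : Act C.canF (pN.symm r) ∧
    C.LA (pN.symm r) 0 k ≠ Ln.z := by
  have := C.hk
  apply act_wn (J0 h)
  rw [C.rn r h _ (by omega), if_neg ht, if_pos ⟨hf, rfl⟩]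
  decide

lemma foot_s (h : C.Rim r) (ht : ¬ C.tr r) (hf : C.fa r.stE) : Act C.canF (pN.symm r) ∧
    C.LA (pN.symm r) (k - 1) k ≠ Ln.z := by
  have := C.hk
  have := C.hm
  apply act_wn (J0 h)
  rw [C.rn r h _ (by omega), if_neg ht, if_neg (by omega), if_pos ⟨hf, by omega⟩]
  decide

section Rel

variable (hR : ARel k C.canF C.PR C.LA ψ χ)

include hR

lemma OneS.rot (h : C.OneS ψ χ s c) (h0 : C.rw s.facet ≠ 0) (hs : Act C.canF s) :
    C.OneS ψ χ s.r2 c := by
  constructor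
  · intro x y hx hy hp
    rw [PR_r2' h0 hx hy] at hp
    rw [hR.rotV s hs x y hx hy]
    exact h.1 _ _ (by omega) (by omega) hp
  · intro x y hx hy hp
    rw [LA_r2' h0 hx hy] at hp
    rw [hR.rotH s hs x y hx hy]
    exact h.2 _ _ (by omega) (by omega) hp

lemma one_C1 (h : CU C.toRows r) (ht : ¬ C.tr (rho C.toRows r))
    (h1 : C.rw r.facet = 1 ∧ C.ac (rho C.toRows r)) : ∃ c, C.OneS ψ χ r c := by
  have hk := C.hk
  have hm := C.hm
  have e1 : C.PR r = CP C.m k (C.na r) (C.LL r) := by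
    funext x y; rw [PR_r h]; unfold TY; rw [if_neg ht, if_pos h1]
  have e2 : C.LA r = CL C.m k (C.na r) (C.LL r) := by
    funext x y; rw [LA_r h]; unfold LY; rw [if_neg ht, if_pos h1]
  have hc := hR.cell r ((act_r h).2 (YYc ht))
  unfold OneS
  rw [e1, e2] at hc ⊢
  exact C_one hc (by omega) (by omega)

lemma one_C5 (h : CU C.toRows r) (ht : ¬ C.tr (rho C.toRows r))
    (h5 : C.rw r.facet = 5 ∧ C.ac (Rows.far (rho C.toRows r))) : ∃ c, C.OneS ψ χ r.r2 c := by
  have hk := C.hk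
  have hm := C.hm
  have e1 : ∀ x y, x ≤ k → y < k → C.PR r.r2 x y = CP C.m k (C.na' r) (C.LL r) x y := by
    intro x y hx hy
    rw [PR_r2 h]
    unfold TY
    rw [if_neg ht, if_neg (by omega), if_pos h5, show k - (k - x) = x by omega,
      show k - 1 - (k - 1 - y) = y by omega]
  have e2 : ∀ x y, x < k → y ≤ k → C.LA r.r2 x y = CL C.m k (C.na' r) (C.LL r) x y := by
    intro x y hx hy
    rw [LA_r2 h]
    unfold LY
    rw [if_neg ht, if_neg (by omega), if_pos h5, show k - 1 - (k - 1 - x) = x by omega,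
      show k - (k - y) = y by omega]
  have hc := hR.cell r.r2 ((act_r2 h).2 (YYc ht))
  have hc' := CellRel_congr (pr' := CP C.m k (C.na' r) (C.LL r))
    (la' := CL C.m k (C.na' r) (C.LL r)) (fun x y hx hy => (e1 x y hx hy).symm)
    (fun x y hx hy => (e2 x y hx hy).symm) hc
  obtain ⟨c, hc2⟩ := C_one hc' (by omega) (by omega)
  exact ⟨c, OneV_congr e1 e2 hc2⟩

/-- Value of the strand of a cut band (lower side). -/
lemma val_C1 : ∀ (n : ℕ) (r : P.FSt), Lo C.toRows r → ¬ C.tr r → C.ac r → C.na r = n →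
    C.OneS ψ χ r (χ (pN.symm (C.aa r)) 0 k) := by
  have hk := C.hk
  have hm := C.hm
  intro n
  induction n with
  | zero =>
    intro r h ht hc hn
    have e := h.rho
    have hYr : C.YY r := YYc (by rw [e]; exact ht)
    obtain ⟨c, h1⟩ := one_C1 hR h.CU (by rw [e]; exact ht) ⟨h.2, by rw [e]; exact hc⟩
    have hf := (fa_cut1 h hc).1.2 hn
    have ea : C.aa r = r := ((fa_iff h.rim hc).1 hf).symm
    rw [ea]
    obtain ⟨g1, g2⟩ := foot_c h.rim ht hf
    have h4 := hR.gN _ g1 (by rw [stN_pN_symm]; exact (act_r h.CU).2 hYr) 0 (by omega) g2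
    rw [stN_pN_symm] at h4
    have h3 : C.LA r 0 0 ≠ Ln.z := by
      rw [LA_r h.CU]; unfold LY
      rw [if_neg (by rw [e]; exact ht), if_pos ⟨h.2, by rw [e]; exact hc⟩, CL_ne]
      exact Or.inl ⟨hn, rfl, Nat.zero_le _⟩
    exact h1.congr ((h1.2 0 0 (by omega) (Nat.zero_le _) h3).symm.trans h4.symm)
  | succ n ihn =>
    intro r h ht hc hn
    have e := h.rho
    have hYr : C.YY r := YYc (by rw [e]; exact ht)
    obtain ⟨c, h1⟩ := one_C1 hR h.CU (by rw [e]; exact ht) ⟨h.2, by rw [e]; exact hc⟩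
    obtain ⟨t, rfl⟩ : ∃ t : P.FSt, t.stE = r := ⟨pE.symm r, by simp⟩
    have h' : Lo C.toRows t := h.same (by
      have := (same_E t).symm
      exact this)
    have ht' : ¬ C.tr t := fun h2 => ht ((C.tr_E t h'.rim).2 h2)
    have hc' : C.ac t := (C.ac_E t h'.rim).1 hc
    have e' := h'.rho
    have hYt : C.YY t := YYc (by rw [e']; exact ht')
    have hlt := na_lt h'.CU (by rw [e']; exact hc')
    have h2 := na_E h'.CU (by rw [e']; exact hc')
    have h3 : C.na t = n := by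
      rw [h2] at hn
      split_ifs at hn
      omega
    have h4 : C.na t + 1 ≠ C.LL t := by
      intro h5
      rw [if_pos h5] at h2
      omega
    have h7 := ihn t h' ht' hc' h3
    have ea : C.aa t.stE = C.aa t := aa_same h'.rim hc' (same_E _)
    rw [ea]
    have hu : C.PR t k C.m = true := by
      rw [PR_r h'.CU]; unfold TY
      rw [if_neg (by rw [e']; exact ht'), if_pos ⟨h'.2, by rw [e']; exact hc'⟩, CP_true]
      exact ⟨rfl, fun _ => by omega, fun h5 => absurd h5 h4⟩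
    have hu' : C.PR t.stE 0 C.m = true := by
      rw [PR_r h.CU]; unfold TY
      rw [if_neg (by rw [e]; exact ht), if_pos ⟨h.2, by rw [e]; exact hc⟩, CP_true]
      exact ⟨rfl, fun h5 => by omega, fun _ => by omega⟩
    have h8 := hR.gE t ((act_r h'.CU).2 hYt) ((act_r h.CU).2 hYr) C.m (by omega) hu
    have h9 := h7.1 k C.m le_rfl (by omega) hu
    have h10 := h1.1 0 C.m (Nat.zero_le _) (by omega) hu'
    exact h1.congr (h10.symm.trans (h8.symm.trans h9))

/-- Value of the strand of a cut band (upper side). -/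
lemma val_C5 : ∀ (n : ℕ) (r : P.FSt), CU C.toRows r → C.rw r.facet = 5 →
    ¬ C.tr (rho C.toRows r) → C.ac r.r2 → C.na' r = n →
    C.OneS ψ χ r.r2 (χ (pN.symm (C.aa r.r2)) 0 k) := by
  have hk := C.hk
  have hm := C.hm
  intro n
  induction n with
  | zero =>
    intro r h h5 ht hc hn
    have hYr : C.YY r := YYc ht
    have hca : C.ac (Rows.far (rho C.toRows r)) := by rw [far_rho5 h h5]; exact hc
    obtain ⟨c, h1⟩ := one_C5 hR h ht ⟨h5, hca⟩
    have hr := rim5 h h5
    have htr : ¬ C.tr r.r2 := fun h2 => ht ((tr5 h h5).1 h2)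
    have hf := (fa_cut5 h h5 hc).1.2 hn
    have ea : C.aa r.r2 = r.r2 := ((fa_iff hr hc).1 hf).symm
    rw [ea]
    obtain ⟨g1, g2⟩ := foot_c hr htr hf
    have h4 := hR.gN _ g1 (by rw [stN_pN_symm]; exact (act_r2 h).2 hYr) 0 (by omega) g2
    rw [stN_pN_symm] at h4
    have h3 : C.LA r.r2 0 0 ≠ Ln.z := by
      rw [LA_r2 h]; unfold LY
      rw [if_neg ht, if_neg (by omega), if_pos ⟨h5, hca⟩, CL_ne]
      exact Or.inl ⟨hn, by omega, by omega⟩
    exact h1.congr ((h1.2 0 0 (by omega) (Nat.zero_le _) h3).symm.trans h4.symm)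
  | succ n ihn =>
    intro r h h5 ht hc hn
    have hYr : C.YY r := YYc ht
    have hca : C.ac (Rows.far (rho C.toRows r)) := by rw [far_rho5 h h5]; exact hc
    obtain ⟨c, h1⟩ := one_C5 hR h ht ⟨h5, hca⟩
    have h' := h.stE.1
    have h5' : C.rw r.stE.facet = 5 := by rw [h.stE.2]; exact h5
    have ht' : ¬ C.tr (rho C.toRows r.stE) := fun h2 => ht ((tr_rho_E h).1 h2)
    have hYt : C.YY r.stE := YYc ht'
    have hca' := (ac_far_E h).2 hca
    have hc' : C.ac r.stE.r2 := by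
      rwa [far_rho5 h' h5'] at hca'
    have h2 := na'_E h hca
    have h4 : C.na' r.stE + 1 ≠ C.LL r := by
      intro h6
      rw [if_pos h6] at h2
      omega
    have h3 : C.na' r.stE = n := by
      rw [if_neg h4] at h2
      omega
    have h7 := ihn r.stE h' h5' ht' hc' h3
    have hs : r.stE.r2.stE = r.r2 := FSt.stE_inv r
    have ea : C.aa r.r2 = C.aa r.stE.r2 := by
      rw [← hs]
      exact aa_same (rim5 h' h5') hc' (same_E _)
    rw [ea]
    have hu : C.PR r.stE.r2 k C.m = true := by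
      rw [PR_r2 h']; unfold TY
      rw [if_neg ht', if_neg (by omega), if_pos ⟨h5', hca'⟩, CP_true]
      refine ⟨by omega, fun _ => by omega, fun h5 => ?_⟩
      rw [LL_E h] at h5
      exact absurd h5 h4
    have hu' : C.PR r.r2 0 C.m = true := by
      rw [PR_r2 h]; unfold TY
      rw [if_neg ht, if_neg (by omega), if_pos ⟨h5, hca⟩, CP_true]
      exact ⟨by omega, fun h6 => by omega, fun _ => by omega⟩
    have h8 := hR.gE r.stE.r2 ((act_r2 h').2 hYt) (by rw [hs]; exact (act_r2 h).2 hYr) C.m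
      (by omega) hu
    rw [hs] at h8
    have h9 := h7.1 k C.m le_rfl (by omega) hu
    have h10 := h1.1 0 C.m (Nat.zero_le _) (by omega) hu'
    exact h1.congr (h10.symm.trans (h8.symm.trans h9))

/-- the two feet of a rim that is cut -/
theorem core_c (h : C.Rim ρ) (ht : ¬ C.tr ρ) (hf : C.fa ρ.stE) :
    χ (pN.symm ρ.stE) 0 k ↔ χ (pN.symm ρ) (k - 1) k := by
  have hk := C.hk
  have hm := C.hm
  have hc : C.ac ρ := (C.ac_E _ h).1 (C.fa_ac _ (Rim.stE h) hf)
  obtain ⟨g1, g2⟩ := foot_s h ht hf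
  have ea : C.aa ρ = ρ.stE := by
    rw [← aa_same h hc (same_E ρ)]
    exact ((fa_iff (Rim.stE h) ((C.ac_E _ h).2 hc)).1 hf).symm
  rcases rim_core' h with h1 | ⟨r, hr, h5, rfl⟩
  · have e := h1.rho
    have hYr : C.YY ρ := YYc (by rw [e]; exact ht)
    have h8 := hR.gN _ g1 (by rw [stN_pN_symm]; exact (act_r h1.CU).2 hYr) (k - 1) (by omega) g2
    rw [stN_pN_symm] at h8
    have key := val_C1 hR _ ρ h1 ht hc rfl
    rw [ea] at key
    have h7 : C.LA ρ (k - 1) 0 ≠ Ln.z := by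
      rw [LA_r h1.CU]; unfold LY
      rw [if_neg (by rw [e]; exact ht), if_pos ⟨h1.2, by rw [e]; exact hc⟩, CL_ne]
      exact Or.inr ⟨(fa_cut1 h1 hc).2.1 hf, by omega, Nat.zero_le _⟩
    exact (key.2 (k - 1) 0 (by omega) (Nat.zero_le _) h7).symm.trans h8.symm
  · have ht' : ¬ C.tr (rho C.toRows r) := fun h2 => ht ((tr5 hr h5).2 h2)
    have hYr : C.YY r := YYc ht'
    have hca : C.ac (Rows.far (rho C.toRows r)) := by rw [far_rho5 hr h5]; exact hc
    have h8 := hR.gN _ g1 (by rw [stN_pN_symm]; exact (act_r2 hr).2 hYr) (k - 1) (by omega) g2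
    rw [stN_pN_symm] at h8
    have key := val_C5 hR _ r hr h5 ht' hc rfl
    rw [ea] at key
    have h7 : C.LA r.r2 (k - 1) 0 ≠ Ln.z := by
      rw [LA_r2 hr]; unfold LY
      rw [if_neg ht', if_neg (by omega), if_pos ⟨h5, hca⟩, CL_ne]
      exact Or.inr ⟨(fa_cut5 hr h5 hc).2.1 hf, by omega, by omega⟩
    exact (key.2 (k - 1) 0 (by omega) (Nat.zero_le _) h7).symm.trans h8.symm

/-- unused facets of a cut band -/
lemma one_none (h : CU C.toRows r) (ht : ¬ C.tr (rho C.toRows r))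
    (h1 : ¬ (C.rw r.facet = 1 ∧ C.ac (rho C.toRows r)))
    (h5 : ¬ (C.rw r.facet = 5 ∧ C.ac (Rows.far (rho C.toRows r)))) (c : Prop) :
    C.OneS ψ χ r c := by
  constructor
  · intro x y _ _ hp
    rw [PR_r h] at hp
    unfold TY at hp
    rw [if_neg ht, if_neg h1, if_neg h5] at hp
    exact absurd hp (by simp)
  · intro x y _ _ hp
    rw [LA_r h] at hp
    unfold LY at hp
    rw [if_neg ht, if_neg h1, if_neg h5] at hp
    exact absurd rfl hp

omit hR in
/-- from the frame of the run to the frame with north up -/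
lemma oneS_n (h : CU C.toRows r) (ht : C.tr (rho C.toRows r)) (hY : C.YY r)
    (h1 : C.OneR ψ χ r c) : C.OneS ψ χ r c := by
  unfold OneR uV uH at h1
  rw [if_pos hY, if_pos hY] at h1
  unfold OneS
  rw [PR_n h ht, LA_n h ht]
  generalize C.ng (rho C.toRows r) = b at *
  constructor
  · intro x y hx hy hp
    unfold nP at hp
    have h2 := h1.1 _ y (by split_ifs <;> omega) hy hp
    unfold vN at h2
    rwa [show (if b = true then k - (if b = true then k - x else x)
      else (if b = true then k - x else x)) = x by split_ifs <;> omega] at h2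
  · intro x y hx hy hp
    unfold nL at hp
    have hp' : C.WH r (if b = true then k - 1 - x else x) y = true := by
      by_contra h3
      rw [if_neg h3] at hp
      exact hp rfl
    have h2 := h1.2 _ y (by split_ifs <;> omega) hy hp'
    unfold hN at h2
    rwa [show (if b = true then k - 1 - (if b = true then k - 1 - x else x)
      else (if b = true then k - 1 - x else x)) = x by split_ifs <;> omega] at h2

omit hR in
/-- from the frame of the run to the frame with east up -/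
lemma oneS_t (h : CU C.toRows r) (hY : ¬ C.YY r) (h1 : C.OneR ψ χ r c) : C.OneS ψ χ r.rL c := by
  unfold OneR uV uH at h1
  rw [if_neg hY, if_neg hY] at h1
  unfold OneS
  rw [PR_t h, LA_t h]
  generalize C.ng (rho C.toRows r) = b at *
  constructor
  · intro x y hx hy hp
    unfold tP at hp
    have h2 := h1.2 _ x (by split_ifs <;> omega) hx hp
    unfold hT at h2
    rwa [show (if b = true then (if b = true then y else k - 1 - y)
      else k - 1 - (if b = true then y else k - 1 - y)) = y by split_ifs <;> omega] at h2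
  · intro x y hx hy hp
    unfold tL at hp
    have hp' : C.WV r (if b = true then y else k - y) x = true := by
      by_contra h3
      rw [if_neg h3] at hp
      exact hp rfl
    have h2 := h1.1 _ x (by split_ifs <;> omega) hx hp'
    unfold vT at h2
    rwa [show (if b = true then (if b = true then y else k - y)
      else k - (if b = true then y else k - y)) = y by split_ifs <;> omega] at h2

/-- the values of the feet -/
def FV (C : JX0 P k) (ψ χ : P.FSt → ℕ → ℕ → Prop) (ρ : P.FSt) (c : Prop) : Prop :=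
  C.Rim ρ ∧ ((C.tr ρ ∧ ((C.fa ρ ∧ (c ↔ C.vg ψ χ (C.z1 ρ) ρ)) ∨
    (C.fb ρ ∧ (c ↔ C.vg ψ χ (C.z2 ρ) ρ)))) ∨ (¬ C.tr ρ ∧ C.fa ρ ∧ (c ↔ χ (pN.symm ρ) 0 k)))

/-- every strand of the core has the value of a foot -/
theorem core_all (h : C.rw s.facet ≠ 0) (hs : Act C.canF s) :
    ∃ ρ c, C.FV ψ χ ρ c ∧ C.OneS ψ χ s c := by
  -- tree bands
  have hT : ∀ r, CU C.toRows r → C.tr (rho C.toRows r) → ∃ ρ c, C.FV ψ χ ρ c ∧
      C.OneR ψ χ r c := by
    intro r hr ht
    have hl := hr.lo_rho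
    obtain ⟨o1, o2, o3, o4⟩ := order hr ht
    have ha := aa_spec (C := C) hl.rim (act_of hl.rim ht)
    have hb := bb_spec (C := C) hl.rim ht
    have hra := Rim.same hl.rim ha.1
    have hrb := Rim.same hl.rim hb.1
    have hta := (tr_same hl.rim ha.1).2 ht
    have htb := (tr_same hl.rim hb.1).2 ht
    by_cases h1 : C.nn r ≤ C.tt r
    · refine ⟨_, _, ⟨hra, Or.inl ⟨hta, Or.inl ⟨ha.2, Iff.rfl⟩⟩⟩, ?_⟩
      have := val_1 hR _ _ r hr ht rfl rfl h1
      rwa [← z1_same hl.rim ha.1] at this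
    · by_cases h2 : C.uu r ≤ C.nn r ∧ C.nn r ≤ C.vv r
      · refine ⟨_, _, ⟨hrb, Or.inl ⟨htb, Or.inr ⟨hb.2, Iff.rfl⟩⟩⟩, ?_⟩
        have := val_2 hR _ (C.nn r - C.uu r) r hr ht rfl (by omega) h2.2
        rwa [← z2_same hl.rim hb.1] at this
      · refine ⟨_, _, ⟨hra, Or.inl ⟨hta, Or.inl ⟨ha.2, Iff.rfl⟩⟩⟩, ?_, ?_⟩
        · intro x y _ _ hp
          unfold WV at hp
          rw [KV_true] at hp
          have h3 := hp.1
          unfold on at h3
          rw [decide_eq_true_iff] at h3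
          omega
        · intro x y _ _ hp
          unfold WH at hp
          rw [KH_true] at hp
          have h3 := hp.1
          unfold on at h3
          rw [decide_eq_true_iff] at h3
          omega
  -- the facets with north up
  have hY : ∀ r, CU C.toRows r → C.YY r → ∃ ρ c, C.FV ψ χ ρ c ∧ C.OneS ψ χ r c := by
    intro r hr h1
    have hl := hr.lo_rho
    by_cases ht : C.tr (rho C.toRows r)
    · obtain ⟨ρ, c, h2, h3⟩ := hT r hr ht
      exact ⟨ρ, c, h2, oneS_n hr ht h1 h3⟩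
    · by_cases c1 : C.rw r.facet = 1 ∧ C.ac (rho C.toRows r)
      · have hlo : Lo C.toRows r := ⟨hr.1, c1.1⟩
        have e := hlo.rho
        have c2 := c1.2
        rw [e] at ht c2
        have ha := aa_spec (C := C) hlo.rim c2
        exact ⟨_, _, ⟨Rim.same hlo.rim ha.1, Or.inr ⟨fun h2 => ht ((tr_same hlo.rim ha.1).1 h2),
          ha.2, Iff.rfl⟩⟩, val_C1 hR _ r hlo ht c2 rfl⟩
      · by_cases c5 : C.rw r.facet = 5 ∧ C.ac (Rows.far (rho C.toRows r))
        · have hrim := rim5 hr c5.1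
          have hc : C.ac r.r2 := by rw [← far_rho5 hr c5.1]; exact c5.2
          have htr : ¬ C.tr r.r2 := fun h2 => ht ((tr5 hr c5.1).1 h2)
          have ha := aa_spec (C := C) hrim hc
          have h2 := val_C5 hR _ r hr c5.1 ht hc rfl
          have h3 := h2.rot hR (by rw [FSt.facet_r2]; exact hr.2) ((act_r2 hr).2 h1)
          rw [FSt.r2_r2] at h3
          exact ⟨_, _, ⟨Rim.same hrim ha.1, Or.inr ⟨fun h2 => htr ((tr_same hrim ha.1).1 h2),
            ha.2, Iff.rfl⟩⟩, h3⟩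
        · rcases C.ac_far _ hl.rim with hc | hc
          · have ha := aa_spec (C := C) hl.rim hc
            exact ⟨_, _, ⟨Rim.same hl.rim ha.1, Or.inr ⟨fun h2 => ht ((tr_same hl.rim ha.1).1 h2),
              ha.2, Iff.rfl⟩⟩, one_none hR hr ht c1 c5 _⟩
          · have ha := aa_spec (C := C) hl.far_rim hc
            have htf : ¬ C.tr (Rows.far (rho C.toRows r)) := fun h2 =>
              ht ((C.tr_far _ hl.rim).1 h2)
            exact ⟨_, _, ⟨Rim.same hl.far_rim ha.1, Or.inr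
              ⟨fun h2 => htf ((tr_same hl.far_rim ha.1).1 h2), ha.2, Iff.rfl⟩⟩,
              one_none hR hr ht c1 c5 _⟩
  have hX : ∀ r, CU C.toRows r → ¬ C.YY r → ∃ ρ c, C.FV ψ χ ρ c ∧ C.OneS ψ χ r.rL c := by
    intro r hr h1
    have ht : C.tr (rho C.toRows r) := by
      by_contra h2
      exact h1 (fun h3 => absurd h3 h2)
    obtain ⟨ρ, c, h2, h3⟩ := hT r hr ht
    exact ⟨ρ, c, h2, oneS_t hr h1 h3⟩
  obtain ⟨r, hr, -, h2⟩ := ex_up (C := C) h
  rcases h2 with h2 | h2 | h2 | h2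
  · subst h2
    exact hY _ hr ((act_r hr).1 hs)
  · subst h2
    have h6 := (act_r2 hr).1 hs
    obtain ⟨ρ, c, h3, h5⟩ := hY _ hr h6
    exact ⟨ρ, c, h3, h5.rot hR hr.2 ((act_r hr).2 h6)⟩
  · subst h2
    exact hX _ hr ((act_rL hr).1 hs)
  · subst h2
    have h6 := (act_rR hr).1 hs
    obtain ⟨ρ, c, h3, h5⟩ := hX _ hr h6
    have h8 := h5.rot hR (by rw [FSt.facet_rL]; exact hr.2) ((act_rL hr).2 h6)
    rw [FSt.rL_r2] at h8
    exact ⟨ρ, c, h3, h8⟩

end Rel

end JX0

end Pool.Agent.MP42X
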